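import Mathlib

set_option autoImplicit false
set_option linter.unusedSectionVars false

/-!
Topological preliminaries on compact, Hausdorff, totally disconnected spaces without isolated
points, and on their homeomorphism groups.
-/

namespace Pool.Agent.Lib.Pe4017d

open Set

/-- Nonempty open sets contain two distinct points. -/
def Perf (X : Type*) [TopologicalSpace X] : Prop :=
  ∀ U : Set X, IsOpen U → U.Nonempty → ∃ x ∈ U, ∃ y ∈ U, x ≠ y

section homeo

variable {X : Type*} [TopologicalSpace X]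

theorem inv_ap (g : X ≃ₜ X) (x : X) : g⁻¹ (g x) = x := g.symm_apply_apply x

theorem ap_inv (g : X ≃ₜ X) (x : X) : g (g⁻¹ x) = x := g.apply_symm_apply x

theorem mul_ap (g h : X ≃ₜ X) (x : X) : (g * h) x = g (h x) := rfl

theorem one_ap (x : X) : (1 : X ≃ₜ X) x = x := rfl

theorem ap_inj (g : X ≃ₜ X) {x y : X} (h : g x = g y) : x = y := g.injective h

theorem inv_eq (g : X ≃ₜ X) {x y : X} (h : g x = y) : g⁻¹ y = x := by
  rw [← h, inv_ap]

theorem eq_inv (g : X ≃ₜ X) {x y : X} (h : g⁻¹ x = y) : g y = x := by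
  rw [← h, ap_inv]

theorem mem_img (g : X ≃ₜ X) (U : Set X) (x : X) : x ∈ g '' U ↔ g⁻¹ x ∈ U := by
  constructor
  · rintro ⟨y, hy, rfl⟩
    rwa [inv_ap]
  · intro h
    exact ⟨g⁻¹ x, h, ap_inv g x⟩

theorem img_mul (g h : X ≃ₜ X) (U : Set X) : (g * h) '' U = g '' (h '' U) := by
  rw [Set.image_image]
  rfl

theorem img_one (U : Set X) : (1 : X ≃ₜ X) '' U = U := by
  ext x
  rw [mem_img]
  rfl

theorem img_clopen (g : X ≃ₜ X) {U : Set X} (hU : IsClopen U) : IsClopen (g '' U) := by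
  rw [g.image_eq_preimage_symm]
  exact hU.preimage g.symm.continuous

theorem img_disj (g : X ≃ₜ X) {U V : Set X} (h : Disjoint U V) : Disjoint (g '' U) (g '' V) :=
  (Set.disjoint_image_iff g.injective).mpr h

omit [TopologicalSpace X] in
theorem img_congr {g h : X → X} {U : Set X} (hgh : ∀ x ∈ U, g x = h x) : g '' U = h '' U :=
  Set.image_congr hgh

theorem ext_homeo {g h : X ≃ₜ X} (hgh : ∀ x, g x = h x) : g = h := Homeomorph.ext hgh

theorem zpow_add_ap (g : X ≃ₜ X) (a b : ℤ) (x : X) : (g ^ (a + b)) x = (g ^ a) ((g ^ b) x) := by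
  rw [zpow_add, mul_ap]

theorem zpow_add_img (g : X ≃ₜ X) (a b : ℤ) (U : Set X) :
    (g ^ (a + b)) '' U = (g ^ a) '' ((g ^ b) '' U) := by
  rw [zpow_add, img_mul]

end homeo

section top

variable {X : Type*} [TopologicalSpace X] [CompactSpace X] [T2Space X] [TotallyDisconnectedSpace X]

theorem exists_nhd {x : X} {U : Set X} (hU : IsOpen U) (hx : x ∈ U) :
    ∃ V : Set X, IsClopen V ∧ x ∈ V ∧ V ⊆ U :=
  compact_exists_isClopen_in_isOpen hU hx

/-- Separating two distinct points by a clopen set. -/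
theorem exists_sep {x y : X} (h : x ≠ y) : ∃ V : Set X, IsClopen V ∧ x ∈ V ∧ y ∉ V := by
  obtain ⟨V, h1, h2, h3⟩ := exists_nhd (isOpen_compl_singleton (x := y)) (show x ∈ ({y}ᶜ : Set X) from h)
  exact ⟨V, h1, h2, fun hy => h3 hy rfl⟩

/-- Splitting a nonempty clopen set into two nonempty clopen pieces. -/
theorem split (hp : Perf X) {U : Set X} (hU : IsClopen U) (hne : U.Nonempty) :
    ∃ V W : Set X, IsClopen V ∧ IsClopen W ∧ V.Nonempty ∧ W.Nonempty ∧ Disjoint V W ∧
      V ∪ W = U := by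
  obtain ⟨x, hx, y, hy, hxy⟩ := hp U hU.isOpen hne
  obtain ⟨V, h1, h2, h3⟩ := exists_sep hxy
  refine ⟨U ∩ V, U \ V, hU.inter h1, hU.diff h1, ⟨x, hx, h2⟩, ⟨y, hy, h3⟩, ?_, ?_⟩
  · exact Set.disjoint_left.mpr fun z hz hz' => hz'.2 hz.2
  · exact Set.inter_union_sdiff U V

/-- A sequence of pairwise disjoint nonempty clopen subsets. -/
theorem exists_seq (hp : Perf X) {U : Set X} (hU : IsClopen U) (hne : U.Nonempty) :
    ∃ f : ℕ → Set X, (∀ n, IsClopen (f n)) ∧ (∀ n, (f n).Nonempty) ∧ (∀ n, f n ⊆ U) ∧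
      ∀ m n, m ≠ n → Disjoint (f m) (f n) := by
  let S := {V : Set X // IsClopen V ∧ V.Nonempty}
  have h1 : ∀ V : S, ∃ P : S × S, Disjoint P.1.1 P.2.1 ∧ P.1.1 ∪ P.2.1 = V.1 := by
    rintro ⟨V, hV, hVn⟩
    obtain ⟨A, B, hA, hB, hAn, hBn, hAB, hu⟩ := split hp hV hVn
    exact ⟨(⟨A, hA, hAn⟩, ⟨B, hB, hBn⟩), hAB, hu⟩
  choose F hF using h1
  let g : ℕ → S := fun n => Nat.rec (⟨U, hU, hne⟩ : S) (fun _ V => (F V).2) n
  have hg0 : (g 0).1 = U := rfl
  have hgs : ∀ n, g (n + 1) = (F (g n)).2 := fun n => rfl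
  have hanti : ∀ n d, (g (n + d)).1 ⊆ (g n).1 := by
    intro n d
    induction d with
    | zero => exact le_rfl
    | succ d ih =>
      refine Set.Subset.trans ?_ ih
      rw [← add_assoc, hgs, ← (hF (g (n + d))).2]
      exact Set.subset_union_right
  refine ⟨fun n => (F (g n)).1.1, fun n => (F (g n)).1.2.1, fun n => (F (g n)).1.2.2, ?_, ?_⟩
  · intro n
    have h2 : (F (g n)).1.1 ⊆ (g n).1 := by
      rw [← (hF (g n)).2]
      exact Set.subset_union_left
    have h3 := hanti 0 n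
    rw [zero_add, hg0] at h3
    exact h2.trans h3
  · have key : ∀ m n, m < n → Disjoint (F (g m)).1.1 (F (g n)).1.1 := by
      intro m n hmn
      have h2 : (F (g n)).1.1 ⊆ (g n).1 := by
        rw [← (hF (g n)).2]
        exact Set.subset_union_left
      obtain ⟨d, rfl⟩ : ∃ d, n = (m + 1) + d := ⟨n - (m + 1), by omega⟩
      have h3 := hanti (m + 1) d
      rw [hgs m] at h3
      exact (hF (g m)).1.mono_right (h2.trans h3)
    intro m n hmn
    rcases lt_or_gt_of_ne hmn with h | h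
    · exact key m n h
    · exact (key n m h).symm

/-- Induction over clopen sets: a property of sets which is stable under disjoint unions and
holds for all small clopen sets holds for all clopen sets. -/
theorem clopen_ind (P : Set X → Prop) (h0 : P ∅)
    (hU : ∀ U V : Set X, IsClopen U → IsClopen V → Disjoint U V → P U → P V → P (U ∪ V))
    {W : Set X} (hW : IsClopen W)
    (hloc : ∀ x ∈ W, ∃ V : Set X, IsClopen V ∧ x ∈ V ∧ ∀ U, IsClopen U → U ⊆ V → U ⊆ W → P U) :
    P W := by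
  have h1 : ∃ V : Set X, IsClopen V ∧ W ⊆ V ∧ ∀ U, IsClopen U → U ⊆ V → U ⊆ W → P U := by
    refine IsCompact.induction_on (p := fun s => ∃ V : Set X, IsClopen V ∧ s ⊆ V ∧
      ∀ U, IsClopen U → U ⊆ V → U ⊆ W → P U) (hW.isClosed.isCompact) ?_ ?_ ?_ ?_
    · exact ⟨∅, isClopen_empty, le_rfl, fun U _ hU' _ => by
        rw [Set.subset_empty_iff.mp hU']; exact h0⟩
    · rintro s t hst ⟨V, h1, h2, h3⟩
      exact ⟨V, h1, hst.trans h2, h3⟩
    · rintro s t ⟨V, h1, h2, h3⟩ ⟨V', h1', h2', h3'⟩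
      refine ⟨V ∪ V', h1.union h1', Set.union_subset_union h2 h2', ?_⟩
      intro U hUc hUV hUW
      have h4 : U = (U ∩ V) ∪ (U \ V) := (Set.inter_union_sdiff U V).symm
      rw [h4]
      apply hU _ _ (hUc.inter h1) (hUc.diff h1)
      · exact Set.disjoint_left.mpr fun z hz hz' => hz'.2 hz.2
      · exact h3 _ (hUc.inter h1) Set.inter_subset_right (Set.inter_subset_left.trans hUW)
      · refine h3' _ (hUc.diff h1) ?_ (Set.sdiff_subset.trans hUW)
        rintro z ⟨hz, hz'⟩
        rcases hUV hz with h | h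
        · exact absurd h hz'
        · exact h
    · intro x hx
      obtain ⟨V, hV1, hV2, hV3⟩ := hloc x hx
      exact ⟨V, mem_nhdsWithin_of_mem_nhds (hV1.isOpen.mem_nhds hV2), V, hV1, le_rfl, hV3⟩
  obtain ⟨V, _, h2, h3⟩ := h1
  exact h3 W hW h2 le_rfl

/-- In a nonempty clopen set there is a point outside of a given finite set. -/
theorem exists_avoid (hp : Perf X) {U : Set X} (hU : IsOpen U) (hne : U.Nonempty)
    (F : Set X) (hF : F.Finite) : ∃ V : Set X, IsClopen V ∧ V.Nonempty ∧ V ⊆ U ∧ Disjoint V F := by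
  have h1 : (U \ F).Nonempty := by
    induction F, hF using Set.Finite.induction_on generalizing U with
    | empty => simpa using hne
    | @insert a s _ _ ih =>
      have h2 : IsOpen (U \ {a}) := hU.sdiff isClosed_singleton
      have h3 : (U \ {a}).Nonempty := by
        obtain ⟨x, hx, y, hy, hxy⟩ := hp U hU hne
        by_cases h : x = a
        · exact ⟨y, hy, fun h' => hxy (h.trans h'.symm)⟩
        · exact ⟨x, hx, h⟩
      obtain ⟨z, hz, hz'⟩ := ih h2 h3
      refine ⟨z, hz.1, ?_⟩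
      rintro (h | h)
      · exact hz.2 h
      · exact hz' h
  obtain ⟨x, hx⟩ := h1
  obtain ⟨V, hV1, hV2, hV3⟩ := exists_nhd (hU.sdiff hF.isClosed) hx
  exact ⟨V, hV1, ⟨x, hV2⟩, fun z hz => (hV3 hz).1, Set.disjoint_left.mpr fun z hz => (hV3 hz).2⟩

end top

end Pool.Agent.Lib.Pe4017d
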