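import Pool.Agent.Lib.Pe4017d.Basic

set_option autoImplicit false
set_option linter.unusedSectionVars false

/-!
Rokhlin towers for aperiodic homeomorphisms, and generic clopen sets.
-/

namespace Pool.Agent.Lib.Pe4017d

open Set

variable {X : Type*} [TopologicalSpace X] [CompactSpace X] [T2Space X] [TotallyDisconnectedSpace X]

/-- All orbits of `σ` are infinite. -/
def Aper (σ : X ≃ₜ X) : Prop := ∀ x, (Set.range fun n : ℤ => (σ ^ n) x).Infinite

theorem Aper.ne {σ : X ≃ₜ X} (h : Aper σ) (x : X) {n : ℤ} (hn : n ≠ 0) : (σ ^ n) x ≠ x := by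
  intro hx
  apply h x
  have hnn : (0 : ℤ) < |n| := abs_pos.mpr hn
  have hx' : (σ ^ |n|) x = x := by
    rcases abs_choice n with h1 | h1
    · rw [h1, hx]
    · rw [h1, zpow_neg]
      exact inv_eq _ hx
  have hmul : ∀ k : ℤ, (σ ^ (|n| * k)) x = x := by
    intro k
    induction k using Int.induction_on with
    | zero => rw [mul_zero, zpow_zero]; rfl
    | succ k ih => rw [mul_add, mul_one, add_comm, zpow_add_ap, ih, hx']
    | pred k ih =>
      rw [mul_sub, mul_one, sub_eq_neg_add, zpow_add_ap, ih, zpow_neg]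
      exact inv_eq _ hx'
  refine Set.Finite.subset (Set.Finite.image (fun k : ℤ => (σ ^ k) x) (Set.finite_Ico (0 : ℤ) |n|)) ?_
  rintro _ ⟨k, rfl⟩
  refine ⟨k % |n|, ⟨Int.emod_nonneg _ hnn.ne', Int.emod_lt_of_pos _ hnn⟩, ?_⟩
  have h2 : k = k % |n| + |n| * (k / |n|) := (Int.emod_add_mul_ediv k |n|).symm
  show (σ ^ (k % |n|)) x = (σ ^ k) x
  conv_rhs => rw [h2, zpow_add_ap, hmul]

/-- The translates `σ ^ j B`, `1 ≤ j ≤ n`, are disjoint from `B`. -/
def Free (σ : X ≃ₜ X) (n : ℕ) (B : Set X) : Prop :=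
  ∀ j : ℤ, 1 ≤ j → j ≤ n → Disjoint B ((σ ^ j) '' B)

theorem Free.disj {σ : X ≃ₜ X} {n : ℕ} {B : Set X} (h : Free σ n B) {i j : ℤ} (hij : i ≠ j)
    (hn : |i - j| ≤ n) : Disjoint ((σ ^ i) '' B) ((σ ^ j) '' B) := by
  have key : ∀ i j : ℤ, i < j → j - i ≤ n → Disjoint ((σ ^ i) '' B) ((σ ^ j) '' B) := by
    intro i j hij hn
    have h1 := img_disj (σ ^ i) (h (j - i) (by omega) hn)
    rw [← zpow_add_img, add_sub_cancel] at h1
    exact h1
  rcases lt_or_gt_of_ne hij with h1 | h1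
  · exact key i j h1 (by rw [abs_of_neg (by omega)] at hn; omega)
  · exact (key j i h1 (by rw [abs_of_pos (by omega)] at hn; omega)).symm

theorem exists_tower {σ : X ≃ₜ X} (hσ : Aper σ) (n : ℕ) : ∃ B : Set X, IsClopen B ∧ Free σ n B ∧
    ∀ x, ∃ s : ℕ, s ≤ 2 * n ∧ (σ ^ (-(s : ℤ))) x ∈ B := by
  -- local smallness
  have hloc : ∀ x : X, ∃ V : Set X, IsClopen V ∧ x ∈ V ∧ Free σ n V := by
    intro x
    have h1 : ∀ m : ℕ, ∃ V : Set X, IsClopen V ∧ x ∈ V ∧ Free σ m V := by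
      intro m
      induction m with
      | zero => exact ⟨univ, isClopen_univ, mem_univ x, fun j h1 h2 => by
          exfalso; push_cast at h2; omega⟩
      | succ m ih =>
        obtain ⟨V, hV1, hV2, hV3⟩ := ih
        have h2 : (σ ^ ((m : ℤ) + 1)) x ≠ x := hσ.ne x (by omega)
        obtain ⟨W, hW1, hW2, hW3⟩ := exists_sep h2.symm
        have h3 : IsOpen (V ∩ W ∩ (σ ^ ((m : ℤ) + 1)) ⁻¹' Wᶜ) :=
          (hV1.isOpen.inter hW1.isOpen).inter
            (hW1.compl.isOpen.preimage (σ ^ ((m : ℤ) + 1)).continuous)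
        obtain ⟨Z, hZ1, hZ2, hZ3⟩ := exists_nhd h3 ⟨⟨hV2, hW2⟩, hW3⟩
        refine ⟨Z, hZ1, hZ2, ?_⟩
        intro j hj1 hj2
        by_cases hj : j = (m : ℤ) + 1
        · rw [Set.disjoint_left]
          rintro y hy ⟨z, hz, hzy⟩
          have h4 := (hZ3 hz).2
          rw [← hj] at h4
          apply h4
          rw [hzy]
          exact (hZ3 hy).1.2
        · have hZV : Z ⊆ V := fun z hz => (hZ3 hz).1.1
          exact (hV3 j hj1 (by push_cast at hj2; omega)).mono hZV (Set.image_mono hZV)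
    exact h1 n
  -- greedy construction
  have key : ∀ B₀ : Set X, IsClopen B₀ → Free σ n B₀ → ∃ B : Set X, IsClopen B ∧
      Free σ n B ∧ B₀ ⊆ B ∧ ∀ x ∈ (univ : Set X), ∃ j : ℤ, |j| ≤ n ∧ (σ ^ j) x ∈ B := by
    refine IsCompact.induction_on (p := fun s : Set X => ∀ B₀ : Set X, IsClopen B₀ → Free σ n B₀ →
      ∃ B : Set X, IsClopen B ∧ Free σ n B ∧ B₀ ⊆ B ∧ ∀ x ∈ s, ∃ j : ℤ, |j| ≤ n ∧ (σ ^ j) x ∈ B)
      isCompact_univ ?_ ?_ ?_ ?_
    · intro B₀ h1 h2
      exact ⟨B₀, h1, h2, le_rfl, fun x hx => absurd hx (Set.notMem_empty x)⟩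
    · intro s t hst ht B₀ h1 h2
      obtain ⟨B, h3, h4, h5, h6⟩ := ht B₀ h1 h2
      exact ⟨B, h3, h4, h5, fun x hx => h6 x (hst hx)⟩
    · intro s t hs ht B₀ h1 h2
      obtain ⟨B, h3, h4, h5, h6⟩ := hs B₀ h1 h2
      obtain ⟨B', h3', h4', h5', h6'⟩ := ht B h3 h4
      refine ⟨B', h3', h4', h5.trans h5', ?_⟩
      rintro x (hx | hx)
      · obtain ⟨j, hj, hj'⟩ := h6 x hx
        exact ⟨j, hj, h5' hj'⟩
      · exact h6' x hx
    · intro x _
      obtain ⟨V, hV1, hV2, hV3⟩ := hloc x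
      refine ⟨V, mem_nhdsWithin_of_mem_nhds (hV1.isOpen.mem_nhds hV2), ?_⟩
      intro B₀ h1 h2
      let O : Set X := ⋃ j ∈ Set.Icc (-(n : ℤ)) n, (σ ^ j) '' B₀
      have hO : IsClopen O := by
        apply Set.Finite.isClopen_biUnion (Set.finite_Icc _ _)
        intro j _
        exact img_clopen _ h1
      have hOmem : ∀ z, z ∉ O → ∀ j : ℤ, |j| ≤ n → ∀ y ∈ B₀, (σ ^ j) y ≠ z := by
        intro z hz j hj y hy h
        apply hz
        rw [abs_le] at hj
        exact Set.mem_biUnion (show j ∈ Set.Icc (-(n : ℤ)) n from ⟨hj.1, hj.2⟩) ⟨y, hy, h⟩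
      refine ⟨B₀ ∪ (V \ O), h1.union (hV1.diff hO), ?_, Set.subset_union_left, ?_⟩
      · intro j hj1 hj2
        rw [Set.disjoint_left]
        rintro z hz ⟨y, hy, rfl⟩
        rcases hy with hy | hy
        · rcases hz with hz | hz
          · exact Set.disjoint_left.mp (h2 j hj1 hj2) hz ⟨y, hy, rfl⟩
          · exact hOmem _ hz.2 j (by rw [abs_of_pos (by omega)]; exact hj2) y hy rfl
        · rcases hz with hz | hz
          · refine hOmem _ hy.2 (-j) (by rw [abs_neg, abs_of_pos (by omega)]; exact hj2) _ hz ?_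
            rw [zpow_neg, inv_ap]
          · exact Set.disjoint_left.mp (hV3 j hj1 hj2) hz.1 ⟨y, hy.1, rfl⟩
      · intro y hy
        by_cases hyO : y ∈ O
        · obtain ⟨j, hj, z, hz, hzy⟩ := Set.mem_iUnion₂.mp hyO
          refine ⟨-j, ?_, Or.inl ?_⟩
          · rw [abs_neg, abs_le]
            exact ⟨hj.1, hj.2⟩
          · rw [← hzy, zpow_neg, inv_ap]
            exact hz
        · refine ⟨0, by simp, Or.inr ⟨?_, ?_⟩⟩
          · rw [zpow_zero]; exact hy
          · rw [zpow_zero]; exact hyO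
  obtain ⟨B, h1, h2, _, h3⟩ := key ∅ isClopen_empty (fun j _ _ => by simp)
  refine ⟨B, h1, h2, ?_⟩
  intro x
  obtain ⟨j, hj, hj'⟩ := h3 ((σ ^ (-(n : ℤ))) x) (mem_univ _)
  rw [abs_le] at hj
  refine ⟨((n : ℤ) - j).toNat, by omega, ?_⟩
  rw [← zpow_add_ap] at hj'
  rw [Int.toNat_of_nonneg (by omega)]
  rw [show -((n : ℤ) - j) = j + -(n : ℤ) by ring]
  exact hj'

/-- A hereditary and dense requirement for families of nonempty clopen sets. -/
def Req (P : (ℕ → Set X) → Prop) : Prop :=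
  (∀ Y Y' : ℕ → Set X, (∀ i, Y' i ⊆ Y i) → P Y → P Y') ∧
  ∀ Y : ℕ → Set X, (∀ i, IsClopen (Y i)) → (∀ i, (Y i).Nonempty) →
    ∃ Y' : ℕ → Set X, (∀ i, IsClopen (Y' i)) ∧ (∀ i, (Y' i).Nonempty) ∧ (∀ i, Y' i ⊆ Y i) ∧ P Y'

theorem req_finite {ι : Type*} {S : Set ι} (hS : S.Finite) (P : ι → (ℕ → Set X) → Prop)
    (hP : ∀ s ∈ S, Req (P s)) : Req (fun Y => ∀ s ∈ S, P s Y) := by
  induction S, hS using Set.Finite.induction_on with
  | empty =>
    refine ⟨fun Y Y' _ _ s hs => absurd hs (Set.notMem_empty s), ?_⟩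
    intro Y h1 h2
    exact ⟨Y, h1, h2, fun _ => le_rfl, fun s hs => absurd hs (Set.notMem_empty s)⟩
  | @insert a S _ _ ih =>
    have h1 := ih (fun s hs => hP s (Set.mem_insert_of_mem a hs))
    have h2 := hP a (Set.mem_insert a S)
    refine ⟨?_, ?_⟩
    · rintro Y Y' hY h s (rfl | hs)
      · exact h2.1 Y Y' hY (h s (Set.mem_insert s S))
      · exact h1.1 Y Y' hY (fun s hs => h s (Set.mem_insert_of_mem a hs)) s hs
    · intro Y hY hYn
      obtain ⟨Y', c1, c2, c3, c4⟩ := h1.2 Y hY hYn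
      obtain ⟨Y'', d1, d2, d3, d4⟩ := h2.2 Y' c1 c2
      refine ⟨Y'', d1, d2, fun i => (d3 i).trans (c3 i), ?_⟩
      rintro s (rfl | hs)
      · exact d4
      · exact h1.1 Y' Y'' d3 c4 s hs

/-- Generic families of clopen sets. -/
theorem exists_generic (hp : Perf X) (k : ℕ) {S : Set (X ≃ₜ X)} (hS : S.Finite) (z : X)
    (Y : ℕ → Set X) (hY : ∀ i, IsClopen (Y i)) (hYn : ∀ i, (Y i).Nonempty) :
    ∃ Y' : ℕ → Set X, (∀ i, IsClopen (Y' i)) ∧ (∀ i, (Y' i).Nonempty) ∧ (∀ i, Y' i ⊆ Y i) ∧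
      (∀ a ∈ S, ∀ b ∈ S, ∀ i < k, (∀ x ∈ Y' i, a x = b x) ∨ Disjoint (a '' (Y' i)) (b '' (Y' i))) ∧
      (∀ a ∈ S, ∀ b ∈ S, ∀ i < k, ∀ j < k, i ≠ j → Disjoint (a '' (Y' i)) (b '' (Y' j))) ∧
      ∀ a ∈ S, ∀ i < k, z ∉ a '' (Y' i) := by
  classical
  have h1 : Req (fun Y : ℕ → Set X => ∀ t ∈ S ×ˢ (S ×ˢ Set.Iio k),
      (∀ x ∈ Y t.2.2, t.1 x = t.2.1 x) ∨ Disjoint (t.1 '' (Y t.2.2)) (t.2.1 '' (Y t.2.2))) := by
    apply req_finite (hS.prod (hS.prod (Set.finite_Iio k))) (fun t Y =>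
      (∀ x ∈ Y t.2.2, t.1 x = t.2.1 x) ∨ Disjoint (t.1 '' (Y t.2.2)) (t.2.1 '' (Y t.2.2)))
    rintro ⟨a, b, i⟩ _
    refine ⟨?_, ?_⟩
    · rintro Y Y' hY (h | h)
      · left
        exact fun x hx => h x (hY i hx)
      · right
        exact h.mono (Set.image_mono (hY i)) (Set.image_mono (hY i))
    · intro Y hY hYn
      by_cases h : ∀ x ∈ Y i, a x = b x
      · exact ⟨Y, hY, hYn, fun _ => le_rfl, Or.inl h⟩
      · push Not at h
        obtain ⟨x, hx, hxab⟩ := h
        obtain ⟨W, hW1, hW2, hW3⟩ := exists_sep hxab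
        have h2 : IsOpen (Y i ∩ a ⁻¹' W ∩ b ⁻¹' Wᶜ) := ((hY i).isOpen.inter
          (hW1.isOpen.preimage a.continuous)).inter (hW1.compl.isOpen.preimage b.continuous)
        obtain ⟨V, hV1, hV2, hV3⟩ := exists_nhd h2 ⟨⟨hx, hW2⟩, hW3⟩
        refine ⟨Function.update Y i V, ?_, ?_, ?_, Or.inr ?_⟩
        · intro j
          by_cases hj : j = i
          · rw [hj, Function.update_self]; exact hV1
          · rw [Function.update_of_ne hj]; exact hY j
        · intro j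
          by_cases hj : j = i
          · rw [hj, Function.update_self]; exact ⟨x, hV2⟩
          · rw [Function.update_of_ne hj]; exact hYn j
        · intro j
          by_cases hj : j = i
          · rw [hj, Function.update_self]; exact fun y hy => (hV3 hy).1.1
          · rw [Function.update_of_ne hj]
        · show Disjoint (a '' (Function.update Y i V i)) (b '' (Function.update Y i V i))
          rw [Function.update_self, Set.disjoint_left]
          rintro _ ⟨y, hy, rfl⟩ ⟨y', hy', h3⟩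
          have h4 : a y ∈ W := (hV3 hy).1.2
          rw [← h3] at h4
          exact (hV3 hy').2 h4
  have h2 : Req (fun Y : ℕ → Set X => ∀ t ∈ S ×ˢ (S ×ˢ (Set.Iio k ×ˢ Set.Iio k)),
      t.2.2.1 ≠ t.2.2.2 → Disjoint (t.1 '' (Y t.2.2.1)) (t.2.1 '' (Y t.2.2.2))) := by
    apply req_finite (hS.prod (hS.prod ((Set.finite_Iio k).prod (Set.finite_Iio k))))
      (fun t Y => t.2.2.1 ≠ t.2.2.2 → Disjoint (t.1 '' (Y t.2.2.1)) (t.2.1 '' (Y t.2.2.2)))
    rintro ⟨a, b, i, j⟩ _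
    refine ⟨?_, ?_⟩
    · intro Y Y' hY h hij
      exact (h hij).mono (Set.image_mono (hY i)) (Set.image_mono (hY j))
    · intro Y hY hYn
      by_cases hij : i = j
      · exact ⟨Y, hY, hYn, fun _ => le_rfl, fun h => absurd hij h⟩
      · obtain ⟨x, hx⟩ := hYn i
        obtain ⟨V, hV1, ⟨y, hy⟩, hV3, hV4⟩ := exists_avoid hp (hY j).isOpen (hYn j) {b⁻¹ (a x)}
          (Set.finite_singleton _)
        have hne : a x ≠ b y := by
          intro h
          apply Set.disjoint_left.mp hV4 hy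
          rw [Set.mem_singleton_iff, h, inv_ap]
        obtain ⟨W, hW1, hW2, hW3⟩ := exists_sep hne
        refine ⟨fun l => if l = i then Y i ∩ a ⁻¹' W else if l = j then Y j ∩ b ⁻¹' Wᶜ else Y l,
          ?_, ?_, ?_, ?_⟩
        · intro l
          dsimp only
          split_ifs with h3 h4
          · exact (hY i).inter (hW1.preimage a.continuous)
          · exact (hY j).inter (hW1.compl.preimage b.continuous)
          · exact hY l
        · intro l
          dsimp only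
          split_ifs with h3 h4
          · exact ⟨x, hx, hW2⟩
          · exact ⟨y, hV3 hy, hW3⟩
          · exact hYn l
        · intro l
          dsimp only
          split_ifs with h3 h4
          · rw [h3]; exact Set.inter_subset_left
          · rw [h4]; exact Set.inter_subset_left
          · exact le_rfl
        · intro _
          show Disjoint (a '' (if i = i then Y i ∩ a ⁻¹' W else if i = j then Y j ∩ b ⁻¹' Wᶜ else Y i))
            (b '' (if j = i then Y i ∩ a ⁻¹' W else if j = j then Y j ∩ b ⁻¹' Wᶜ else Y j))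
          rw [if_pos rfl, if_neg (fun h => hij h.symm), if_pos rfl, Set.disjoint_left]
          rintro _ ⟨u, hu, rfl⟩ ⟨v, hv, h3⟩
          apply hv.2
          show b v ∈ W
          rw [h3]
          exact hu.2
  have h3 : Req (fun Y : ℕ → Set X => ∀ t ∈ S ×ˢ Set.Iio k, z ∉ t.1 '' (Y t.2)) := by
    apply req_finite (hS.prod (Set.finite_Iio k)) (fun t Y => z ∉ t.1 '' (Y t.2))
    rintro ⟨a, i⟩ _
    refine ⟨?_, ?_⟩
    · intro Y Y' hY h hz
      exact h (Set.image_mono (hY i) hz)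
    · intro Y hY hYn
      obtain ⟨V, hV1, hV2, hV3, hV4⟩ := exists_avoid hp (hY i).isOpen (hYn i) {a⁻¹ z}
        (Set.finite_singleton _)
      refine ⟨Function.update Y i V, ?_, ?_, ?_, ?_⟩
      · intro j
        by_cases hj : j = i
        · rw [hj, Function.update_self]; exact hV1
        · rw [Function.update_of_ne hj]; exact hY j
      · intro j
        by_cases hj : j = i
        · rw [hj, Function.update_self]; exact hV2
        · rw [Function.update_of_ne hj]; exact hYn j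
      · intro j
        by_cases hj : j = i
        · rw [hj, Function.update_self]; exact hV3
        · rw [Function.update_of_ne hj]
      · show z ∉ a '' (Function.update Y i V i)
        rw [Function.update_self]
        rintro ⟨y, hy, rfl⟩
        apply Set.disjoint_left.mp hV4 hy
        rw [Set.mem_singleton_iff, inv_ap]
  obtain ⟨Y1, a1, a2, a3, a4⟩ := h1.2 Y hY hYn
  obtain ⟨Y2, b1, b2, b3, b4⟩ := h2.2 Y1 a1 a2
  obtain ⟨Y3, c1, c2, c3, c4⟩ := h3.2 Y2 b1 b2
  refine ⟨Y3, c1, c2, fun i => ((c3 i).trans (b3 i)).trans (a3 i), ?_, ?_, ?_⟩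
  · intro a ha b hb i hi
    exact h1.1 Y1 Y3 (fun i => (c3 i).trans (b3 i)) a4 ⟨a, b, i⟩ ⟨ha, hb, hi⟩
  · intro a ha b hb i hi j hj hij
    exact h2.1 Y2 Y3 c3 b4 ⟨a, b, i, j⟩ ⟨ha, hb, hi, hj⟩ hij
  · intro a ha i hi
    exact c4 ⟨a, i⟩ ⟨ha, hi⟩

end Pool.Agent.Lib.Pe4017d
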