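import Pool.Agent.Lib.Pe4017d.Psi
import Pool.Agent.Lib.Pe4017d.Tower

set_option autoImplicit false
set_option linter.unusedSectionVars false

/-!
The conjugate `β` and generation.
-/

namespace Pool.Agent.Lib.Pe4017d

open Set

variable {X : Type*} [TopologicalSpace X] [CompactSpace X] [T2Space X] [TotallyDisconnectedSpace X]

theorem conj_zpow_ap (g σ : X ≃ₜ X) (t : ℤ) (x : X) :
    ((g * σ * g⁻¹) ^ t) x = g ((σ ^ t) (g⁻¹ x)) := by
  rw [conj_zpow]
  rfl

namespace Pos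

variable {G : Subgroup (X ≃ₜ X)} {c : Ctx G} {B : Set X} (P : Pos c B)

/-- Realisation of the levels by a conjugate of `σ`. -/
theorem exists_beta (hp : Perf X) [Nonempty X] (hv : Vigorous G) (hs : IsSimpleGroup G)
    (hB : IsClopen B) (hBn : B.Nonempty) {σ : X ≃ₜ X} (hσ : σ ∈ G)
    (hfree : Free σ (2 * c.m + 1) B)
    (hret : ∀ x, ∃ s : ℕ, s ≤ 2 * (2 * c.m + 1) ∧ (σ ^ (-(s : ℤ))) x ∈ B)
    {ψ : ℤ → (X ≃ₜ X)} (hψ : ∀ t, ψ t ∈ G) (hψR : ∀ t, ψ t '' P.R = P.e t '' B) (hψ0 : ψ 0 = 1) :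
    ∃ g ∈ G, (∀ t : ℤ, |t| ≤ c.m → ∀ x ∈ P.R, ((g * σ * g⁻¹) ^ t) x = ψ t x) ∧
      (∀ t t' : ℤ, t ≠ t' → |t - t'| ≤ 2 * c.m →
        Disjoint (Lev (g * σ * g⁻¹) P.R t) (Lev (g * σ * g⁻¹) P.R t')) ∧
      ∀ x, ∀ t0 : ℤ, ∃ s : ℕ, s ≤ 2 * (2 * c.m + 1) ∧
        ((g * σ * g⁻¹) ^ (-(s : ℤ))) x ∈ Lev (g * σ * g⁻¹) P.R t0 := by
  classical
  -- uniqueness of the level
  have huniq : ∀ (x : X) (t t' : ℤ), |t| ≤ c.m → |t'| ≤ c.m → (σ ^ (-t)) x ∈ B →
      (σ ^ (-t')) x ∈ B → t = t' := by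
    intro x t t' ht ht' h1 h2
    by_contra hne
    have h3 : Disjoint ((σ ^ t) '' B) ((σ ^ t') '' B) := by
      apply hfree.disj hne
      rw [abs_le] at ht ht' ⊢
      push_cast
      constructor <;> omega
    rw [zpow_neg] at h1 h2
    exact Set.disjoint_left.mp h3 ((mem_img _ _ _).mpr h1) ((mem_img _ _ _).mpr h2)
  let m' : X → X := fun x => if h : ∃ t : ℤ, |t| ≤ c.m ∧ (σ ^ (-t)) x ∈ B then
    ψ h.choose (P.e 0 ((σ ^ (-h.choose)) x)) else x
  have hm' : ∀ (x : X) (t : ℤ), |t| ≤ c.m → (σ ^ (-t)) x ∈ B →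
      m' x = ψ t (P.e 0 ((σ ^ (-t)) x)) := by
    intro x t ht hx
    have hex : ∃ t : ℤ, |t| ≤ c.m ∧ (σ ^ (-t)) x ∈ B := ⟨t, ht, hx⟩
    have h1 := hex.choose_spec
    have h2 : hex.choose = t := huniq x _ _ h1.1 ht h1.2 hx
    show (if h : ∃ t : ℤ, |t| ≤ c.m ∧ (σ ^ (-t)) x ∈ B then
      ψ h.choose (P.e 0 ((σ ^ (-h.choose)) x)) else x) = _
    rw [dif_pos hex, h2]
  let U : Set X := ⋃ t ∈ Set.Icc (-(c.m : ℤ)) c.m, (σ ^ t) '' B
  have hU : IsClopen U := Set.Finite.isClopen_biUnion (Set.finite_Icc _ _)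
    (fun t _ => img_clopen _ hB)
  have hUmem : ∀ x, x ∈ U ↔ ∃ t : ℤ, |t| ≤ c.m ∧ (σ ^ (-t)) x ∈ B := by
    intro x
    show x ∈ (⋃ t ∈ Set.Icc (-(c.m : ℤ)) c.m, (σ ^ t) '' B) ↔ _
    rw [Set.mem_iUnion₂]
    constructor
    · rintro ⟨t, ht, h⟩
      rw [mem_img, ← zpow_neg] at h
      exact ⟨t, abs_le.mpr ht, h⟩
    · rintro ⟨t, ht, h⟩
      rw [zpow_neg] at h
      exact ⟨t, abs_le.mp ht, (mem_img _ _ _).mpr h⟩
  have hm'mem : ∀ (x : X) (t : ℤ), |t| ≤ c.m → (σ ^ (-t)) x ∈ B → m' x ∈ P.e t '' B := by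
    intro x t ht hx
    rw [hm' x t ht hx, ← hψR]
    exact ⟨_, ⟨_, hx, rfl⟩, rfl⟩
  have HH := ext_main hp hv hs (K := ∅) (U := U) (m := m') isClopen_empty hU
    (Set.disjoint_empty _) (Set.disjoint_empty _) ?_ ?_ ?_ ?_
  obtain ⟨g, hg, hg1, _⟩ := HH
  · -- the conjugate
    have hgb : ∀ b ∈ B, ∀ t : ℤ, |t| ≤ c.m → g ((σ ^ t) b) = ψ t (P.e 0 b) := by
      intro b hb t ht
      have h1 : (σ ^ (-t)) ((σ ^ t) b) = b := by rw [zpow_neg, inv_ap]
      have h2 : (σ ^ t) b ∈ U := (hUmem _).mpr ⟨t, ht, by rw [h1]; exact hb⟩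
      rw [hg1 _ h2, hm' _ t ht (by rw [h1]; exact hb), h1]
    have hgB : g '' B = P.R := by
      have h1 : g '' B = P.e 0 '' B := by
        apply img_congr
        intro b hb
        have h2 := hgb b hb 0 (by simp)
        rw [zpow_zero, hψ0] at h2
        exact h2
      exact h1
    have hLev : ∀ t : ℤ, Lev (g * σ * g⁻¹) P.R t = g '' ((σ ^ t) '' B) := by
      intro t
      unfold Lev
      rw [← hgB, conj_zpow, ← img_mul, inv_mul_cancel_right, img_mul]
    refine ⟨g, hg, ?_, ?_, ?_⟩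
    · intro t ht x hx
      rw [← hgB] at hx
      obtain ⟨b, hb, rfl⟩ := hx
      rw [conj_zpow_ap, inv_ap, hgb b hb t ht]
      have h2 := hgb b hb 0 (by simp)
      rw [zpow_zero, hψ0] at h2
      have h3 : g b = P.e 0 b := h2
      rw [h3]
    · intro t t' htt ht
      rw [hLev, hLev]
      apply img_disj
      apply hfree.disj htt
      push_cast
      omega
    · intro x t0
      obtain ⟨s, hs1, hs2⟩ := hret ((σ ^ (-t0)) (g⁻¹ x))
      refine ⟨s, hs1, ?_⟩
      rw [hLev, conj_zpow_ap]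
      refine ⟨_, ?_, rfl⟩
      rw [mem_img, ← zpow_neg, ← zpow_add_ap, add_comm, zpow_add_ap]
      exact hs2
  · intro x hx y hy hxy
    rw [hUmem] at hx hy
    obtain ⟨t, ht, hxt⟩ := hx
    obtain ⟨t', ht', hyt⟩ := hy
    have h1 := hm'mem x t ht hxt
    have h2 := hm'mem y t' ht' hyt
    rw [← hxy] at h2
    have h3 : t = t' := by
      by_contra hne
      exact Set.disjoint_left.mp (P.dis hne ht ht') h1 h2
    rw [← h3] at hyt
    rw [hm' x t ht hxt, hm' y t ht hyt] at hxy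
    exact ap_inj _ (ap_inj _ (ap_inj _ hxy))
  · intro x hx
    rw [hUmem] at hx
    obtain ⟨t, ht, hxt⟩ := hx
    refine ⟨ψ t * P.e 0 * σ ^ (-t), mul_mem (mul_mem (hψ t) (P.he 0)) (zpow_mem hσ _),
      (σ ^ t) '' B, img_clopen _ hB, ?_, ?_⟩
    · rw [mem_img, ← zpow_neg]
      exact hxt
    · rintro y ⟨hy, _⟩
      rw [mem_img, ← zpow_neg] at hy
      rw [hm' y t ht hy]
      rfl
  · obtain ⟨b, hb⟩ := hBn
    refine ⟨(σ ^ ((c.m : ℤ) + 1)) b, ?_⟩
    rintro (h | h)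
    · rw [hUmem] at h
      obtain ⟨t, ht, hbt⟩ := h
      rw [abs_le] at ht
      have h3 : Disjoint ((σ ^ t) '' B) ((σ ^ ((c.m : ℤ) + 1)) '' B) := by
        apply hfree.disj (by omega)
        rw [abs_le]
        push_cast
        constructor <;> omega
      rw [zpow_neg] at hbt
      exact Set.disjoint_left.mp h3 ((mem_img _ _ _).mpr hbt) ⟨b, hb, rfl⟩
    · exact h
  · obtain ⟨x, hx⟩ := P.pos8
    refine ⟨x, ?_⟩
    rintro (⟨y, hy, rfl⟩ | h)
    · rw [hUmem] at hy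
      obtain ⟨t, ht, hyt⟩ := hy
      exact hx t ht (hm'mem y t ht hyt)
    · exact h

/-- Generation, for each of the elements. -/
theorem gen_i (hp : Perf X) [Nonempty X] (hv : Vigorous G) (hs : IsSimpleGroup G)
    (hB : IsClopen B) (hBn : B.Nonempty)
    (henc : ∀ H : Subgroup (X ≃ₜ X), (∀ s, s < c.M → ∀ τ, IsCyc τ (c.D.y s) (c.D.w s) (c.D.Z s) →
      τ ∈ H) → ∀ τ ∈ Tset G c.C', τ ∈ H)
    {N : ℕ} {ψ : ℤ → (X ≃ₜ X)} (hψR : ∀ t, ψ t '' P.R = P.e t '' B)
    (hord : ∀ t, Ordi c.A t → t ≠ 0 → ψ t = P.ps0 t)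
    (hpair : ∀ j, P.PairOK (N + 3) j (ψ (vl c.A j)) (ψ (wl c.A j)))
    {β : X ≃ₜ X} (hβG : β ∈ G) (hβ : ∀ t : ℤ, |t| ≤ c.m → ∀ x ∈ P.R, (β ^ t) x = ψ t x)
    (hdis : ∀ t t' : ℤ, t ≠ t' → |t - t'| ≤ 2 * c.m → Disjoint (Lev β P.R t) (Lev β P.R t'))
    (hret : ∀ x, ∀ t0 : ℤ, ∃ s : ℕ, s ≤ N ∧ (β ^ (-(s : ℤ))) x ∈ Lev β P.R t0)
    {i : ℕ} (hi : i < c.k) {H : Subgroup (X ≃ₜ X)} (hαH : c.α i ∈ H) (hβH : β ∈ H) : G ≤ H := by
  have hA := c.hA
  have ha0 := two_pow_pos i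
  have haA := two_pow_lt hi
  have hAm : c.A ≤ c.m := A_le_m
  have hq := wl_pos hA i
  have hqm := wl_i_le hi
  have hpp := vl_pos hA i
  have hpq := vl_lt_wl (A := c.A) i
  have hLev : ∀ t : ℤ, |t| ≤ c.m → Lev β P.R t = P.e t '' B := by
    intro t ht
    rw [← hψR]
    exact img_congr (hβ t ht)
  have hRcl : IsClopen P.R := img_clopen _ hB
  have hLR : Lev β P.R 0 = P.R := Lev_zero
  set a : ℕ := 2 ^ i with hadef
  have habs : |(-(a : ℤ))| ≤ c.m := by rw [abs_neg, Nat.abs_cast]; omega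
  -- contraction
  have hcon := contraction (α := c.α i) (β := β) (R := P.R) (a := a) (m := c.m) (N := N) hdis hret
    (by omega) (by omega) ?_ ?_ ?_
  · set cc : X ≃ₜ X := c.α i * (β ^ (-(a : ℤ)) * c.α i) ^ (N + 3) with hcc
    have hccH : cc ∈ H := mul_mem hαH (pow_mem (mul_mem (zpow_mem hβH _) hαH) _)
    have hccG : cc ∈ G := mul_mem (c.hα i) (pow_mem (mul_mem (zpow_mem hβG _) (c.hα i)) _)
    have hcR : ∀ x, x ∉ P.R → cc x ∈ P.R := by
      intro x hx
      have h1 := hcon x hx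
      rw [hLev _ habs] at h1
      exact P.J_neg hi h1
    -- the element trivial on `R`
    set ff : X ≃ₜ X := β ^ (-(wl c.A i)) * c.α i * β ^ (vl c.A i) with hff
    have hffH : ff ∈ H := mul_mem (mul_mem (zpow_mem hβH _) hαH) (zpow_mem hβH _)
    have hjk : i / c.k = 0 := Nat.div_eq_of_lt hi
    have himod : i % c.k = i := Nat.mod_eq_of_lt hi
    have hfR : ∀ x ∈ P.R, ff x = x := by
      intro x hx
      have h1 := (hpair i).2.2.2.2.1 hjk x hx
      rw [himod] at h1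
      rw [hff, mul_ap, mul_ap, hβ _ (by rw [abs_of_pos (by omega)]; omega) x hx, h1,
        ← hβ _ (by rw [abs_of_pos (by omega)]; omega) x hx, zpow_neg, inv_ap]
    -- the local element
    set lam : X ≃ₜ X := cc * ff * cc⁻¹ with hlamdef
    have hlamH : lam ∈ H := mul_mem (mul_mem hccH hffH) (inv_mem hccH)
    have hlam : ∀ x, x ∉ P.R → lam x = x := by
      intro x hx
      have h1 : cc⁻¹ x ∈ P.R := by
        by_contra h1
        have h2 := hcR _ h1
        rw [ap_inv] at h2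
        exact hx h2
      rw [hlamdef, mul_ap, mul_ap, hfR _ h1, ap_inv]
    have hoa : ψ (-(a : ℤ)) = P.ps0 (-(a : ℤ)) := hord _ (ordi_small hA (by omega)) (by omega)
    have hop : ψ (vl c.A i - a) = P.ps0 (vl c.A i - a) :=
      hord _ (ord_v (by omega) (by omega)) (by omega)
    have hoq : ψ (-(wl c.A i)) = P.ps0 (-(wl c.A i)) := hord _ (ordi_small hA (by omega)) (by omega)
    have hE : ∀ u ∈ P.EE (N + 3) i, lam u = P.kap (N + 3) i u := by
      have h1 := lam_on_E (α := c.α i) (β := β) (ψa := P.ps0 (-(a : ℤ)))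
        (ψpa := P.ps0 (vl c.A i - a)) (ψq := P.ps0 (-(wl c.A i))) (R := P.R) (a := a)
        (p := vl c.A i) (q := wl c.A i) (L := N + 3) ?_ ?_ ?_ ?_ ?_ ?_
      · exact h1
      · intro x hx
        rw [hβ _ habs x hx, hoa]
      · intro x hx
        rw [hβ _ (by rw [abs_of_pos (by omega)]; omega) x hx, hop]
      · intro x hx
        rw [hβ _ (by rw [abs_neg, abs_of_pos (by omega)]; omega) x hx, hoq]
      · intro x hx
        exact P.J_neg hi (P.ps0_img' _ hx)
      · intro x hx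
        exact P.J_p hi (P.ps0_img' _ hx)
      · intro x hx
        exact P.J_q hi (P.ps0_img' _ hx)
    -- compression
    have hj1 : (c.k + i) / c.k = 1 := by
      rw [Nat.add_div_left _ c.hk, hjk]
    have hj1m : (c.k + i) % c.k = i := by
      rw [Nat.add_mod_left, himod]
    have hKlt : ∀ e, e < 2 * c.M + 2 → e * c.k + i < c.K := by
      intro e he
      show e * c.k + i < c.k * (2 * c.M + 2)
      calc e * c.k + i < e * c.k + c.k := by omega
        _ = c.k * (e + 1) := by ring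
        _ ≤ c.k * (2 * c.M + 2) := Nat.mul_le_mul_left _ (by omega)
    have hbd : ∀ e, e < 2 * c.M + 2 → |vl c.A (e * c.k + i)| ≤ c.m ∧ |wl c.A (e * c.k + i)| ≤ c.m ∧
        0 < vl c.A (e * c.k + i) ∧ 0 < wl c.A (e * c.k + i) := by
      intro e he
      have h1 := vl_le c.hk (hKlt e he)
      have h2 := wl_le c.hk (hKlt e he)
      have h3 := vl_pos hA (e * c.k + i)
      have h4 := wl_pos hA (e * c.k + i)
      have h5 : vl c.A (e * c.k + i) ≤ c.m := h1
      have h6 : wl c.A (e * c.k + i) ≤ c.m := h2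
      refine ⟨?_, ?_, by omega, by omega⟩
      · rw [abs_of_pos (by omega)]; exact h5
      · rw [abs_of_pos (by omega)]; exact h6
    have hbd1 := hbd 1 (by omega)
    rw [one_mul] at hbd1
    have hcomp : ∀ x ∈ P.R, (β ^ (-(wl c.A (c.k + i))) * c.α i * β ^ (vl c.A (c.k + i))) x ∈ c.C' := by
      intro x hx
      obtain ⟨z, hz, hz'⟩ := (hpair (c.k + i)).2.2.2.2.2.1 hj1 x hx
      rw [hj1m] at hz'
      rw [mul_ap, mul_ap, hβ _ hbd1.1 x hx, hz', ← hβ _ hbd1.2.1 z (P.C'_sub hz), zpow_neg, inv_ap]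
      exact hz
    -- three-cycles
    have hthree : ∀ e, 2 ≤ e → e < 2 * c.M + 2 →
        (∀ x ∈ c.Zd (e * c.k + i), ((β ^ (-(wl c.A (e * c.k + i))) * c.α i *
          β ^ (vl c.A (e * c.k + i))) * lam * (β ^ (-(wl c.A (e * c.k + i))) * c.α i *
          β ^ (vl c.A (e * c.k + i)))⁻¹) x = c.yd (e * c.k + i) x) ∧
        ∀ x, x ∉ c.Zd (e * c.k + i) → x ∉ c.yd (e * c.k + i) '' c.Zd (e * c.k + i) →
          x ∉ Lev β P.R (-(wl c.A (e * c.k + i))) →
          ((β ^ (-(wl c.A (e * c.k + i))) * c.α i *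
          β ^ (vl c.A (e * c.k + i))) * lam * (β ^ (-(wl c.A (e * c.k + i))) * c.α i *
          β ^ (vl c.A (e * c.k + i)))⁻¹) x = x := by
      intro e he he'
      have hjd : (e * c.k + i) / c.k = e := by
        rw [Nat.mul_comm, Nat.mul_add_div c.hk, hjk, add_zero]
      have hjm : (e * c.k + i) % c.k = i := by
        rw [Nat.mul_comm, Nat.mul_add_mod, himod]
      have hb := hbd e he'
      obtain ⟨o1, o2⟩ := (hpair (e * c.k + i)).2.2.2.2.2.2 (by rw [hjd]; exact he)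
      rw [hjm] at o1 o2
      have hV := (P.pos5 (e * c.k + i) (by rw [hjd]; exact he)).1
      apply conj_local hlam hE
      · intro x hx
        obtain ⟨u, hu, hu1, hu2⟩ := o1 x hx
        refine ⟨u, hu, ?_, ?_⟩
        · rw [hβ _ hb.1 u (P.EE_sub _ hi hu), hu1,
            hβ _ hb.2.1 x (P.C'_sub (c.Zd_sub _ hx)), o2 x (Or.inl hx)]
        · rw [hβ _ hb.1 _ (P.kap_sub _ hi hu).1, hu2,
            hβ _ hb.2.1 _ (P.C'_sub (c.yd_sub _ ⟨x, hx, rfl⟩)), o2 _ (Or.inr ⟨x, hx, rfl⟩)]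
      · intro x hx
        rw [hβ _ hb.1 x hx]
        have h1 : ψ (vl c.A (e * c.k + i)) x ∈ P.e (vl c.A (e * c.k + i)) '' B := by
          rw [← hψR]
          exact ⟨x, hx, rfl⟩
        by_cases hxV : ψ (vl c.A (e * c.k + i)) x ∈ P.V (e * c.k + i)
        · right
          rw [hV] at hxV
          obtain ⟨z, hz, hz'⟩ := hxV
          refine ⟨z, hz, ?_⟩
          have hzR : z ∈ P.R := by
            rcases hz with hz | hz
            · exact P.C'_sub (c.Zd_sub _ hz)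
            · exact P.C'_sub (c.yd_sub _ hz)
          rw [← hz', hβ _ hb.2.1 z hzR, o2 z hz]
        · left
          have h2 := P.S2' _ _ h1 hxV
          rwa [hjm] at h2
    refine final_gen hp hv hs hRcl henc hccH hccG hcR ?_ (h := β ^ (-(wl c.A (c.k + i))) * c.α i *
      β ^ (vl c.A (c.k + i))) (mul_mem (mul_mem (zpow_mem hβH _) hαH) (zpow_mem hβH _))
      (mul_mem (mul_mem (zpow_mem hβG _) (c.hα i)) (zpow_mem hβG _)) hcomp ?_
    · -- overlap
      obtain ⟨b, hb⟩ := hBn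
      have h1 : P.e (a : ℤ) b ∈ P.e (a : ℤ) '' B := ⟨b, hb, rfl⟩
      have h2 : c.α i (P.e (a : ℤ) b) ∈ P.R := P.J_block hi le_rfl (by omega) h1
      refine ⟨cc⁻¹ (c.α i (P.e (a : ℤ) b)), ?_, by rw [ap_inv]; exact h2⟩
      by_contra h3
      have h4 := hcon _ h3
      have h5 : cc (cc⁻¹ (c.α i (P.e (a : ℤ) b))) = c.α i (P.e (a : ℤ) b) := ap_inv _ _
      rw [hcc, mul_ap] at h5
      have h6 := ap_inj _ h5
      rw [hcc] at h4
      rw [h6, hLev _ habs] at h4
      exact Set.disjoint_left.mp (P.dis (s := (a : ℤ)) (t := -(a : ℤ)) (by omega)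
        (by rw [Nat.abs_cast]; omega) habs) h1 h4
    · intro s hsM
      have h1 := hthree (2 * s + 2) (by omega) (by omega)
      have h2 := hthree (2 * s + 3) (by omega) (by omega)
      have e1 : ((2 * s + 2) * c.k + i) / c.k = 2 * s + 2 := by
        rw [Nat.mul_comm, Nat.mul_add_div c.hk, hjk, add_zero]
      have e2 : ((2 * s + 3) * c.k + i) / c.k = 2 * s + 3 := by
        rw [Nat.mul_comm, Nat.mul_add_div c.hk, hjk, add_zero]
      have z1 : c.Zd ((2 * s + 2) * c.k + i) = c.D.Z s := by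
        unfold Ctx.Zd
        rw [e1]
        congr 1
        omega
      have z2 : c.Zd ((2 * s + 3) * c.k + i) = c.D.Z s := by
        unfold Ctx.Zd
        rw [e2]
        congr 1
        omega
      have y1 : c.yd ((2 * s + 2) * c.k + i) = c.D.y s := by
        unfold Ctx.yd
        rw [e1, if_pos (by omega)]
        congr 1
        omega
      have y2 : c.yd ((2 * s + 3) * c.k + i) = c.D.w s := by
        unfold Ctx.yd
        rw [e2, if_neg (by omega)]
        congr 1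
        omega
      rw [z1, y1] at h1
      rw [z2, y2] at h2
      have b1 := hbd (2 * s + 2) (by omega)
      have b2 := hbd (2 * s + 3) (by omega)
      have hww : wl c.A ((2 * s + 2) * c.k + i) ≠ wl c.A ((2 * s + 3) * c.k + i) := by
        intro h
        have h3 := wl_inj hA h
        rw [h3] at e1
        omega
      have r1 : ∀ x, x ∈ c.C' → ∀ w : ℤ, 0 < w → |w| ≤ c.m → x ∉ Lev β P.R (-w) := by
        intro x hx w hw hwm h
        rw [abs_le] at hwm
        have h3 := hdis (-w) 0 (by omega) (by rw [sub_zero, abs_neg, abs_of_pos hw]; omega)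
        rw [hLR] at h3
        exact Set.disjoint_left.mp h3 h (P.C'_sub hx)
      refine ⟨_, ?_, _, ?_, h1.1, h2.1, ?_⟩
      · exact mul_mem (mul_mem (mul_mem (mul_mem (zpow_mem hβH _) hαH) (zpow_mem hβH _)) hlamH)
          (inv_mem (mul_mem (mul_mem (zpow_mem hβH _) hαH) (zpow_mem hβH _)))
      · exact mul_mem (mul_mem (mul_mem (mul_mem (zpow_mem hβH _) hαH) (zpow_mem hβH _)) hlamH)
          (inv_mem (mul_mem (mul_mem (zpow_mem hβH _) hαH) (zpow_mem hβH _)))
      · intro x hx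
        by_cases hx1 : x ∈ c.D.y s '' c.D.Z s
        · right
          apply h2.2 x hx
          · exact fun h => Set.disjoint_left.mp (c.D.hd s).2.2 hx1 h
          · exact r1 x (c.D.hyC s hx1) _ b2.2.2.2 b2.2.1
        · by_cases hx2 : x ∈ Lev β P.R (-(wl c.A ((2 * s + 2) * c.k + i)))
          · right
            apply h2.2 x hx
            · exact fun h => r1 x (c.D.hwC s h) _ b1.2.2.2 b1.2.1 hx2
            · have b11 := b1.2.1
              have b21 := b2.2.1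
              rw [abs_le] at b11 b21
              have h3 := hdis (-(wl c.A ((2 * s + 2) * c.k + i)))
                (-(wl c.A ((2 * s + 3) * c.k + i))) (by omega)
                (by rw [abs_le]; constructor <;> omega)
              exact Set.disjoint_left.mp h3 hx2
          · left
            exact h1.2 x hx hx1 hx2
  · intro x hx
    rw [hLev _ habs] at hx
    exact P.J_neg hi hx
  · intro t ht1 ht2 x hx
    rw [hLev _ (by rw [abs_of_pos (by omega)]; omega)] at hx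
    exact P.J_block hi ht1 ht2 hx
  · intro x hx
    rcases P.S1 hi (a := (a : ℤ)) (by omega) (by omega) hx with h | h | ⟨t, h1, h2, h3, h4, h5⟩
    · exact Or.inl h
    · exact Or.inr (Or.inl h)
    · refine Or.inr (Or.inr ⟨t, h1, h2, ?_, ?_⟩)
      · rw [hLev t h2]
        exact h4
      · intro z hz
        rw [hLev _ h3] at hz
        exact h5 z hz

end Pos

end Pool.Agent.Lib.Pe4017d
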