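import Pool.Agent.Lib.Pe4017d.Pos

set_option autoImplicit false
set_option linter.unusedSectionVars false

/-!
Consequences of the positions of the levels.
-/

namespace Pool.Agent.Lib.Pe4017d

open Set

variable {X : Type*} [TopologicalSpace X] [CompactSpace X] [T2Space X] [TotallyDisconnectedSpace X]

namespace Pos

variable {G : Subgroup (X ≃ₜ X)} {c : Ctx G} {B : Set X} (P : Pos c B)

theorem jk (j : ℕ) : j % c.k < c.k := Nat.mod_lt _ c.hk

theorem cell_pt {s t : ℤ} {x : X} (hs : x ∈ P.cell s) (ht : x ∈ P.cell t) : s = t := by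
  by_contra h
  exact Set.disjoint_left.mp (P.cell_disj s t h) hs ht

theorem lab_v (j : ℕ) : lab c.k (vl c.A j) = j % c.k := by
  have := lab_vl_sub (k := c.k) c.hk j (a := 0) le_rfl (by positivity)
  rwa [sub_zero] at this

theorem lab_w (j : ℕ) : lab c.k (wl c.A j) = j % c.k := by
  have := lab_wl_sub (k := c.k) c.hk j (a := 0) le_rfl (by positivity)
  rwa [sub_zero] at this

theorem v_ne (j : ℕ) : vl c.A j ≠ 0 := by
  have := vl_pos c.hA j
  omega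

theorem w_ne (j : ℕ) : wl c.A j ≠ 0 := by
  have := wl_pos c.hA j
  omega

theorem cell_v (j : ℕ) {x : X} (hx : x ∈ P.e (vl c.A j) '' B) : x ∈ P.cell (vl c.A j) :=
  P.pos1 _ (v_ne j) (fun i => vl_ne_wl c.hA j i) hx

theorem cell_v_Y (j : ℕ) {x : X} (hx : x ∈ P.cell (vl c.A j)) : x ∈ c.Y (j % c.k) := by
  have := P.cell_sub _ hx
  rwa [lab_v] at this

theorem cls {t : ℤ} (ht : t ≠ 0) {x : X} (hx : x ∈ P.e t '' B) : x ∈ P.cell t ∨
    ∃ j, t = wl c.A j ∧ ∃ z ∈ P.V j, x = c.α (j % c.k) z := by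
  by_cases h : ∀ j, t ≠ wl c.A j
  · exact Or.inl (P.pos1 t ht h hx)
  · push Not at h
    obtain ⟨j, rfl⟩ := h
    rcases (P.pos2 j).2.2 hx with ⟨z, hz, rfl⟩ | h
    · exact Or.inr ⟨j, rfl, z, hz, rfl⟩
    · exact Or.inl h

theorem V_cell {j : ℕ} {z : X} (hz : z ∈ P.V j) : z ∈ P.cell (vl c.A j) :=
  P.cell_v j ((P.pos2 j).1 hz)

theorem V_Y {j : ℕ} {z : X} (hz : z ∈ P.V j) : z ∈ c.Y (j % c.k) := P.cell_v_Y j (P.V_cell hz)

theorem dis {s t : ℤ} (hst : s ≠ t) (hs : |s| ≤ c.m) (ht : |t| ≤ c.m) :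
    Disjoint (P.e s '' B) (P.e t '' B) := by
  by_cases hs0 : s = 0
  · rw [hs0] at hst ⊢
    exact (P.pos7 t hst.symm ht).symm
  · by_cases ht0 : t = 0
    · rw [ht0]
      exact P.pos7 s hs0 hs
    · rw [Set.disjoint_left]
      intro x hx hx'
      rcases P.cls hs0 hx with h | ⟨j, hj, z, hz, rfl⟩
      · rcases P.cls ht0 hx' with h' | ⟨j, hj, z, hz, rfl⟩
        · exact hst (P.cell_pt h h')
        · exact c.not_Y (jk j) (lab_lt c.hk _) (P.V_Y hz) (P.cell_sub _ h)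
      · rcases P.cls ht0 hx' with h' | ⟨j', hj', z', hz', hzz⟩
        · exact c.not_Y (jk j) (lab_lt c.hk _) (P.V_Y hz) (P.cell_sub _ h')
        · obtain ⟨_, h2, _⟩ := c.key _ _ (c.BB_α (jk j)) (c.BB_α (jk j')) _ (jk j) _ (jk j') z
            (P.V_Y hz) z' (P.V_Y hz') hzz
          rw [← h2] at hz'
          have h3 := P.cell_pt (P.V_cell hz) (P.V_cell hz')
          have h4 := vl_inj c.hA h3
          rw [h4] at hj
          exact hst (hj.trans hj'.symm)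

/-- The basic claim on points of the cells. -/
theorem S0 {i : ℕ} (hi : i < c.k) {t : ℤ} {x : X} (hx : x ∈ P.cell t)
    (hmove : ∀ z ∈ c.Y (lab c.k t), c.α i z ≠ z) (hR : c.α i x ∉ P.e 0 '' B) :
    ∃ j, j % c.k = lab c.k t ∧ wl c.A j ≤ c.m ∧ x ∈ P.V j ∧ c.α i x = c.α (j % c.k) x := by
  have hlt := lab_lt c.hk t
  have hY := P.cell_sub _ hx
  have hcell : ∀ s, c.α i x ∉ P.cell s := by
    intro s hs
    obtain ⟨h1, h2, h3⟩ := c.key _ _ (c.BB_α hi) c.BB_one _ hlt _ (lab_lt c.hk s) x hY _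
      (P.cell_sub _ hs) (one_ap _).symm
    exact hmove x hY h2.symm
  rcases P.pos6 _ hR with ⟨s, hs0, hsm, hs⟩ | h
  · rcases P.cls hs0 hs with h | ⟨j, hj, z, hz, hxz⟩
    · exact absurd h (hcell s)
    · obtain ⟨h1, h2, h3⟩ := c.key _ _ (c.BB_α hi) (c.BB_α (jk j)) _ hlt _ (jk j) x hY z
        (P.V_Y hz) hxz
      refine ⟨j, h1.symm, ?_, ?_, h3 x hY⟩
      · rw [abs_le] at hsm
        rw [← hj]
        exact hsm.2
      · rw [h2]; exact hz
  · exact absurd h (hcell 0)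

/-- Ordinary levels are moved into `R` by an element which is not trivial there. -/
theorem S2 {i : ℕ} (hi : i < c.k) {t : ℤ} (ht0 : t ≠ 0) (hto : Ordi c.A t)
    (hmove : ∀ z ∈ c.Y (lab c.k t), c.α i z ≠ z) : ∀ x ∈ P.e t '' B, c.α i x ∈ P.e 0 '' B := by
  intro x hx
  by_contra hcon
  have hx' := P.pos1 t ht0 (fun j => (hto j).2) hx
  obtain ⟨j, _, _, h3, _⟩ := P.S0 hi hx' hmove hcon
  exact (hto j).1 (P.cell_pt hx' (P.V_cell h3))

/-- Points of the first level of a pair outside of the exceptional set. -/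
theorem S2' (j : ℕ) : ∀ x ∈ P.e (vl c.A j) '' B, x ∉ P.V j →
    c.α (j % c.k) x ∈ P.e 0 '' B := by
  intro x hx hxV
  by_contra hcon
  have hx' := P.cell_v j hx
  obtain ⟨j', _, _, h3, _⟩ := P.S0 (jk j) hx' (by rw [lab_v]; exact c.move _ (jk j)) hcon
  have h4 := vl_inj c.hA (P.cell_pt hx' (P.V_cell h3))
  rw [h4] at hxV
  exact hxV h3

theorem ord_v {j : ℕ} {a : ℤ} (h1 : 0 < a) (h2 : a < c.A) : Ordi c.A (vl c.A j - a) :=
  ordi_vl_sub c.hA h1 h2 j

theorem ord_w {j : ℕ} {a : ℤ} (h1 : 0 < a) (h2 : a < c.A) : Ordi c.A (wl c.A j - a) :=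
  ordi_wl_sub c.hA h1 h2 j

theorem A_cast : ((c.A : ℕ) : ℤ) = 2 ^ c.k := by
  show ((2 ^ c.k : ℕ) : ℤ) = _
  push_cast
  rfl

theorem lab_v_sub (j : ℕ) {a : ℤ} (h1 : 0 ≤ a) (h2 : a < c.A) :
    lab c.k (vl c.A j - a) = j % c.k :=
  lab_vl_sub c.hk j h1 (by rwa [A_cast] at h2)

theorem lab_w_sub (j : ℕ) {a : ℤ} (h1 : 0 ≤ a) (h2 : a < c.A) :
    lab c.k (wl c.A j - a) = j % c.k :=
  lab_wl_sub c.hk j h1 (by rwa [A_cast] at h2)

/-- The behaviour of points outside of `R`. -/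
theorem S1 {i : ℕ} (hi : i < c.k) {a : ℤ} (ha : 0 < a) (haA : a < c.A) {x : X}
    (hx : x ∉ P.e 0 '' B) : c.α i x = x ∨ c.α i x ∈ P.e 0 '' B ∨
      ∃ t : ℤ, t ≠ a ∧ |t| ≤ c.m ∧ |t - a| ≤ c.m ∧ c.α i x ∈ P.e t '' B ∧
        ∀ z ∈ P.e (t - a) '' B, c.α i z ∈ P.e 0 '' B := by
  have hA := c.hA
  by_cases hR : c.α i x ∈ P.e 0 '' B
  · exact Or.inr (Or.inl hR)
  -- two cases
  have hcase : (∃ t, x ∈ P.cell t) ∨ ∃ j, wl c.A j ≤ c.m ∧ ∃ z ∈ P.V j, x = c.α (j % c.k) z := by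
    rcases P.pos6 x hx with ⟨t, ht0, htm, ht⟩ | h
    · rcases P.cls ht0 ht with h | ⟨j, hj, z, hz, hxz⟩
      · exact Or.inl ⟨t, h⟩
      · refine Or.inr ⟨j, ?_, z, hz, hxz⟩
        rw [abs_le] at htm
        rw [← hj]
        exact htm.2
    · exact Or.inl ⟨0, h⟩
  rcases hcase with ⟨t, ht⟩ | ⟨j, hjm, z, hz, rfl⟩
  · -- `x` in a cell
    by_cases hmove : ∀ z ∈ c.Y (lab c.k t), c.α i z ≠ z
    · obtain ⟨j, h1, h2, h3, h4⟩ := P.S0 hi ht hmove hR
      right; right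
      have hvw := vl_lt_wl (A := c.A) j
      have hvp := vl_pos hA j
      refine ⟨wl c.A j, by omega, by rw [abs_le]; constructor <;> omega,
        by rw [abs_le]; constructor <;> omega, ?_, ?_⟩
      · rw [h4]
        exact (P.pos2 j).2.1 ⟨x, h3, rfl⟩
      · apply P.S2 hi (by omega) (ord_w ha haA)
        rw [lab_w_sub j ha.le haA, h1]
        exact hmove
    · left
      push Not at hmove
      obtain ⟨z, hz, hz'⟩ := hmove
      obtain ⟨_, _, h3⟩ := c.key _ _ (c.BB_α hi) c.BB_one _ (lab_lt c.hk t) _ (lab_lt c.hk t) z hz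
        z hz hz'
      exact h3 x (P.cell_sub _ ht)
  · -- `x = α_j z`
    have hzY := P.V_Y hz
    have hcell : ∀ s, c.α i (c.α (j % c.k) z) ∈ P.cell s → lab c.k s = j % c.k ∧
        c.α i (c.α (j % c.k) z) = z := by
      intro s hs
      obtain ⟨h1, h2, _⟩ := c.key _ _ (c.BB_αα hi (jk j)) c.BB_one _ (jk j) _ (lab_lt c.hk s) z hzY
        _ (P.cell_sub _ hs) (one_ap _).symm
      exact ⟨h1.symm, h2.symm⟩
    have hzcase : c.α i (c.α (j % c.k) z) = z → ∃ t : ℤ, t ≠ a ∧ |t| ≤ c.m ∧ |t - a| ≤ c.m ∧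
        c.α i (c.α (j % c.k) z) ∈ P.e t '' B ∧
        ∀ z ∈ P.e (t - a) '' B, c.α i z ∈ P.e 0 '' B := by
      intro hzz
      have hvw := vl_lt_wl (A := c.A) j
      have hvp := vl_pos hA j
      refine ⟨vl c.A j, by omega, by rw [abs_le]; constructor <;> omega,
        by rw [abs_le]; constructor <;> omega, ?_, ?_⟩
      · rw [hzz]
        exact (P.pos2 j).1 hz
      · apply P.S2 hi (by omega) (ord_v ha haA)
        rw [lab_v_sub j ha.le haA]
        intro u hu hu'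
        obtain ⟨_, _, h3⟩ := c.key _ _ (c.BB_α hi) c.BB_one _ (jk j) _ (jk j) u hu u hu hu'
        have h4 : c.α i z = z := h3 z hzY
        have h5 := ap_inj _ (hzz.trans h4.symm)
        exact c.move _ (jk j) z hzY h5
    rcases P.pos6 _ hR with ⟨s, hs0, hsm, hs⟩ | h
    · rcases P.cls hs0 hs with h | ⟨j', hj', z', hz', hzz'⟩
      · exact Or.inr (Or.inr (hzcase (hcell s h).2))
      · left
        obtain ⟨h1, h2, _⟩ := c.key _ _ (c.BB_αα hi (jk j)) (c.BB_α (jk j')) _ (jk j) _ (jk j') z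
          hzY z' (P.V_Y hz') hzz'
        rw [hzz', ← h1, ← h2]
    · exact Or.inr (Or.inr (hzcase (hcell 0 h).2))

end Pos

end Pool.Agent.Lib.Pe4017d
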