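import Pool.Agent.Lib.Pe4017d.Ext

set_option autoImplicit false
set_option linter.unusedSectionVars false

/-!
Three-cycles of clopen sets, and generation of simple vigorous groups by them.
-/

namespace Pool.Agent.Lib.Pe4017d

open Set

variable {X : Type*} [TopologicalSpace X] [CompactSpace X] [T2Space X] [TotallyDisconnectedSpace X]

/-- `U`, `a U`, `b U` are pairwise disjoint. -/
def Dis3 (a b : X ≃ₜ X) (U : Set X) : Prop :=
  Disjoint U (a '' U) ∧ Disjoint U (b '' U) ∧ Disjoint (a '' U) (b '' U)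

/-- `τ` is the three-cycle `U → a U → b U → U`. -/
def IsCyc (τ a b : X ≃ₜ X) (U : Set X) : Prop :=
  (∀ x ∈ U, τ x = a x) ∧ (∀ x ∈ U, τ (a x) = b x) ∧ (∀ x ∈ U, τ (b x) = x) ∧
    ∀ x, x ∉ U → x ∉ a '' U → x ∉ b '' U → τ x = x

theorem Dis3.mono {a b : X ≃ₜ X} {U V : Set X} (h : Dis3 a b U) (hVU : V ⊆ U) : Dis3 a b V :=
  ⟨h.1.mono hVU (Set.image_mono hVU), h.2.1.mono hVU (Set.image_mono hVU),
    h.2.2.mono (Set.image_mono hVU) (Set.image_mono hVU)⟩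

theorem IsCyc.unique {τ τ' a b : X ≃ₜ X} {U : Set X} (h : IsCyc τ a b U) (h' : IsCyc τ' a b U) :
    τ = τ' := by
  apply ext_homeo
  intro x
  by_cases h1 : x ∈ U
  · rw [h.1 x h1, h'.1 x h1]
  · by_cases h2 : x ∈ a '' U
    · obtain ⟨y, hy, rfl⟩ := h2
      rw [h.2.1 y hy, h'.2.1 y hy]
    · by_cases h3 : x ∈ b '' U
      · obtain ⟨y, hy, rfl⟩ := h3
        rw [h.2.2.1 y hy, h'.2.2.1 y hy]
      · rw [h.2.2.2 x h1 h2 h3, h'.2.2.2 x h1 h2 h3]

theorem IsCyc.congr {τ a b a' b' : X ≃ₜ X} {U : Set X} (h : IsCyc τ a b U)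
    (ha : ∀ x ∈ U, a x = a' x) (hb : ∀ x ∈ U, b x = b' x) : IsCyc τ a' b' U := by
  have h1 : a '' U = a' '' U := img_congr ha
  have h2 : b '' U = b' '' U := img_congr hb
  refine ⟨?_, ?_, ?_, ?_⟩
  · intro x hx
    rw [h.1 x hx, ha x hx]
  · intro x hx
    rw [← ha x hx, h.2.1 x hx, hb x hx]
  · intro x hx
    rw [← hb x hx, h.2.2.1 x hx]
  · intro x hx hx1 hx2
    rw [← h1] at hx1
    rw [← h2] at hx2
    exact h.2.2.2 x hx hx1 hx2

theorem IsCyc.conj {τ a b : X ≃ₜ X} {U : Set X} (h : IsCyc τ a b U) (k : X ≃ₜ X) :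
    IsCyc (k * τ * k⁻¹) (k * a * k⁻¹) (k * b * k⁻¹) (k '' U) := by
  refine ⟨?_, ?_, ?_, ?_⟩
  · rintro _ ⟨x, hx, rfl⟩
    rw [mul_ap, mul_ap, mul_ap, mul_ap, inv_ap, h.1 x hx]
  · rintro _ ⟨x, hx, rfl⟩
    rw [mul_ap, mul_ap, mul_ap, mul_ap, mul_ap, mul_ap, inv_ap, inv_ap, h.2.1 x hx]
  · rintro _ ⟨x, hx, rfl⟩
    rw [mul_ap, mul_ap, mul_ap, mul_ap, inv_ap, inv_ap, h.2.2.1 x hx]
  · intro x h1 h2 h3
    rw [mem_img] at h1
    have h2' : k⁻¹ x ∉ a '' U := by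
      rintro ⟨y, hy, hy'⟩
      apply h2
      refine ⟨k y, ⟨y, hy, rfl⟩, ?_⟩
      rw [mul_ap, mul_ap, inv_ap, hy', ap_inv]
    have h3' : k⁻¹ x ∉ b '' U := by
      rintro ⟨y, hy, hy'⟩
      apply h3
      refine ⟨k y, ⟨y, hy, rfl⟩, ?_⟩
      rw [mul_ap, mul_ap, inv_ap, hy', ap_inv]
    rw [mul_ap, mul_ap, h.2.2.2 _ h1 h2' h3', ap_inv]

theorem Dis3.conj {a b : X ≃ₜ X} {U : Set X} (h : Dis3 a b U) (k : X ≃ₜ X) :
    Dis3 (k * a * k⁻¹) (k * b * k⁻¹) (k '' U) := by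
  have h1 : ∀ a : X ≃ₜ X, (k * a * k⁻¹) '' (k '' U) = k '' (a '' U) := by
    intro a
    rw [← img_mul, inv_mul_cancel_right, img_mul]
  unfold Dis3
  rw [h1, h1]
  exact ⟨img_disj k h.1, img_disj k h.2.1, img_disj k h.2.2⟩

/-- The commutator lemma. -/
theorem comm_cyc {a b : X ≃ₜ X} {U : Set X} (h : ∀ x, x ∉ U → a x = x ∨ b x = x)
    (ha : Disjoint U (a '' U)) (hb : Disjoint U (b '' U)) :
    Dis3 a b U ∧ IsCyc (a * b * a⁻¹ * b⁻¹) a b U := by
  have ha' : ∀ x ∈ U, a x ∉ U := fun x hx h' => Set.disjoint_left.mp ha h' ⟨x, hx, rfl⟩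
  have hb' : ∀ x ∈ U, b x ∉ U := fun x hx h' => Set.disjoint_left.mp hb h' ⟨x, hx, rfl⟩
  -- points of `a U` are fixed by `b`, points of `b U` are fixed by `a`
  have hab : ∀ x ∈ U, b (a x) = a x := by
    intro x hx
    rcases h (a x) (ha' x hx) with h1 | h1
    · have := ap_inj a h1
      exact absurd (by rw [this]; exact hx) (ha' x hx)
    · exact h1
  have hba : ∀ x ∈ U, a (b x) = b x := by
    intro x hx
    rcases h (b x) (hb' x hx) with h1 | h1
    · exact h1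
    · have := ap_inj b h1
      exact absurd (by rw [this]; exact hx) (hb' x hx)
  -- preimages
  have hia : ∀ x ∈ U, a⁻¹ x ∉ U := by
    intro x hx h1
    have := ha' _ h1
    rw [ap_inv] at this
    exact this hx
  have hib : ∀ x ∈ U, b⁻¹ x ∉ U := by
    intro x hx h1
    have := hb' _ h1
    rw [ap_inv] at this
    exact this hx
  have hab' : ∀ x ∈ U, b (a⁻¹ x) = a⁻¹ x := by
    intro x hx
    rcases h (a⁻¹ x) (hia x hx) with h1 | h1
    · rw [ap_inv] at h1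
      exact absurd (h1 ▸ hx) (hia x hx)
    · exact h1
  have hba' : ∀ x ∈ U, a (b⁻¹ x) = b⁻¹ x := by
    intro x hx
    rcases h (b⁻¹ x) (hib x hx) with h1 | h1
    · exact h1
    · rw [ap_inv] at h1
      exact absurd (h1 ▸ hx) (hib x hx)
  refine ⟨⟨ha, hb, ?_⟩, ?_, ?_, ?_, ?_⟩
  · rw [Set.disjoint_left]
    rintro _ ⟨x, hx, rfl⟩ ⟨y, hy, hy'⟩
    have h1 := hab x hx
    rw [← hy'] at h1
    have h2 := ap_inj b h1
    exact hb' y hy (by rw [h2]; exact hy)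
  · intro x hx
    rw [mul_ap, mul_ap, mul_ap]
    rw [inv_eq a (hba' x hx), ap_inv]
  · intro x hx
    rw [mul_ap, mul_ap, mul_ap, inv_eq b (hab x hx), inv_ap, hba x hx]
  · intro x hx
    rw [mul_ap, mul_ap, mul_ap, inv_ap, hab' x hx, ap_inv]
  · intro x h1 h2 h3
    rw [mul_ap, mul_ap, mul_ap]
    by_cases hbx : b x = x
    · rw [inv_eq b hbx]
      by_cases hax : a x = x
      · rw [inv_eq a hax, hbx, hax]
      · have h4 : a⁻¹ x ∉ U := fun h4 => h2 ⟨_, h4, ap_inv a x⟩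
        have h5 : b (a⁻¹ x) = a⁻¹ x := by
          rcases h _ h4 with h5 | h5
          · rw [ap_inv] at h5
            exact absurd (eq_inv a h5.symm) hax
          · exact h5
        rw [h5, ap_inv]
    · have hax : a x = x := (h x h1).resolve_right hbx
      have h4 : b⁻¹ x ∉ U := fun h4 => h3 ⟨_, h4, ap_inv b x⟩
      have h5 : a (b⁻¹ x) = b⁻¹ x := by
        rcases h _ h4 with h5 | h5
        · exact h5
        · rw [ap_inv] at h5
          exact absurd (eq_inv b h5.symm) hbx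
      rw [inv_eq a h5, ap_inv, hax]

theorem locG_const {G : Subgroup (X ≃ₜ X)} {g : X ≃ₜ X} (hg : g ∈ G) (U : Set X) :
    LocG G g U := fun _ _ => ⟨g, hg, univ, isClopen_univ, mem_univ _, fun _ _ => rfl⟩

/-- Three-cycles with room belong to `G`. -/
theorem cyc_mem_room (hp : Perf X) [Nonempty X] {G : Subgroup (X ≃ₜ X)} (hv : Vigorous G)
    (hs : IsSimpleGroup G) {a b : X ≃ₜ X} (ha : a ∈ G) (hb : b ∈ G) {U : Set X} (hU : IsClopen U)
    (hd : Dis3 a b U) (hroom : ((U ∪ a '' U ∪ b '' U)ᶜ).Nonempty) :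
    ∃ τ ∈ G, IsCyc τ a b U := by
  have hZ : IsClopen (U ∪ a '' U ∪ b '' U)ᶜ := ((hU.union (img_clopen a hU)).union
    (img_clopen b hU)).compl
  obtain ⟨E, F, hE, hF, hEn, hFn, hEF, hEFu⟩ := split hp hZ hroom
  have hE' : ∀ z ∈ E, z ∉ U ∧ z ∉ a '' U ∧ z ∉ b '' U := by
    intro z hz
    have h1 : z ∈ (U ∪ a '' U ∪ b '' U)ᶜ := by rw [← hEFu]; exact Or.inl hz
    exact ⟨fun h => h1 (Or.inl (Or.inl h)), fun h => h1 (Or.inl (Or.inr h)),
      fun h => h1 (Or.inr h)⟩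
  have hF' : ∀ z ∈ F, z ∉ U ∧ z ∉ a '' U ∧ z ∉ b '' U := by
    intro z hz
    have h1 : z ∈ (U ∪ a '' U ∪ b '' U)ᶜ := by rw [← hEFu]; exact Or.inr hz
    exact ⟨fun h => h1 (Or.inl (Or.inl h)), fun h => h1 (Or.inl (Or.inr h)),
      fun h => h1 (Or.inr h)⟩
  have key : ∀ (c : X ≃ₜ X) (hc : c ∈ G) (D : Set X) (hD : IsClopen D) (hDn : D.Nonempty)
      (hDU : ∀ z ∈ D, z ∉ U ∧ z ∉ c '' U), ∃ h ∈ G, (∀ x ∈ U, h x = c x) ∧
        ∀ x ∈ (U ∪ c '' U ∪ D)ᶜ, h x = x := by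
    intro c hc D hD hDn hDU
    apply ext_room hp hv hs ((hU.union (img_clopen c hU)).union hD).compl hU
    · exact Set.disjoint_left.mpr fun x hx h => h (Or.inl (Or.inl hx))
    · exact Set.disjoint_left.mpr fun x hx h => h (Or.inl (Or.inr hx))
    · exact c.injective.injOn
    · exact locG_const hc U
    · obtain ⟨z, hz⟩ := hDn
      refine ⟨z, ?_⟩
      rintro ((h | h) | h)
      · exact (hDU z hz).1 h
      · exact (hDU z hz).2 h
      · exact h (Or.inr hz)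
  obtain ⟨a', ha', a1, a2⟩ := key a ha E hE hEn (fun z hz => ⟨(hE' z hz).1, (hE' z hz).2.1⟩)
  obtain ⟨b', hb', b1, b2⟩ := key b hb F hF hFn (fun z hz => ⟨(hF' z hz).1, (hF' z hz).2.2⟩)
  have h1 := comm_cyc (a := a') (b := b') (U := U) ?_ ?_ ?_
  · exact ⟨a' * b' * a'⁻¹ * b'⁻¹, mul_mem (mul_mem (mul_mem ha' hb') (inv_mem ha')) (inv_mem hb'),
      h1.2.congr a1 b1⟩
  · intro x hx
    by_cases h2 : x ∈ a '' U ∪ E
    · right
      apply b2
      rintro ((h | h) | h)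
      · exact hx h
      · rcases h2 with h2 | h2
        · exact Set.disjoint_left.mp hd.2.2 h2 h
        · exact (hE' x h2).2.2 h
      · rcases h2 with h2 | h2
        · exact (hF' x h).2.1 h2
        · exact Set.disjoint_left.mp hEF h2 h
    · left
      apply a2
      rintro ((h | h) | h)
      · exact hx h
      · exact h2 (Or.inl h)
      · exact h2 (Or.inr h)
  · rw [show a' '' U = a '' U from img_congr a1]
    exact hd.1
  · rw [show b' '' U = b '' U from img_congr b1]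
    exact hd.2.1

/-- To show that a three-cycle belongs to a subgroup it is enough to do this locally. -/
theorem cyc_local {H : Subgroup (X ≃ₜ X)} {a b : X ≃ₜ X} {U : Set X}
    (hU : IsClopen U) (hd : Dis3 a b U)
    (hloc : ∀ x ∈ U, ∃ V : Set X, IsClopen V ∧ x ∈ V ∧ ∀ W, IsClopen W → W ⊆ V → W ⊆ U →
      ∃ τ ∈ H, IsCyc τ a b W) : ∃ τ ∈ H, IsCyc τ a b U := by
  have key : (fun W : Set X => W ⊆ U → ∃ τ ∈ H, IsCyc τ a b W) U := by
    apply clopen_ind (fun W : Set X => W ⊆ U → ∃ τ ∈ H, IsCyc τ a b W) ?_ ?_ hU ?_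
    · intro _
      refine ⟨1, one_mem _, ?_, ?_, ?_, ?_⟩
      · intro x hx; exact absurd hx (Set.notMem_empty x)
      · intro x hx; exact absurd hx (Set.notMem_empty x)
      · intro x hx; exact absurd hx (Set.notMem_empty x)
      · intro x _ _ _; rfl
    · intro V W _ _ hVW hV hW hVWU
      obtain ⟨τ, hτ, t1, t2, t3, t4⟩ := hV (Set.subset_union_left.trans hVWU)
      obtain ⟨ω, hω, w1, w2, w3, w4⟩ := hW (Set.subset_union_right.trans hVWU)
      have hdV := hd.mono (Set.subset_union_left.trans hVWU)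
      have hdW := hd.mono (Set.subset_union_right.trans hVWU)
      have hdVW := hd.mono hVWU
      -- disjointness facts
      have d1 : ∀ x ∈ V, x ∉ W := fun x h h' => Set.disjoint_left.mp hVW h h'
      have d2 : ∀ x ∈ V ∪ W, ∀ y ∈ V ∪ W, a x ≠ y := by
        intro x hx y hy h
        exact Set.disjoint_left.mp hdVW.1 hy ⟨x, hx, h⟩
      have d3 : ∀ x ∈ V ∪ W, ∀ y ∈ V ∪ W, b x ≠ y := by
        intro x hx y hy h
        exact Set.disjoint_left.mp hdVW.2.1 hy ⟨x, hx, h⟩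
      have d4 : ∀ x ∈ V ∪ W, ∀ y ∈ V ∪ W, a x ≠ b y := by
        intro x hx y hy h
        exact Set.disjoint_left.mp hdVW.2.2 ⟨x, hx, rfl⟩ ⟨y, hy, h.symm⟩
      have fixτ : ∀ x ∈ W, τ x = x ∧ τ (a x) = a x ∧ τ (b x) = b x := by
        intro x hx
        refine ⟨t4 _ ?_ ?_ ?_, t4 _ ?_ ?_ ?_, t4 _ ?_ ?_ ?_⟩
        · exact fun h => d1 x h hx
        · rintro ⟨y, hy, h⟩; exact d2 y (Or.inl hy) x (Or.inr hx) h
        · rintro ⟨y, hy, h⟩; exact d3 y (Or.inl hy) x (Or.inr hx) h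
        · exact fun h => d2 x (Or.inr hx) _ (Or.inl h) rfl
        · rintro ⟨y, hy, h⟩
          have := ap_inj a h
          exact d1 y hy (this ▸ hx)
        · rintro ⟨y, hy, h⟩; exact d4 x (Or.inr hx) y (Or.inl hy) h.symm
        · exact fun h => d3 x (Or.inr hx) _ (Or.inl h) rfl
        · rintro ⟨y, hy, h⟩; exact d4 y (Or.inl hy) x (Or.inr hx) h
        · rintro ⟨y, hy, h⟩
          have := ap_inj b h
          exact d1 y hy (this ▸ hx)
      have fixω : ∀ x ∈ V, ω x = x ∧ ω (a x) = a x ∧ ω (b x) = b x := by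
        intro x hx
        refine ⟨w4 _ ?_ ?_ ?_, w4 _ ?_ ?_ ?_, w4 _ ?_ ?_ ?_⟩
        · exact fun h => d1 x hx h
        · rintro ⟨y, hy, h⟩; exact d2 y (Or.inr hy) x (Or.inl hx) h
        · rintro ⟨y, hy, h⟩; exact d3 y (Or.inr hy) x (Or.inl hx) h
        · exact fun h => d2 x (Or.inl hx) _ (Or.inr h) rfl
        · rintro ⟨y, hy, h⟩
          have := ap_inj a h
          exact d1 x hx (this ▸ hy)
        · rintro ⟨y, hy, h⟩; exact d4 x (Or.inl hx) y (Or.inr hy) h.symm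
        · exact fun h => d3 x (Or.inl hx) _ (Or.inr h) rfl
        · rintro ⟨y, hy, h⟩; exact d4 y (Or.inr hy) x (Or.inl hx) h
        · rintro ⟨y, hy, h⟩
          have := ap_inj b h
          exact d1 x hx (this ▸ hy)
      refine ⟨τ * ω, mul_mem hτ hω, ?_, ?_, ?_, ?_⟩
      · rintro x (hx | hx)
        · rw [mul_ap, (fixω x hx).1, t1 x hx]
        · rw [mul_ap, w1 x hx, (fixτ x hx).2.1]
      · rintro x (hx | hx)
        · rw [mul_ap, (fixω x hx).2.1, t2 x hx]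
        · rw [mul_ap, w2 x hx, (fixτ x hx).2.2]
      · rintro x (hx | hx)
        · rw [mul_ap, (fixω x hx).2.2, t3 x hx]
        · rw [mul_ap, w3 x hx, (fixτ x hx).1]
      · intro x h1 h2 h3
        rw [Set.image_union] at h2 h3
        rw [mul_ap, w4 x (fun h => h1 (Or.inr h)) (fun h => h2 (Or.inr h))
          (fun h => h3 (Or.inr h)), t4 x (fun h => h1 (Or.inl h)) (fun h => h2 (Or.inl h))
          (fun h => h3 (Or.inl h))]
    · intro x hx
      obtain ⟨V, h1, h2, h3⟩ := hloc x hx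
      exact ⟨V, h1, h2, fun W hW hWV hWU _ => h3 W hW hWV hWU⟩
  exact key le_rfl

/-- A clopen neighbourhood of `x` such that the points `x`, `a x`, `b x` stay in given open
sets. -/
theorem nhd3 {a b : X ≃ₜ X} {x : X} {O P Q : Set X} (hO : IsOpen O) (hP : IsOpen P) (hQ : IsOpen Q)
    (h1 : x ∈ O) (h2 : a x ∈ P) (h3 : b x ∈ Q) :
    ∃ V : Set X, IsClopen V ∧ x ∈ V ∧ V ⊆ O ∧ a '' V ⊆ P ∧ b '' V ⊆ Q := by
  obtain ⟨V, hV1, hV2, hV3⟩ := exists_nhd ((hO.inter (hP.preimage a.continuous)).inter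
    (hQ.preimage b.continuous)) ⟨⟨h1, h2⟩, h3⟩
  refine ⟨V, hV1, hV2, fun y hy => (hV3 hy).1.1, ?_, ?_⟩
  · rintro _ ⟨y, hy, rfl⟩
    exact (hV3 hy).1.2
  · rintro _ ⟨y, hy, rfl⟩
    exact (hV3 hy).2

/-- Three-cycles belong to `G`. -/
theorem cyc_mem (hp : Perf X) [Nonempty X] {G : Subgroup (X ≃ₜ X)} (hv : Vigorous G)
    (hs : IsSimpleGroup G) {a b : X ≃ₜ X} (ha : a ∈ G) (hb : b ∈ G) {U : Set X} (hU : IsClopen U)
    (hd : Dis3 a b U) : ∃ τ ∈ G, IsCyc τ a b U := by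
  apply cyc_local hU hd
  intro x hx
  obtain ⟨Z, hZ1, ⟨z, hz⟩, _, hZ4⟩ := exists_avoid hp isOpen_univ ⟨x, mem_univ x⟩ {x, a x, b x}
    (by simp)
  have hz' : x ∉ ({z} : Set X) ∧ a x ∉ ({z} : Set X) ∧ b x ∉ ({z} : Set X) := by
    refine ⟨?_, ?_, ?_⟩ <;>
    · intro h
      rw [Set.mem_singleton_iff] at h
      exact Set.disjoint_left.mp hZ4 hz (by simp [h])
  obtain ⟨V, hV1, hV2, hV3, hV4, hV5⟩ := nhd3 (a := a) (b := b)
    (isOpen_compl_singleton (x := z)) (isOpen_compl_singleton (x := z))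
    (isOpen_compl_singleton (x := z)) hz'.1 hz'.2.1 hz'.2.2
  refine ⟨V, hV1, hV2, ?_⟩
  intro W hW hWV hWU
  apply cyc_mem_room hp hv hs ha hb hW (hd.mono hWU)
  refine ⟨z, ?_⟩
  rintro ((h | h) | h)
  · exact hV3 (hWV h) rfl
  · exact hV4 (Set.image_mono hWV h) rfl
  · exact hV5 (Set.image_mono hWV h) rfl

/-- The set of three-cycles with support in `V`. -/
def Tset (G : Subgroup (X ≃ₜ X)) (V : Set X) : Set (X ≃ₜ X) :=
  {τ | ∃ (U : Set X) (a b : X ≃ₜ X), IsClopen U ∧ a ∈ G ∧ b ∈ G ∧ Dis3 a b U ∧ U ⊆ V ∧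
    a '' U ⊆ V ∧ b '' U ⊆ V ∧ IsCyc τ a b U}

theorem Tset.mono {G : Subgroup (X ≃ₜ X)} {V W : Set X} (h : V ⊆ W) : Tset G V ⊆ Tset G W := by
  rintro τ ⟨U, a, b, h1, h2, h3, h4, h5, h6, h7, h8⟩
  exact ⟨U, a, b, h1, h2, h3, h4, h5.trans h, h6.trans h, h7.trans h, h8⟩

theorem Tset.conj {G : Subgroup (X ≃ₜ X)} {V : Set X} {τ : X ≃ₜ X} (h : τ ∈ Tset G V)
    {k : X ≃ₜ X} (hk : k ∈ G) : k * τ * k⁻¹ ∈ Tset G (k '' V) := by
  obtain ⟨U, a, b, h1, h2, h3, h4, h5, h6, h7, h8⟩ := h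
  have e1 : ∀ a : X ≃ₜ X, (k * a * k⁻¹) '' (k '' U) = k '' (a '' U) := by
    intro a
    rw [← img_mul, inv_mul_cancel_right, img_mul]
  refine ⟨k '' U, k * a * k⁻¹, k * b * k⁻¹, img_clopen k h1, ?_, ?_, h4.conj k,
    Set.image_mono h5, ?_, ?_, h8.conj k⟩
  · exact mul_mem (mul_mem hk h2) (inv_mem hk)
  · exact mul_mem (mul_mem hk h3) (inv_mem hk)
  · rw [e1]; exact Set.image_mono h6
  · rw [e1]; exact Set.image_mono h7

theorem Tset.mem (hp : Perf X) [Nonempty X] {G : Subgroup (X ≃ₜ X)} (hv : Vigorous G)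
    (hs : IsSimpleGroup G) {V : Set X} {τ : X ≃ₜ X} (h : τ ∈ Tset G V) : τ ∈ G := by
  obtain ⟨U, a, b, h1, h2, h3, h4, h5, h6, h7, h8⟩ := h
  obtain ⟨ω, hω, hω'⟩ := cyc_mem hp hv hs h2 h3 h1 h4
  rw [h8.unique hω']
  exact hω

/-- There is a nontrivial three-cycle. -/
theorem exists_cyc (hp : Perf X) [Nonempty X] {G : Subgroup (X ≃ₜ X)} (hv : Vigorous G)
    (hs : IsSimpleGroup G) : ∃ τ ∈ Tset G univ, τ ≠ 1 := by
  obtain ⟨f, hf1, hf2, _, hf4⟩ := exists_seq hp (isClopen_univ (X := X)) Set.univ_nonempty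
  have h1 : ∀ i : ℕ, i ≠ 0 → ∃ a ∈ G, a '' (f 0) ⊆ f i := by
    intro i hi
    have h2 := hv.push (A := univ) (B := f 0) (D := f i) isClopen_univ (hf1 0) (hf1 i)
      (Set.subset_univ _) (Set.subset_univ _) (hf2 i) ?_ ?_
    · obtain ⟨a, ha, h3, _⟩ := h2
      exact ⟨a, ha, h3⟩
    · obtain ⟨z, hz⟩ := hf2 i
      exact ⟨z, mem_univ z, fun h => Set.disjoint_left.mp (hf4 i 0 hi) hz h⟩
    · obtain ⟨z, hz⟩ := hf2 0
      exact ⟨z, mem_univ z, fun h => Set.disjoint_left.mp (hf4 i 0 hi) h hz⟩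
  obtain ⟨a, ha, ha'⟩ := h1 1 (by norm_num)
  obtain ⟨b, hb, hb'⟩ := h1 2 (by norm_num)
  have hd : Dis3 a b (f 0) := ⟨(hf4 0 1 (by norm_num)).mono_right ha',
    (hf4 0 2 (by norm_num)).mono_right hb', (hf4 1 2 (by norm_num)).mono ha' hb'⟩
  obtain ⟨τ, hτ, hc⟩ := cyc_mem hp hv hs ha hb (hf1 0) hd
  refine ⟨τ, ⟨f 0, a, b, hf1 0, ha, hb, hd, Set.subset_univ _, Set.subset_univ _,
    Set.subset_univ _, hc⟩, ?_⟩
  rintro rfl
  obtain ⟨z, hz⟩ := hf2 0
  have h2 := hc.1 z hz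
  rw [one_ap] at h2
  exact Set.disjoint_left.mp hd.1 hz ⟨z, hz, h2.symm⟩

/-- A simple vigorous group is generated by its three-cycles. -/
theorem le_of_Tset (hp : Perf X) [Nonempty X] {G : Subgroup (X ≃ₜ X)} (hv : Vigorous G)
    (hs : IsSimpleGroup G) {H : Subgroup (X ≃ₜ X)} (h : ∀ τ ∈ Tset G univ, τ ∈ H) : G ≤ H := by
  let S : Set G := {s | (s : X ≃ₜ X) ∈ Tset G univ}
  have hN : (Subgroup.normalClosure S) = ⊤ := by
    rcases (Subgroup.normalClosure_normal (s := S)).eq_bot_or_eq_top with h1 | h1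
    · exfalso
      obtain ⟨τ, hτ, hτ1⟩ := exists_cyc hp hv hs
      have h3 : (⟨τ, Tset.mem hp hv hs hτ⟩ : G) ∈ Subgroup.normalClosure S :=
        Subgroup.subset_normalClosure hτ
      rw [h1, Subgroup.mem_bot] at h3
      exact hτ1 (congrArg Subtype.val h3)
    · exact h1
  intro g hg
  have h1 : (⟨g, hg⟩ : G) ∈ Subgroup.normalClosure S := by rw [hN]; exact Subgroup.mem_top _
  rw [Subgroup.normalClosure] at h1
  have h2 : ∀ s : G, s ∈ Subgroup.closure (Group.conjugatesOfSet S) → (s : X ≃ₜ X) ∈ H := by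
    intro s hs'
    induction hs' using Subgroup.closure_induction with
    | mem t ht =>
      rw [Group.mem_conjugatesOfSet_iff] at ht
      obtain ⟨r, hr, hr'⟩ := ht
      rw [isConj_iff] at hr'
      obtain ⟨c, rfl⟩ := hr'
      apply h
      have h3 := Tset.conj (show (r : X ≃ₜ X) ∈ Tset G univ from hr) c.2
      exact Tset.mono (Set.subset_univ _) h3
    | one => exact one_mem H
    | mul a b _ _ ha hb => exact mul_mem ha hb
    | inv a _ ha => exact inv_mem ha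
  exact h2 _ h1

/-- The overlap lemma. -/
theorem overlap (hp : Perf X) [Nonempty X] {G : Subgroup (X ≃ₜ X)} (hv : Vigorous G)
    (hs : IsSimpleGroup G) {H : Subgroup (X ≃ₜ X)} {R R' : Set X} (hR : IsClopen R)
    (hR' : IsClopen R') (h : ∀ τ ∈ Tset G R, τ ∈ H) (h' : ∀ τ ∈ Tset G R', τ ∈ H)
    (hu : R ∪ R' = univ) (hn : (R ∩ R').Nonempty) : G ≤ H := by
  -- finite sets can be moved into `R`
  have hmove : ∀ n : ℕ, ∀ P : Set X, P.Finite → (P \ R).ncard = n →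
      ∃ k ∈ G, k ∈ H ∧ k '' P ⊆ R := by
    intro n
    induction n with
    | zero =>
      intro P hP hcard
      have h1 : P \ R = ∅ := by
        rwa [Set.ncard_eq_zero (hP.subset Set.sdiff_subset)] at hcard
      refine ⟨1, one_mem G, one_mem H, ?_⟩
      rw [img_one]
      exact Set.sdiff_eq_empty.mp h1
    | succ n ih =>
      intro P hP hcard
      have h1 : (P \ R).Nonempty := by
        rw [Set.nonempty_iff_ne_empty]
        intro h1
        rw [h1, Set.ncard_empty] at hcard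
        omega
      obtain ⟨p, hpP, hpR⟩ := h1
      have hpR' : p ∈ R' := by
        have := Set.mem_univ p
        rw [← hu] at this
        exact this.resolve_left hpR
      obtain ⟨Δ, hΔ1, hΔ2, hΔ3, hΔ4⟩ := exists_avoid hp (hR.inter hR').isOpen hn P hP
      obtain ⟨Δ1, Δ2, e1, e2, e1n, e2n, e12, eu⟩ := split hp hΔ1 hΔ2
      have e1Δ : Δ1 ⊆ Δ := by rw [← eu]; exact Set.subset_union_left
      have e2Δ : Δ2 ⊆ Δ := by rw [← eu]; exact Set.subset_union_right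
      obtain ⟨V, hV1, hV2, hV3⟩ := exists_nhd (x := p) (U := (R' \ R) ∩ (P \ {p})ᶜ)
        ((hR'.diff hR).isOpen.inter (hP.subset Set.sdiff_subset).isClosed.isOpen_compl)
        ⟨⟨hpR', hpR⟩, fun h => h.2 rfl⟩
      have hVR : ∀ z ∈ V, z ∉ R := fun z hz => (hV3 hz).1.2
      have hpush : ∀ D : Set X, IsClopen D → D.Nonempty → D ⊆ Δ → ∃ a ∈ G, a '' V ⊆ D := by
        intro D hD hDn hDΔ
        have h2 := hv.push (A := univ) (B := V) (D := D) isClopen_univ hV1 hD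
          (Set.subset_univ _) (Set.subset_univ _) hDn ?_ ?_
        · obtain ⟨a, ha, h3, _⟩ := h2
          exact ⟨a, ha, h3⟩
        · obtain ⟨z, hz⟩ := hDn
          exact ⟨z, mem_univ z, fun h => hVR z h (hΔ3 (hDΔ hz)).1⟩
        · exact ⟨p, mem_univ p, fun h => hpR (hΔ3 (hDΔ h)).1⟩
      obtain ⟨a, ha, ha'⟩ := hpush Δ1 e1 e1n e1Δ
      obtain ⟨b, hb, hb'⟩ := hpush Δ2 e2 e2n e2Δ
      have hd : Dis3 a b V := by
        refine ⟨?_, ?_, e12.mono ha' hb'⟩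
        · exact Set.disjoint_left.mpr fun z hz hz' => hVR z hz (hΔ3 (e1Δ (ha' hz'))).1
        · exact Set.disjoint_left.mpr fun z hz hz' => hVR z hz (hΔ3 (e2Δ (hb' hz'))).1
      obtain ⟨κ, hκ, hc⟩ := cyc_mem hp hv hs ha hb hV1 hd
      have hκH : κ ∈ H := by
        apply h'
        refine ⟨V, a, b, hV1, ha, hb, hd, fun z hz => (hV3 hz).1.1, ?_, ?_, hc⟩
        · exact fun z hz => (hΔ3 (e1Δ (ha' hz))).2
        · exact fun z hz => (hΔ3 (e2Δ (hb' hz))).2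
      have hfixP : ∀ q ∈ P, q ≠ p → κ q = q := by
        intro q hq hqp
        apply hc.2.2.2
        · exact fun hz => (hV3 hz).2 ⟨hq, hqp⟩
        · exact fun hz => Set.disjoint_left.mp hΔ4 (e1Δ (ha' hz)) hq
        · exact fun hz => Set.disjoint_left.mp hΔ4 (e2Δ (hb' hz)) hq
      have hκp : κ p ∈ R := by
        rw [hc.1 p hV2]
        exact (hΔ3 (e1Δ (ha' ⟨p, hV2, rfl⟩))).1
      have hcard' : ((κ '' P) \ R).ncard = n := by
        have h3 : (κ '' P) \ R = (P \ R) \ {p} := by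
          ext z
          constructor
          · rintro ⟨⟨q, hq, rfl⟩, hz⟩
            by_cases hqp : q = p
            · rw [hqp] at hz
              exact absurd hκp hz
            · rw [hfixP q hq hqp] at hz ⊢
              exact ⟨⟨hq, hz⟩, hqp⟩
          · rintro ⟨⟨hz, hz'⟩, hzp⟩
            exact ⟨⟨z, hz, hfixP z hz hzp⟩, hz'⟩
        rw [h3, Set.ncard_sdiff_singleton_of_mem (show p ∈ P \ R from ⟨hpP, hpR⟩), hcard]
        omega
      obtain ⟨k, hk, hk', hk''⟩ := ih (κ '' P) (hP.image _) hcard'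
      exact ⟨k * κ, mul_mem hk hκ, mul_mem hk' hκH, by rw [img_mul]; exact hk''⟩
  apply le_of_Tset hp hv hs
  rintro τ ⟨U, a, b, hU, ha, hb, hd, _, _, _, hc⟩
  have h1 := cyc_local (H := H) hU hd ?_
  · obtain ⟨ω, hω, hω'⟩ := h1
    rw [hc.unique hω']
    exact hω
  · intro x _
    obtain ⟨k, hkG, hkH, hk⟩ := hmove _ {x, a x, b x} (by simp) rfl
    have hk1 : k x ∈ R := hk ⟨x, by simp, rfl⟩
    have hk2 : k (a x) ∈ R := hk ⟨a x, by simp, rfl⟩
    have hk3 : k (b x) ∈ R := hk ⟨b x, by simp, rfl⟩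
    obtain ⟨V, hV1, hV2, hV3, hV4, hV5⟩ := nhd3 (a := a) (b := b)
      (hR.isOpen.preimage k.continuous) (hR.isOpen.preimage k.continuous)
      (hR.isOpen.preimage k.continuous) hk1 hk2 hk3
    refine ⟨V, hV1, hV2, ?_⟩
    intro W hW hWV hWU
    obtain ⟨ω, hω, hω'⟩ := cyc_mem hp hv hs ha hb hW (hd.mono hWU)
    refine ⟨ω, ?_, hω'⟩
    have h2 : k * ω * k⁻¹ ∈ H := by
      apply h
      have e1 : ∀ a : X ≃ₜ X, (k * a * k⁻¹) '' (k '' W) = k '' (a '' W) := by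
        intro a
        rw [← img_mul, inv_mul_cancel_right, img_mul]
      refine ⟨k '' W, k * a * k⁻¹, k * b * k⁻¹, img_clopen k hW, ?_, ?_, (hd.mono hWU).conj k,
        ?_, ?_, ?_, hω'.conj k⟩
      · exact mul_mem (mul_mem hkG ha) (inv_mem hkG)
      · exact mul_mem (mul_mem hkG hb) (inv_mem hkG)
      · rintro _ ⟨y, hy, rfl⟩
        exact hV3 (hWV hy)
      · rw [e1]
        rintro _ ⟨y, hy, rfl⟩
        exact hV4 (Set.image_mono hWV hy)
      · rw [e1]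
        rintro _ ⟨y, hy, rfl⟩
        exact hV5 (Set.image_mono hWV hy)
    have h3 : ω = k⁻¹ * (k * ω * k⁻¹) * k := by group
    rw [h3]
    exact mul_mem (mul_mem (inv_mem hkH) h2) hkH

end Pool.Agent.Lib.Pe4017d
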