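import Pool.Agent.Lib.Pe4017d.FG

set_option autoImplicit false
set_option linter.unusedSectionVars false

/-!
Dynamics: contraction of the complement of the big level, and generation.
-/

namespace Pool.Agent.Lib.Pe4017d

open Set

section contraction

variable {X : Type*} [TopologicalSpace X]

/-- The levels. -/
def Lev (β : X ≃ₜ X) (R : Set X) (t : ℤ) : Set X := (β ^ t) '' R

theorem mem_Lev {β : X ≃ₜ X} {R : Set X} {t : ℤ} {x : X} : x ∈ Lev β R t ↔ (β ^ (-t)) x ∈ R := by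
  unfold Lev
  rw [mem_img, ← zpow_neg]

theorem Lev_zero {β : X ≃ₜ X} {R : Set X} : Lev β R 0 = R := by
  unfold Lev
  rw [zpow_zero, img_one]

theorem Lev_shift {β : X ≃ₜ X} {R : Set X} {s t : ℤ} {x : X} :
    (β ^ s) x ∈ Lev β R t ↔ x ∈ Lev β R (t - s) := by
  rw [mem_Lev, mem_Lev, ← zpow_add_ap]
  rw [show -t + s = -(t - s) by ring]

/-- The funnel: everything outside of `R` is moved into the level `-a`. -/
theorem contraction {α β : X ≃ₜ X} {R : Set X} {a m N : ℕ}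
    (hdis : ∀ t t' : ℤ, t ≠ t' → |t - t'| ≤ 2 * m → Disjoint (Lev β R t) (Lev β R t'))
    (hret : ∀ x, ∀ t0 : ℤ, ∃ s : ℕ, s ≤ N ∧ (β ^ (-(s : ℤ))) x ∈ Lev β R t0)
    (ha : 1 ≤ a) (ham : a ≤ m)
    (hJneg : ∀ x ∈ Lev β R (-(a : ℤ)), α x ∈ R)
    (hJ : ∀ t : ℤ, (a : ℤ) ≤ t → t < 2 * a → ∀ x ∈ Lev β R t, α x ∈ R)
    (hS : ∀ x, x ∉ R → α x = x ∨ α x ∈ R ∨ ∃ t : ℤ, t ≠ a ∧ |t| ≤ m ∧ α x ∈ Lev β R t ∧
      ∀ z ∈ Lev β R (t - a), α z ∈ R) :
    ∀ x, x ∉ R → ((β ^ (-(a : ℤ)) * α) ^ (N + 3)) x ∈ Lev β R (-(a : ℤ)) := by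
  have hρ : ∀ x, (β ^ (-(a : ℤ)) * α) x = (β ^ (-(a : ℤ))) (α x) := fun x => rfl
  have hpow : ∀ (n : ℕ) (x : X), ((β ^ (-(a : ℤ)) * α) ^ (n + 1)) x =
      (β ^ (-(a : ℤ))) (α (((β ^ (-(a : ℤ)) * α) ^ n) x)) := by
    intro n x
    rw [pow_succ', mul_ap, hρ]
  have hR0 : Lev β R 0 = R := Lev_zero
  have step0 : ∀ x, x ∉ R → (β ^ (-(a : ℤ))) (α x) ∉ R := by
    intro x hx h
    rw [← hR0, Lev_shift, zero_sub, neg_neg] at h
    rcases hS x hx with h1 | h1 | ⟨t, ht1, ht2, ht3, _⟩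
    · rw [h1] at h
      have h2 := hJ a le_rfl (by omega) x h
      rw [h1] at h2
      exact hx h2
    · have h2 := hdis 0 a (by omega) (by rw [zero_sub, abs_neg, Nat.abs_cast]; omega)
      rw [hR0] at h2
      exact Set.disjoint_left.mp h2 h1 h
    · have h2 := hdis t a ht1 (by rw [abs_le] at ht2 ⊢; constructor <;> omega)
      exact Set.disjoint_left.mp h2 ht3 h
  have step1 : ∀ x, α x ∈ R → (β ^ (-(a : ℤ))) (α x) ∈ Lev β R (-(a : ℤ)) := by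
    intro x hx
    rw [Lev_shift, sub_self, hR0]
    exact hx
  intro x hx
  by_contra hcon
  set ρ : X ≃ₜ X := β ^ (-(a : ℤ)) * α with hρdef
  have step2 : ∀ n, n ≤ N + 3 → (ρ ^ n) x ∉ Lev β R (-(a : ℤ)) := by
    intro n hn h
    have h1 : ∀ d, (ρ ^ (n + d)) x ∈ Lev β R (-(a : ℤ)) := by
      intro d
      induction d with
      | zero => exact h
      | succ d ih =>
        rw [← add_assoc, hpow]
        exact step1 _ (hJneg _ ih)
    apply hcon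
    have h2 := h1 (N + 3 - n)
    rwa [show n + (N + 3 - n) = N + 3 by omega] at h2
  have step3 : ∀ n, (ρ ^ n) x ∉ R := by
    intro n
    induction n with
    | zero => exact hx
    | succ n ih =>
      rw [hpow]
      exact step0 _ ih
  have step4 : ∀ n, n ≤ N + 2 → α ((ρ ^ n) x) ∉ R := by
    intro n hn h
    apply step2 (n + 1) (by omega)
    rw [hpow]
    exact step1 _ h
  have step5 : ∀ n, n ≤ N + 1 → α ((ρ ^ n) x) = (ρ ^ n) x := by
    intro n hn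
    rcases hS _ (step3 n) with h1 | h1 | ⟨t, _, _, ht3, ht4⟩
    · exact h1
    · exact absurd h1 (step4 n (by omega))
    · exfalso
      apply step4 (n + 1) (by omega)
      apply ht4
      rw [hpow, Lev_shift]
      rw [show t - (a : ℤ) - -(a : ℤ) = t by ring]
      exact ht3
  have step6 : ∀ n : ℕ, n ≤ N + 2 → (ρ ^ n) x = (β ^ (-((a : ℤ) * n))) x := by
    intro n
    induction n with
    | zero => intro _; simp
    | succ n ih =>
      intro hn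
      rw [hpow, step5 n (by omega), ih (by omega), ← zpow_add_ap]
      congr 2
      push_cast
      ring
  obtain ⟨s, hs1, hs2⟩ := hret x (2 * a - 1)
  obtain ⟨n, hn1, hn2, hn3⟩ : ∃ n : ℕ, n ≤ s ∧ s ≤ a * n ∧ a * n + 1 ≤ s + a := by
    refine ⟨(s + a - 1) / a, ?_, ?_, ?_⟩
    · have h1 := Nat.div_add_mod (s + a - 1) a
      by_contra h2
      push Not at h2
      have h3 : a * (s + 1) ≤ a * ((s + a - 1) / a) := Nat.mul_le_mul_left a h2
      have h4 : s ≤ a * s := Nat.le_mul_of_pos_left s (by omega)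
      rw [mul_add, mul_one] at h3
      omega
    · have h1 := Nat.div_add_mod (s + a - 1) a
      have h2 := Nat.mod_lt (s + a - 1) (show 0 < a by omega)
      omega
    · have h1 := Nat.div_add_mod (s + a - 1) a
      omega
  have h1 : (ρ ^ n) x ∈ Lev β R (2 * a - 1 - (a * n - s)) := by
    rw [step6 n (by omega), Lev_shift]
    rw [Lev_shift] at hs2
    rw [show (2 * (a : ℤ) - 1 - (a * n - s) - -(a * n)) = 2 * a - 1 - -(s : ℤ) by ring]
    exact hs2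
  have h2 : α ((ρ ^ n) x) ∈ R := by
    refine hJ _ ?_ ?_ _ h1
    · have : ((a * n : ℕ) : ℤ) + 1 ≤ s + a := by exact_mod_cast hn3
      push_cast at this
      omega
    · have : (s : ℤ) ≤ ((a * n : ℕ) : ℤ) := by exact_mod_cast hn2
      push_cast at this
      omega
  exact step4 n (by omega) h2

/-- The local element is known on `E`. -/
theorem lam_on_E {α β ψa ψpa ψq : X ≃ₜ X} {R : Set X} {a p q : ℤ} {L : ℕ}
    (hψa : ∀ x ∈ R, (β ^ (-a)) x = ψa x) (hψpa : ∀ x ∈ R, (β ^ (p - a)) x = ψpa x)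
    (hψq : ∀ x ∈ R, (β ^ (-q)) x = ψq x) (h1 : ∀ x ∈ R, α (ψa x) ∈ R)
    (h2 : ∀ x ∈ R, α (ψpa x) ∈ R) (h3 : ∀ x ∈ R, α (ψq x) ∈ R) :
    ∀ u ∈ (α * (ψa * α) ^ L) '' (ψa '' R),
      ((α * (β ^ (-a) * α) ^ L) * (β ^ (-q) * α * β ^ p) * (α * (β ^ (-a) * α) ^ L)⁻¹) u =
      ((α * (ψa * α) ^ L) * (ψq * α * ψpa * ψa⁻¹) * (α * (ψa * α) ^ L)⁻¹) u := by
  have key : ∀ x, (x ∈ ψa '' R ∨ x ∈ ψq '' R) → ∀ n : ℕ,
      (((β ^ (-a) * α) ^ n) x = ((ψa * α) ^ n) x) ∧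
      (((ψa * α) ^ n) x ∈ ψa '' R ∨ ((ψa * α) ^ n) x ∈ ψq '' R) := by
    intro x hx n
    induction n with
    | zero => exact ⟨rfl, hx⟩
    | succ n ih =>
      obtain ⟨ih1, ih2⟩ := ih
      have h4 : α (((ψa * α) ^ n) x) ∈ R := by
        rcases ih2 with ⟨r, hr, hr'⟩ | ⟨r, hr, hr'⟩
        · rw [← hr']; exact h1 r hr
        · rw [← hr']; exact h3 r hr
      refine ⟨?_, ?_⟩
      · rw [pow_succ', pow_succ', mul_ap, mul_ap, mul_ap, mul_ap, ih1, hψa _ h4]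
      · left
        rw [pow_succ', mul_ap, mul_ap]
        exact ⟨_, h4, rfl⟩
  have hc : ∀ x, (x ∈ ψa '' R ∨ x ∈ ψq '' R) →
      (α * (β ^ (-a) * α) ^ L) x = (α * (ψa * α) ^ L) x := by
    intro x hx
    rw [mul_ap, mul_ap, (key x hx L).1]
  rintro _ ⟨_, ⟨r, hr, rfl⟩, rfl⟩
  have e1 : (α * (β ^ (-a) * α) ^ L)⁻¹ ((α * (ψa * α) ^ L) (ψa r)) = ψa r :=
    inv_eq _ (hc _ (Or.inl ⟨r, hr, rfl⟩))
  have e2 : (β ^ (-q) * α * β ^ p) (ψa r) = ψq (α (ψpa r)) := by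
    rw [mul_ap, mul_ap, ← hψa r hr, ← zpow_add_ap, ← sub_eq_add_neg, hψpa r hr,
      hψq _ (h2 r hr)]
  have e3 : (ψq * α * ψpa * ψa⁻¹) (ψa r) = ψq (α (ψpa r)) := by
    rw [mul_ap, mul_ap, mul_ap, inv_ap]
  have e4 := hc _ (Or.inr ⟨_, h2 r hr, rfl⟩)
  generalize α * (ψa * α) ^ L = c0 at e1 e4 ⊢
  generalize α * (β ^ (-a) * α) ^ L = c1 at e1 e4 ⊢
  generalize ψq * α * ψpa * ψa⁻¹ = f0 at e3 ⊢
  generalize β ^ (-q) * α * β ^ p = f1 at e2 ⊢
  rw [mul_ap, mul_ap, e1, e2, mul_ap, mul_ap, inv_ap, e3]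
  exact e4

/-- Conjugates of the local element. -/
theorem conj_local {α β lam κ y : X ≃ₜ X} {R E Z : Set X} {v w : ℤ}
    (hlam : ∀ x, x ∉ R → lam x = x) (hE : ∀ u ∈ E, lam u = κ u)
    (e1 : ∀ x ∈ Z, ∃ u ∈ E, α ((β ^ v) u) = (β ^ w) x ∧ α ((β ^ v) (κ u)) = (β ^ w) (y x))
    (e2 : ∀ x ∈ R, α ((β ^ v) x) ∈ R ∨ ∃ z, (z ∈ Z ∨ z ∈ y '' Z) ∧ α ((β ^ v) x) = (β ^ w) z) :
    (∀ x ∈ Z, ((β ^ (-w) * α * β ^ v) * lam * (β ^ (-w) * α * β ^ v)⁻¹) x = y x) ∧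
    ∀ x, x ∉ Z → x ∉ y '' Z → x ∉ Lev β R (-w) →
      ((β ^ (-w) * α * β ^ v) * lam * (β ^ (-w) * α * β ^ v)⁻¹) x = x := by
  set h : X ≃ₜ X := β ^ (-w) * α * β ^ v with hh
  have hap : ∀ x, h x = (β ^ (-w)) (α ((β ^ v) x)) := fun x => rfl
  have hcanc : ∀ x, (β ^ (-w)) ((β ^ w) x) = x := by
    intro x
    rw [zpow_neg, inv_ap]
  refine ⟨?_, ?_⟩
  · intro x hx
    obtain ⟨u, hu, h1, h2⟩ := e1 x hx
    have h3 : h u = x := by rw [hap, h1, hcanc]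
    have h4 : h (κ u) = y x := by rw [hap, h2, hcanc]
    rw [mul_ap, mul_ap, inv_eq h h3, hE u hu, h4]
  · intro x h1 h2 h3
    have h4 : h⁻¹ x ∉ R := by
      intro h4
      have h5 : h (h⁻¹ x) = x := ap_inv h x
      rw [hap] at h5
      rcases e2 _ h4 with h6 | ⟨z, hz, h6⟩
      · apply h3
        rw [← h5, Lev_shift, sub_self, Lev_zero]
        exact h6
      · rw [h6, hcanc] at h5
        rw [h5] at hz
        rcases hz with hz | hz
        · exact h1 hz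
        · exact h2 hz
    rw [mul_ap, mul_ap, hlam _ h4, ap_inv]

end contraction

section final

variable {X : Type*} [TopologicalSpace X] [CompactSpace X] [T2Space X] [TotallyDisconnectedSpace X]

/-- Generation from the encoded three-cycles. -/
theorem final_gen (hp : Perf X) [Nonempty X] {G : Subgroup (X ≃ₜ X)} (hv : Vigorous G)
    (hs : IsSimpleGroup G) {H : Subgroup (X ≃ₜ X)} {R C' : Set X} (hR : IsClopen R)
    {M : ℕ} {D : CycData G C'}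
    (henc : ∀ H : Subgroup (X ≃ₜ X),
      (∀ s, s < M → ∀ τ, IsCyc τ (D.y s) (D.w s) (D.Z s) → τ ∈ H) → ∀ τ ∈ Tset G C', τ ∈ H)
    {c : X ≃ₜ X} (hcH : c ∈ H) (hcG : c ∈ G) (hc : ∀ x, x ∉ R → c x ∈ R)
    (hover : ∃ x ∈ R, c x ∈ R)
    {h : X ≃ₜ X} (hhH : h ∈ H) (hhG : h ∈ G) (hh : ∀ x ∈ R, h x ∈ C')
    (hcyc : ∀ s, s < M → ∃ a ∈ H, ∃ b ∈ H, (∀ x ∈ D.Z s, a x = D.y s x) ∧
      (∀ x ∈ D.Z s, b x = D.w s x) ∧ ∀ x, x ∉ D.Z s → a x = x ∨ b x = x) : G ≤ H := by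
  have h1 : ∀ τ ∈ Tset G C', τ ∈ H := by
    apply henc
    intro s hs' τ hτ
    obtain ⟨a, ha, b, hb, h1, h2, h3⟩ := hcyc s hs'
    have h4 := comm_cyc (a := a) (b := b) (U := D.Z s) h3
      (by rw [show a '' D.Z s = D.y s '' D.Z s from img_congr h1]; exact (D.hd s).1)
      (by rw [show b '' D.Z s = D.w s '' D.Z s from img_congr h2]; exact (D.hd s).2.1)
    have h5 := h4.2.congr h1 h2
    rw [hτ.unique h5]
    exact mul_mem (mul_mem (mul_mem ha hb) (inv_mem ha)) (inv_mem hb)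
  have h2 : ∀ τ ∈ Tset G R, τ ∈ H := by
    intro τ hτ
    have h3 := Tset.conj hτ hhG
    have h4 : h '' R ⊆ C' := by
      rintro _ ⟨x, hx, rfl⟩
      exact hh x hx
    have h5 := h1 _ (Tset.mono h4 h3)
    have h6 : τ = h⁻¹ * (h * τ * h⁻¹) * h := by group
    rw [h6]
    exact mul_mem (mul_mem (inv_mem hhH) h5) hhH
  have h3 : ∀ τ ∈ Tset G ((c⁻¹ : X ≃ₜ X) '' R), τ ∈ H := by
    intro τ hτ
    have h4 := Tset.conj hτ hcG
    rw [← img_mul, mul_inv_cancel, img_one] at h4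
    have h5 := h2 _ h4
    have h6 : τ = c⁻¹ * (c * τ * c⁻¹) * c := by group
    rw [h6]
    exact mul_mem (mul_mem (inv_mem hcH) h5) hcH
  refine overlap hp hv hs hR (img_clopen _ hR) h2 h3 ?_ ?_
  · ext x
    simp only [Set.mem_union, Set.mem_univ, iff_true]
    by_cases hx : x ∈ R
    · exact Or.inl hx
    · right
      exact ⟨c x, hc x hx, inv_ap c x⟩
  · obtain ⟨x, hx, hx'⟩ := hover
    exact ⟨x, hx, ⟨c x, hx', inv_ap c x⟩⟩

end final

end Pool.Agent.Lib.Pe4017d
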