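import Pool.Agent.Lib.Pe4017d.Basic

set_option autoImplicit false
set_option linter.unusedSectionVars false

/-!
Vigorous groups: extension of partial maps.
-/

namespace Pool.Agent.Lib.Pe4017d

open Set

/-- Vigorous groups of homeomorphisms. -/
def Vigorous {X : Type*} [TopologicalSpace X] (G : Subgroup (X ≃ₜ X)) : Prop :=
  ∀ A B D : Set X, IsClopen A → IsClopen B → IsClopen D → B ⊂ A → D ⊂ A → B.Nonempty →
    D.Nonempty → ∃ γ ∈ G, γ '' B ⊆ D ∧ ∀ x, x ∉ A → γ x = x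

variable {X : Type*} [TopologicalSpace X] [CompactSpace X] [T2Space X] [TotallyDisconnectedSpace X]

/-- A convenient form of vigour. -/
theorem Vigorous.push {G : Subgroup (X ≃ₜ X)} (hv : Vigorous G) {A B D : Set X} (hA : IsClopen A)
    (hB : IsClopen B) (hD : IsClopen D) (hBA : B ⊆ A) (hDA : D ⊆ A) (hDn : D.Nonempty)
    (h1 : (A \ B).Nonempty) (h2 : (A \ D).Nonempty) :
    ∃ γ ∈ G, γ '' B ⊆ D ∧ ∀ x, x ∉ A → γ x = x := by
  by_cases hBn : B.Nonempty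
  · refine hv A B D hA hB hD ⟨hBA, ?_⟩ ⟨hDA, ?_⟩ hBn hDn
    · intro h
      obtain ⟨x, hx, hx'⟩ := h1
      exact hx' (h hx)
    · intro h
      obtain ⟨x, hx, hx'⟩ := h2
      exact hx' (h hx)
  · rw [Set.not_nonempty_iff_eq_empty] at hBn
    refine ⟨1, one_mem _, ?_, fun x _ => rfl⟩
    rw [hBn, Set.image_empty]
    exact Set.empty_subset _

/-- First extension lemma. -/
theorem good1 {G : Subgroup (X ≃ₜ X)} (hv : Vigorous G) {s : X ≃ₜ X} (hs : s ∈ G)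
    {F U K : Set X} (hF : IsClopen F) (hU : IsClopen U) (hK : IsClopen K)
    (hfix : ∀ x ∈ F, s x = x) (hUF : Disjoint U F) (hFK : (F \ K).Nonempty)
    (hKU : Disjoint K U) (hKsU : Disjoint K (s '' U)) :
    ∃ h ∈ G, (∀ x ∈ U, h x = s x) ∧ ∀ x ∈ K, h x = x := by
  by_cases hUn : U.Nonempty
  · have HH := hv.push (A := (K ∪ (s⁻¹ : X ≃ₜ X) '' K)ᶜ) (B := U) (D := F \ K)
      (hK.union (img_clopen _ hK)).compl hU (hF.diff hK) ?_ ?_ hFK ?_ ?_
    obtain ⟨f, hf, hf1, hf2⟩ := HH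
    · refine ⟨s * f⁻¹ * s⁻¹ * f, ?_, ?_, ?_⟩
      · exact mul_mem (mul_mem (mul_mem hs (inv_mem hf)) (inv_mem hs)) hf
      · intro x hx
        have h1 : f x ∈ F \ K := hf1 ⟨x, hx, rfl⟩
        have h2 : s (f x) = f x := hfix _ h1.1
        rw [mul_ap, mul_ap, mul_ap, inv_eq s h2, inv_ap]
      · intro x hx
        have h1 : f x = x := hf2 x (fun h => h (Or.inl hx))
        have h2 : f (s⁻¹ x) = s⁻¹ x := hf2 _ (fun h => h (Or.inr ⟨x, hx, rfl⟩))
        rw [mul_ap, mul_ap, mul_ap, h1, inv_eq f h2, ap_inv]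
    · rintro x hx (h | ⟨y, hy, rfl⟩)
      · exact Set.disjoint_left.mp hKU h hx
      · refine Set.disjoint_left.mp hKsU hy ⟨_, hx, ?_⟩
        exact ap_inv s y
    · rintro x ⟨hx, hx'⟩ (h | ⟨y, hy, rfl⟩)
      · exact hx' h
      · have h3 := hfix _ hx
        rw [ap_inv] at h3
        rw [← h3] at hx'
        exact hx' hy
    · obtain ⟨x, hx, hx'⟩ := hFK
      refine ⟨x, ?_, fun h => Set.disjoint_left.mp hUF h hx⟩
      rintro (h | ⟨y, hy, rfl⟩)
      · exact hx' h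
      · have h3 := hfix _ hx
        rw [ap_inv] at h3
        rw [← h3] at hx'
        exact hx' hy
    · obtain ⟨x, hx⟩ := hUn
      refine ⟨x, ?_, fun h => Set.disjoint_left.mp hUF hx h.1⟩
      rintro (h | ⟨y, hy, rfl⟩)
      · exact Set.disjoint_left.mp hKU h hx
      · exact Set.disjoint_left.mp hKsU hy ⟨_, hx, ap_inv s y⟩
  · rw [Set.not_nonempty_iff_eq_empty] at hUn
    exact ⟨1, one_mem _, by rw [hUn]; intro x hx; exact absurd hx (Set.notMem_empty x),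
      fun x _ => rfl⟩

/-- Second extension lemma. -/
theorem good2 {G : Subgroup (X ≃ₜ X)} (hv : Vigorous G) {s : X ≃ₜ X} (hs : s ∈ G)
    {F U K : Set X} (hF : IsClopen F) (hU : IsClopen U) (hK : IsClopen K)
    (hfix : ∀ x ∈ F, s x = x) (hUF : Disjoint U F) (hFn : F.Nonempty)
    (hKU : Disjoint K U) (hKsU : Disjoint K (s '' U)) (hroom : ((K ∪ U ∪ s '' U)ᶜ).Nonempty) :
    ∃ h ∈ G, (∀ x ∈ U, h x = s x) ∧ ∀ x ∈ K, h x = x := by
  by_cases hFK : (F \ K).Nonempty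
  · exact good1 hv hs hF hU hK hfix hUF hFK hKU hKsU
  · have hFK' : F ⊆ K := by
      intro x hx
      by_contra h
      exact hFK ⟨x, hx, h⟩
    have hK0 : IsClopen (K ∪ U ∪ s '' U)ᶜ := ((hK.union hU).union (img_clopen s hU)).compl
    have HH := good1 hv hs hF hU hK0 hfix hUF ?_ ?_ ?_
    obtain ⟨h0, hh0, h1, h2⟩ := HH
    · have h3 : h0 '' U = s '' U := img_congr h1
      have HH := good1 hv hh0 hK0 hU hK h2 ?_ ?_ hKU (by rw [h3]; exact hKsU)
      obtain ⟨h, hh, h4, h5⟩ := HH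
      · exact ⟨h, hh, fun x hx => (h4 x hx).trans (h1 x hx), h5⟩
      · exact Set.disjoint_left.mpr fun x hx hx' => hx' (Or.inl (Or.inr hx))
      · obtain ⟨x, hx⟩ := hroom
        exact ⟨x, hx, fun h => hx (Or.inl (Or.inl h))⟩
    · obtain ⟨x, hx⟩ := hFn
      exact ⟨x, hx, fun h => h (Or.inl (Or.inl (hFK' hx)))⟩
    · exact Set.disjoint_left.mpr fun x hx hx' => hx (Or.inl (Or.inr hx'))
    · exact Set.disjoint_left.mpr fun x hx hx' => hx (Or.inr hx')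

/-- `g` is nice at `x`: near `x` it agrees with an element of `G` fixing some nonempty clopen
set pointwise. -/
def NiceAt (G : Subgroup (X ≃ₜ X)) (g : X ≃ₜ X) (x : X) : Prop :=
  ∃ s ∈ G, ∃ W F : Set X, IsClopen W ∧ x ∈ W ∧ (∀ y ∈ W, s y = g y) ∧ IsClopen F ∧ F.Nonempty ∧
    Disjoint W F ∧ ∀ y ∈ F, s y = y

theorem niceAt_of_fix (hp : Perf X) {G : Subgroup (X ≃ₜ X)} {s : X ≃ₜ X} (hs : s ∈ G) {F : Set X}
    (hF : IsClopen F) (hFn : F.Nonempty) (hfix : ∀ y ∈ F, s y = y) (x : X) : NiceAt G s x := by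
  obtain ⟨V, hV1, hV2, hV3, hV4⟩ := exists_avoid hp hF.isOpen hFn {x} (Set.finite_singleton x)
  refine ⟨s, hs, Vᶜ, V, hV1.compl, ?_, fun y _ => rfl, hV1, hV2, disjoint_compl_left, ?_⟩
  · intro h
    exact Set.disjoint_left.mp hV4 h rfl
  · exact fun y hy => hfix y (hV3 hy)

theorem niceAt_inv {G : Subgroup (X ≃ₜ X)} {g : X ≃ₜ X} (h : ∀ x, NiceAt G g x) (x : X) :
    NiceAt G g⁻¹ x := by
  obtain ⟨s, hs, W, F, hW, hx, h1, hF, hFn, hWF, h2⟩ := h (g⁻¹ x)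
  have h3 : s '' W = g '' W := img_congr h1
  refine ⟨s⁻¹, inv_mem hs, s '' W, F, img_clopen s hW, ?_, ?_, hF, hFn, ?_, ?_⟩
  · rw [h3]
    exact ⟨g⁻¹ x, hx, ap_inv g x⟩
  · rintro _ ⟨y, hy, rfl⟩
    rw [inv_ap, h1 y hy, inv_ap]
  · rw [Set.disjoint_left]
    rintro _ ⟨y, hy, rfl⟩ hF'
    have h4 := h2 _ hF'
    have h5 := ap_inj s h4
    rw [h5] at hF'
    exact Set.disjoint_left.mp hWF hy hF'
  · intro y hy
    exact inv_eq s (h2 y hy)

/-- Niceness allows to prescribe a small fixed set away from a point and its image. -/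
theorem NiceAt.away (hp : Perf X) {G : Subgroup (X ≃ₜ X)} (hv : Vigorous G) {g : X ≃ₜ X} {x : X}
    (h : NiceAt G g x) {K : Set X} (hK : IsClopen K) (hx : x ∉ K) (hgx : g x ∉ K) :
    ∃ s ∈ G, ∃ W : Set X, IsClopen W ∧ x ∈ W ∧ (∀ y ∈ W, s y = g y) ∧ ∀ y ∈ K, s y = y := by
  obtain ⟨s, hs, W, F, hW, hxW, h1, hF, hFn, hWF, h2⟩ := h
  -- find room
  obtain ⟨Z, hZ1, hZ2, hZ3, hZ4⟩ := exists_avoid hp (hK.compl.isOpen)
    ⟨x, hx⟩ {x, g x} (by simp)
  -- shrink W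
  have hopen : IsOpen (W ∩ (K ∪ Z)ᶜ ∩ g ⁻¹' (K ∪ Z)ᶜ) :=
    (hW.isOpen.inter (hK.union hZ1).compl.isOpen).inter
      ((hK.union hZ1).compl.isOpen.preimage g.continuous)
  have hmem : x ∈ W ∩ (K ∪ Z)ᶜ ∩ g ⁻¹' (K ∪ Z)ᶜ := by
    refine ⟨⟨hxW, ?_⟩, ?_⟩
    · rintro (h | h)
      · exact hx h
      · exact Set.disjoint_left.mp hZ4 h (by simp)
    · rintro (h | h)
      · exact hgx h
      · exact Set.disjoint_left.mp hZ4 h (by simp)
  obtain ⟨V, hV1, hV2, hV3⟩ := exists_nhd hopen hmem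
  have HH := good2 hv hs hF hV1 hK h2
    (hWF.mono_left (fun y hy => (hV3 hy).1.1)) hFn
    (Set.disjoint_left.mpr fun y hy hy' => (hV3 hy').1.2 (Or.inl hy)) ?_ ?_
  obtain ⟨t, ht, ht1, ht2⟩ := HH
  · exact ⟨t, ht, V, hV1, hV2, fun y hy => (ht1 y hy).trans (h1 y (hV3 hy).1.1), ht2⟩
  · rw [Set.disjoint_left]
    rintro _ hy ⟨z, hz, rfl⟩
    rw [h1 z (hV3 hz).1.1] at hy
    exact (hV3 hz).2 (Or.inl hy)
  · obtain ⟨z, hz⟩ := hZ2
    refine ⟨z, ?_⟩
    rintro ((h | h) | ⟨y, hy, rfl⟩)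
    · exact hZ3 hz h
    · exact (hV3 h).1.2 (Or.inr hz)
    · rw [h1 y (hV3 hy).1.1] at hz
      exact (hV3 hy).2 (Or.inr hz)

theorem niceAt_mul (hp : Perf X) {G : Subgroup (X ≃ₜ X)} (hv : Vigorous G) {a b : X ≃ₜ X} {x : X}
    (hb : NiceAt G b x) (ha : NiceAt G a (b x)) : NiceAt G (a * b) x := by
  obtain ⟨K, hK1, hK2, _, hK4⟩ := exists_avoid hp isOpen_univ ⟨x, mem_univ x⟩ {x, b x, a (b x)}
    (by simp)
  have hK : x ∉ K ∧ b x ∉ K ∧ a (b x) ∉ K := by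
    refine ⟨fun h => ?_, fun h => ?_, fun h => ?_⟩ <;>
    exact Set.disjoint_left.mp hK4 h (by simp)
  obtain ⟨s, hs, W, hW, hxW, hs1, hs2⟩ := hb.away hp hv hK1 hK.1 hK.2.1
  obtain ⟨t, ht, V, hV, hxV, ht1, ht2⟩ := ha.away hp hv hK1 hK.2.1 hK.2.2
  have hopen : IsOpen (W ∩ Kᶜ ∩ b ⁻¹' V) :=
    (hW.isOpen.inter hK1.compl.isOpen).inter (hV.isOpen.preimage b.continuous)
  obtain ⟨Z, hZ1, hZ2, hZ3⟩ := exists_nhd hopen (show x ∈ W ∩ Kᶜ ∩ b ⁻¹' V from
    ⟨⟨hxW, hK.1⟩, hxV⟩)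
  refine ⟨t * s, mul_mem ht hs, Z, K, hZ1, hZ2, ?_, hK1, hK2, ?_, ?_⟩
  · intro y hy
    rw [mul_ap, mul_ap, hs1 y (hZ3 hy).1.1, ht1 _ (hZ3 hy).2]
  · exact Set.disjoint_left.mpr fun y hy hy' => (hZ3 hy).1.2 hy'
  · intro y hy
    rw [mul_ap, hs2 y hy, ht2 y hy]

/-- In a simple vigorous group all elements are nice everywhere. -/
theorem niceAt_all (hp : Perf X) [Nonempty X] {G : Subgroup (X ≃ₜ X)} (hv : Vigorous G)
    (hs : IsSimpleGroup G)
    {g : X ≃ₜ X} (hg : g ∈ G) (x : X) : NiceAt G g x := by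
  let S : Set G := {s | ∃ F : Set X, IsClopen F ∧ F.Nonempty ∧ ∀ y ∈ F, (s : X ≃ₜ X) y = y}
  have hN : (Subgroup.normalClosure S) = ⊤ := by
    rcases (Subgroup.normalClosure_normal (s := S)).eq_bot_or_eq_top with h | h
    · exfalso
      obtain ⟨V, W, hV, hW, hVn, hWn, hVW, _⟩ := split hp (isClopen_univ (X := X)) Set.univ_nonempty
      obtain ⟨V1, V2, hV1, hV2, hV1n, hV2n, hV12, hVV⟩ := split hp hV hVn
      obtain ⟨γ, hγ, h1, h2⟩ := hv V V1 V2 hV hV1 hV2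
        ⟨by rw [← hVV]; exact Set.subset_union_left, fun h' => by
          obtain ⟨z, hz⟩ := hV2n
          exact Set.disjoint_left.mp hV12 (h' (by rw [← hVV]; exact Or.inr hz)) hz⟩
        ⟨by rw [← hVV]; exact Set.subset_union_right, fun h' => by
          obtain ⟨z, hz⟩ := hV1n
          exact Set.disjoint_left.mp hV12 hz (h' (by rw [← hVV]; exact Or.inl hz))⟩ hV1n hV2n
      have h3 : (⟨γ, hγ⟩ : G) ∈ Subgroup.normalClosure S :=
        Subgroup.subset_normalClosure ⟨W, hW, hWn, fun y hy => h2 y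
          (fun hy' => Set.disjoint_left.mp hVW hy' hy)⟩
      rw [h, Subgroup.mem_bot] at h3
      have h4 : γ = 1 := congrArg Subtype.val h3
      obtain ⟨z, hz⟩ := hV1n
      have h5 : γ z ∈ V2 := h1 ⟨z, hz, rfl⟩
      rw [h4] at h5
      exact Set.disjoint_left.mp hV12 hz h5
    · exact h
  have hall : ∀ s : G, ∀ x, NiceAt G (s : X ≃ₜ X) x := by
    intro s
    have h1 : s ∈ Subgroup.normalClosure S := by rw [hN]; exact Subgroup.mem_top s
    rw [Subgroup.normalClosure] at h1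
    induction h1 using Subgroup.closure_induction with
    | mem t ht =>
      rw [Group.mem_conjugatesOfSet_iff] at ht
      obtain ⟨r, ⟨F, hF, hFn, hfix⟩, hr⟩ := ht
      rw [isConj_iff] at hr
      obtain ⟨c, rfl⟩ := hr
      refine niceAt_of_fix hp (c * r * c⁻¹).2 (F := (c : X ≃ₜ X) '' F) (img_clopen _ hF)
        (hFn.image _) ?_
      rintro _ ⟨y, hy, rfl⟩
      show (c : X ≃ₜ X) ((r : X ≃ₜ X) ((c : X ≃ₜ X)⁻¹ ((c : X ≃ₜ X) y))) = _
      rw [inv_ap, hfix y hy]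
    | one =>
      exact niceAt_of_fix hp (one_mem G) isClopen_univ Set.univ_nonempty (fun y _ => rfl)
    | mul a b _ _ ha hb =>
      intro x
      exact niceAt_mul hp hv (hb x) (ha _)
    | inv a _ ha => exact niceAt_inv ha
  exact hall ⟨g, hg⟩ x

/-- `m` agrees locally on `U` with elements of `G`. -/
def LocG (G : Subgroup (X ≃ₜ X)) (m : X → X) (U : Set X) : Prop :=
  ∀ x ∈ U, ∃ g ∈ G, ∃ V : Set X, IsClopen V ∧ x ∈ V ∧ ∀ y ∈ V ∩ U, m y = g y

theorem LocG.clopen {G : Subgroup (X ≃ₜ X)} {m : X → X} {U : Set X} (h : LocG G m U)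
    (hU : IsClopen U) : IsClopen (m '' U) := by
  refine clopen_ind (fun V => IsClopen (m '' V)) ?_ ?_ hU ?_
  · rw [Set.image_empty]
    exact isClopen_empty
  · intro V W _ _ _ h1 h2
    rw [Set.image_union]
    exact h1.union h2
  · intro x hx
    obtain ⟨g, _, V, hV1, hV2, hV3⟩ := h x hx
    refine ⟨V, hV1, hV2, ?_⟩
    intro W hW hWV hWU
    have h4 : m '' W = g '' W := img_congr fun y hy => hV3 y ⟨hWV hy, hWU hy⟩
    rw [h4]
    exact img_clopen g hW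

/-- Extension of a partial map, with room. -/
theorem ext_room (hp : Perf X) [Nonempty X] {G : Subgroup (X ≃ₜ X)} (hv : Vigorous G)
    (hs : IsSimpleGroup G)
    {K U : Set X} (hK : IsClopen K) (hU : IsClopen U) {m : X → X} (hUK : Disjoint U K)
    (hmK : Disjoint (m '' U) K) (hinj : Set.InjOn m U) (hloc : LocG G m U)
    (hroom : ((U ∪ m '' U ∪ K)ᶜ).Nonempty) :
    ∃ h ∈ G, (∀ x ∈ U, h x = m x) ∧ ∀ x ∈ K, h x = x := by
  have hmU : IsClopen (m '' U) := hloc.clopen hU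
  have hZ : IsClopen (U ∪ m '' U ∪ K)ᶜ := ((hU.union hmU).union hK).compl
  obtain ⟨E, E', hE, hE', hEn, hEn', hEE, hEu⟩ := split hp hZ hroom
  obtain ⟨E1, E2, hE1, hE2, hE1n, hE2n, hE12, hE12u⟩ := split hp hE hEn
  have hEZ : ∀ z ∈ E, z ∉ U ∧ z ∉ m '' U ∧ z ∉ K := by
    intro z hz
    have h1 : z ∈ (U ∪ m '' U ∪ K)ᶜ := by rw [← hEu]; exact Or.inl hz
    exact ⟨fun h => h1 (Or.inl (Or.inl h)), fun h => h1 (Or.inl (Or.inr h)),
      fun h => h1 (Or.inr h)⟩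
  have hEZ' : ∀ z ∈ E', z ∉ U ∧ z ∉ m '' U ∧ z ∉ K := by
    intro z hz
    have h1 : z ∈ (U ∪ m '' U ∪ K)ᶜ := by rw [← hEu]; exact Or.inr hz
    exact ⟨fun h => h1 (Or.inl (Or.inl h)), fun h => h1 (Or.inl (Or.inr h)),
      fun h => h1 (Or.inr h)⟩
  have hE1E : E1 ⊆ E := by rw [← hE12u]; exact Set.subset_union_left
  have hE2E : E2 ⊆ E := by rw [← hE12u]; exact Set.subset_union_right
  obtain ⟨e, he, he1, he2⟩ := hv.push (A := E ∪ U) (B := U) (D := E1) (hE.union hU) hU hE1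
    Set.subset_union_right (hE1E.trans Set.subset_union_left) hE1n
    (by obtain ⟨z, hz⟩ := hEn; exact ⟨z, Or.inl hz, (hEZ z hz).1⟩)
    (by obtain ⟨z, hz⟩ := hE2n
        exact ⟨z, Or.inl (hE2E hz), fun h => Set.disjoint_left.mp hE12 h hz⟩)
  have heE : ∀ x ∈ U, e x ∈ E1 := fun x hx => he1 ⟨x, hx, rfl⟩
  have heE' : ∀ x ∈ E', e x = x := by
    intro x hx
    apply he2
    rintro (h | h)
    · exact Set.disjoint_left.mp hEE h hx
    · exact (hEZ' x hx).1 h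
  have heK : ∀ x ∈ K, e x = x := by
    intro x hx
    apply he2
    rintro (h | h)
    · exact (hEZ x h).2.2 hx
    · exact Set.disjoint_left.mp hUK h hx
  -- the inductive statement
  have key : (fun W : Set X => W ⊆ U → ∃ h ∈ G, (∀ x ∈ W, h (e x) = m x) ∧ (∀ x ∈ K, h x = x) ∧
      (∀ x ∈ U \ W, h (e x) = e x) ∧ ∀ x ∈ U \ W, h (m x) = m x) U := by
    apply clopen_ind (fun W : Set X => W ⊆ U → ∃ h ∈ G, (∀ x ∈ W, h (e x) = m x) ∧
      (∀ x ∈ K, h x = x) ∧ (∀ x ∈ U \ W, h (e x) = e x) ∧ ∀ x ∈ U \ W, h (m x) = m x) ?_ ?_ hU ?_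
    · intro _
      exact ⟨1, one_mem _, fun x hx => absurd hx (Set.notMem_empty x), fun x _ => rfl,
        fun x _ => rfl, fun x _ => rfl⟩
    · intro V W _ _ hVW hV hW hVWU
      obtain ⟨h1, hh1, a1, a2, a3, a4⟩ := hV (Set.subset_union_left.trans hVWU)
      obtain ⟨h2, hh2, b1, b2, b3, b4⟩ := hW (Set.subset_union_right.trans hVWU)
      refine ⟨h1 * h2, mul_mem hh1 hh2, ?_, ?_, ?_, ?_⟩
      · rintro x (hx | hx)
        · have h3 : x ∉ W := fun h => Set.disjoint_left.mp hVW hx h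
          rw [mul_ap, b3 x ⟨hVWU (Or.inl hx), h3⟩, a1 x hx]
        · have h3 : x ∉ V := fun h => Set.disjoint_left.mp hVW h hx
          rw [mul_ap, b1 x hx, a4 x ⟨hVWU (Or.inr hx), h3⟩]
      · intro x hx
        rw [mul_ap, b2 x hx, a2 x hx]
      · rintro x ⟨hx, hx'⟩
        rw [mul_ap, b3 x ⟨hx, fun h => hx' (Or.inr h)⟩, a3 x ⟨hx, fun h => hx' (Or.inl h)⟩]
      · rintro x ⟨hx, hx'⟩
        rw [mul_ap, b4 x ⟨hx, fun h => hx' (Or.inr h)⟩, a4 x ⟨hx, fun h => hx' (Or.inl h)⟩]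
    · intro x hx
      obtain ⟨g, hg, V, hV, hxV, hVm⟩ := hloc x hx
      have hmx : m x = g x := hVm x ⟨hxV, hx⟩
      -- an element acting as `g` near `x` and trivially on `E'`
      obtain ⟨s, hs', W, hW, hxW, hs1, hs2⟩ := (niceAt_all hp hv hs hg x).away hp hv hE'
        (fun h => (hEZ' x h).1 hx) (fun h => (hEZ' (g x) h).2.1 ⟨x, hx, hmx⟩)
      refine ⟨V ∩ W, hV.inter hW, ⟨hxV, hxW⟩, ?_⟩
      intro P hP hPV hPU _
      have hPs : ∀ y ∈ P, s y = m y := fun y hy => by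
        rw [hs1 y (hPV hy).2, hVm y ⟨(hPV hy).1, hPU hy⟩]
      have hUP : IsClopen (U \ P) := hU.diff hP
      have hlocP : LocG G m (U \ P) := by
        intro y hy
        obtain ⟨g', hg', V', h1, h2, h3⟩ := hloc y hy.1
        exact ⟨g', hg', V', h1, h2, fun z hz => h3 z ⟨hz.1, hz.2.1⟩⟩
      have hcl : IsClopen (K ∪ e '' (U \ P) ∪ m '' (U \ P)) :=
        (hK.union (img_clopen e hUP)).union (hlocP.clopen hUP)
      have him : (s * e⁻¹) '' (e '' P) = m '' P := by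
        rw [← img_mul, inv_mul_cancel_right]
        exact img_congr hPs
      have HH := good2 hv (s := s * e⁻¹) (mul_mem hs' (inv_mem he)) (F := E')
        (U := e '' P) (K := K ∪ e '' (U \ P) ∪ m '' (U \ P)) hE' (img_clopen e hP) hcl
        ?_ ?_ hEn' ?_ ?_ ?_
      obtain ⟨h, hh, c1, c2⟩ := HH
      · refine ⟨h, hh, ?_, ?_, ?_, ?_⟩
        · intro y hy
          rw [c1 _ ⟨y, hy, rfl⟩, mul_ap, inv_ap, hPs y hy]
        · intro y hy
          exact c2 y (Or.inl (Or.inl hy))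
        · intro y hy
          exact c2 _ (Or.inl (Or.inr ⟨y, hy, rfl⟩))
        · intro y hy
          exact c2 _ (Or.inr ⟨y, hy, rfl⟩)
      · intro y hy
        rw [mul_ap, inv_eq e (heE' y hy), hs2 y hy]
      · rw [Set.disjoint_left]
        rintro _ ⟨y, hy, rfl⟩ h
        exact Set.disjoint_left.mp hEE (hE1E (heE y (hPU hy))) h
      · rw [Set.disjoint_left]
        rintro z hz ⟨y, hy, rfl⟩
        have h5 := hE1E (heE y (hPU hy))
        rcases hz with (h | ⟨w, hw, hw'⟩) | h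
        · exact (hEZ _ h5).2.2 h
        · have := ap_inj e hw'
          rw [this] at hw
          exact hw.2 hy
        · exact (hEZ _ h5).2.1 (Set.image_mono Set.sdiff_subset h)
      · rw [him, Set.disjoint_left]
        rintro z hz ⟨y, hy, rfl⟩
        rcases hz with (h | ⟨w, hw, hw'⟩) | ⟨w, hw, hw'⟩
        · exact Set.disjoint_left.mp hmK ⟨y, hPU hy, rfl⟩ h
        · have h5 := hE1E (heE w hw.1)
          rw [hw'] at h5
          exact (hEZ _ h5).2.1 ⟨y, hPU hy, rfl⟩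
        · have := hinj hw.1 (hPU hy) hw'
          rw [this] at hw
          exact hw.2 hy
      · rw [him]
        obtain ⟨z, hz⟩ := hE2n
        have h5 := hEZ z (hE2E hz)
        refine ⟨z, ?_⟩
        rintro (((((h | ⟨w, hw, hw'⟩) | h) | ⟨w, hw, hw'⟩)) | h)
        · exact h5.2.2 h
        · have h6 := heE w hw.1
          rw [hw'] at h6
          exact Set.disjoint_left.mp hE12 h6 hz
        · exact h5.2.1 (Set.image_mono Set.sdiff_subset h)
        · have h6 := heE w (hPU hw)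
          rw [hw'] at h6
          exact Set.disjoint_left.mp hE12 h6 hz
        · exact h5.2.1 (Set.image_mono hPU h)
  obtain ⟨h, hh, h1, h2, _, _⟩ := key le_rfl
  refine ⟨h * e, mul_mem hh he, fun x hx => ?_, fun x hx => ?_⟩
  · rw [mul_ap, h1 x hx]
  · rw [mul_ap, heK x hx, h2 x hx]

/-- Extension of a partial map between proper clopen subsets of the complement of `K`. -/
theorem ext_main (hp : Perf X) [Nonempty X] {G : Subgroup (X ≃ₜ X)} (hv : Vigorous G)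
    (hs : IsSimpleGroup G)
    {K U : Set X} (hK : IsClopen K) (hU : IsClopen U) {m : X → X} (hUK : Disjoint U K)
    (hmK : Disjoint (m '' U) K) (hinj : Set.InjOn m U) (hloc : LocG G m U)
    (h1 : ((U ∪ K)ᶜ).Nonempty) (h2 : ((m '' U ∪ K)ᶜ).Nonempty) :
    ∃ h ∈ G, (∀ x ∈ U, h x = m x) ∧ ∀ x ∈ K, h x = x := by
  by_cases hUn : U.Nonempty
  · have hmU : IsClopen (m '' U) := hloc.clopen hU
    obtain ⟨E1, E2, hE1, hE2, hE1n, hE2n, hE12, hEu⟩ := split hp (hmU.union hK).compl h2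
    have hE1' : ∀ z ∈ E1, z ∉ m '' U ∧ z ∉ K := by
      intro z hz
      have h3 : z ∈ (m '' U ∪ K)ᶜ := by rw [← hEu]; exact Or.inl hz
      exact ⟨fun h => h3 (Or.inl h), fun h => h3 (Or.inr h)⟩
    have hE2' : ∀ z ∈ E2, z ∉ m '' U ∧ z ∉ K := by
      intro z hz
      have h3 : z ∈ (m '' U ∪ K)ᶜ := by rw [← hEu]; exact Or.inr hz
      exact ⟨fun h => h3 (Or.inl h), fun h => h3 (Or.inr h)⟩
    obtain ⟨e, he, he1, he2⟩ := hv.push (A := Kᶜ) (B := U) (D := E1) hK.compl hU hE1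
      (fun z hz h => Set.disjoint_left.mp hUK hz h) (fun z hz => (hE1' z hz).2) hE1n
      (by obtain ⟨z, hz⟩ := h1
          exact ⟨z, fun h => hz (Or.inr h), fun h => hz (Or.inl h)⟩)
      (by obtain ⟨z, hz⟩ := hE2n
          exact ⟨z, (hE2' z hz).2, fun h => Set.disjoint_left.mp hE12 h hz⟩)
    have heE : ∀ x ∈ U, e x ∈ E1 := fun x hx => he1 ⟨x, hx, rfl⟩
    have heK : ∀ x ∈ K, e x = x := fun x hx => he2 x (fun h => h hx)
    have him : (fun y => m (e⁻¹ y)) '' (e '' U) = m '' U := by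
      rw [Set.image_image]
      apply img_congr
      intro x _
      rw [inv_ap]
    have HH := ext_room hp hv hs (K := K) (U := e '' U) (m := fun y => m (e⁻¹ y))
      hK (img_clopen e hU) ?_ ?_ ?_ ?_ ?_
    obtain ⟨h, hh, c1, c2⟩ := HH
    · refine ⟨h * e, mul_mem hh he, fun x hx => ?_, fun x hx => ?_⟩
      · rw [mul_ap, c1 _ ⟨x, hx, rfl⟩, inv_ap]
      · rw [mul_ap, heK x hx, c2 x hx]
    · rw [Set.disjoint_left]
      rintro _ ⟨y, hy, rfl⟩ h
      exact (hE1' _ (heE y hy)).2 h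
    · rw [him]
      exact hmK
    · rintro _ ⟨x, hx, rfl⟩ _ ⟨y, hy, rfl⟩ h
      simp only [inv_ap] at h
      rw [hinj hx hy h]
    · rintro _ ⟨x, hx, rfl⟩
      obtain ⟨g, hg, V, hV, hxV, hVm⟩ := hloc x hx
      refine ⟨g * e⁻¹, mul_mem hg (inv_mem he), e '' V, img_clopen e hV, ⟨x, hxV, rfl⟩, ?_⟩
      rintro _ ⟨⟨y, hy, rfl⟩, ⟨z, hz, hz'⟩⟩
      have := ap_inj e hz'
      rw [this] at hz
      rw [mul_ap, inv_ap]
      show m (e⁻¹ (e y)) = g y
      rw [inv_ap, hVm y ⟨hy, hz⟩]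
    · rw [him]
      obtain ⟨z, hz⟩ := hE2n
      refine ⟨z, ?_⟩
      rintro ((⟨w, hw, hw'⟩ | h) | h)
      · have h6 := heE w hw
        rw [hw'] at h6
        exact Set.disjoint_left.mp hE12 h6 hz
      · exact (hE2' z hz).1 h
      · exact (hE2' z hz).2 h
  · rw [Set.not_nonempty_iff_eq_empty] at hUn
    exact ⟨1, one_mem _, by rw [hUn]; intro x hx; exact absurd hx (Set.notMem_empty x),
      fun x _ => rfl⟩

end Pool.Agent.Lib.Pe4017d
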