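import Pool.Agent.Lib.Pe4017d.Cyc

set_option autoImplicit false
set_option linter.unusedSectionVars false

/-!
A finite set of three-cycles in a small clopen set which generates all three-cycles there.
-/

namespace Pool.Agent.Lib.Pe4017d

open Set

theorem mem_closure_finite {G : Type*} [Group G] {S : Set G} {x : G}
    (hx : x ∈ Subgroup.closure S) : ∃ F : Set G, F.Finite ∧ F ⊆ S ∧ x ∈ Subgroup.closure F := by
  induction hx using Subgroup.closure_induction with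
  | mem x hx => exact ⟨{x}, Set.finite_singleton x, by simpa using hx,
      Subgroup.subset_closure (Set.mem_singleton x)⟩
  | one => exact ⟨∅, Set.finite_empty, Set.empty_subset _, one_mem _⟩
  | mul x y _ _ hx hy =>
    obtain ⟨F, h1, h2, h3⟩ := hx
    obtain ⟨F', h1', h2', h3'⟩ := hy
    exact ⟨F ∪ F', h1.union h1', Set.union_subset h2 h2', mul_mem
      (Subgroup.closure_mono Set.subset_union_left h3)
      (Subgroup.closure_mono Set.subset_union_right h3')⟩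
  | inv x _ hx =>
    obtain ⟨F, h1, h2, h3⟩ := hx
    exact ⟨F, h1, h2, inv_mem h3⟩

theorem fg_subset {G : Type*} [Group G] {S : Set G} {P : Subgroup G} (hP : P.FG)
    (h : P ≤ Subgroup.closure S) : ∃ F : Set G, F.Finite ∧ F ⊆ S ∧ P ≤ Subgroup.closure F := by
  obtain ⟨T, hT⟩ := hP
  have h1 : ∀ x : T, ∃ F : Set G, F.Finite ∧ F ⊆ S ∧ (x : G) ∈ Subgroup.closure F := by
    intro x
    apply mem_closure_finite
    apply h
    rw [← hT]
    exact Subgroup.subset_closure x.2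
  choose F hF1 hF2 hF3 using h1
  refine ⟨⋃ x : T, F x, Set.finite_iUnion hF1, Set.iUnion_subset hF2, ?_⟩
  rw [← hT, Subgroup.closure_le]
  intro x hx
  exact Subgroup.closure_mono (Set.subset_iUnion F ⟨x, hx⟩) (hF3 ⟨x, hx⟩)

variable {X : Type*} [TopologicalSpace X] [CompactSpace X] [T2Space X] [TotallyDisconnectedSpace X]

/-- Three-cycles all of whose pieces are in one of the two sets `A true`, `A false`. -/
def Tsm (G : Subgroup (X ≃ₜ X)) (A : Bool → Set X) : Set (X ≃ₜ X) :=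
  {τ | ∃ (i j k : Bool) (U : Set X) (a b : X ≃ₜ X), IsClopen U ∧ a ∈ G ∧ b ∈ G ∧ Dis3 a b U ∧
    U ⊆ A i ∧ a '' U ⊆ A j ∧ b '' U ⊆ A k ∧ IsCyc τ a b U}

theorem le_closure_Tsm (hp : Perf X) [Nonempty X] {G : Subgroup (X ≃ₜ X)} (hv : Vigorous G)
    (hs : IsSimpleGroup G) {A : Bool → Set X} (hA : ∀ i, IsClopen (A i))
    (hcov : ∀ x, ∃ i, x ∈ A i) : G ≤ Subgroup.closure (Tsm G A) := by
  apply le_of_Tset hp hv hs
  rintro τ ⟨U, a, b, hU, ha, hb, hd, _, _, _, hc⟩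
  have h1 := cyc_local (H := Subgroup.closure (Tsm G A)) hU hd ?_
  · obtain ⟨ω, hω, hω'⟩ := h1
    rw [hc.unique hω']
    exact hω
  · intro x _
    obtain ⟨i, hi⟩ := hcov x
    obtain ⟨j, hj⟩ := hcov (a x)
    obtain ⟨k, hk⟩ := hcov (b x)
    obtain ⟨V, hV1, hV2, hV3, hV4, hV5⟩ := nhd3 (a := a) (b := b) (hA i).isOpen (hA j).isOpen
      (hA k).isOpen hi hj hk
    refine ⟨V, hV1, hV2, ?_⟩
    intro W hW hWV hWU
    obtain ⟨ω, _, hω'⟩ := cyc_mem hp hv hs ha hb hW (hd.mono hWU)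
    refine ⟨ω, Subgroup.subset_closure ?_, hω'⟩
    exact ⟨i, j, k, W, a, b, hW, ha, hb, hd.mono hWU, hWV.trans hV3,
      (Set.image_mono hWV).trans hV4, (Set.image_mono hWV).trans hV5, hω'⟩

/-- A list of three-cycles indexed by the natural numbers. -/
structure CycData (G : Subgroup (X ≃ₜ X)) (C' : Set X) where
  /-- first piece -/
  Z : ℕ → Set X
  /-- map to the second piece -/
  y : ℕ → (X ≃ₜ X)
  /-- map to the third piece -/
  w : ℕ → (X ≃ₜ X)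
  hZ : ∀ s, IsClopen (Z s)
  hy : ∀ s, y s ∈ G
  hw : ∀ s, w s ∈ G
  hd : ∀ s, Dis3 (y s) (w s) (Z s)
  hZC : ∀ s, Z s ⊆ C'
  hyC : ∀ s, (y s) '' (Z s) ⊆ C'
  hwC : ∀ s, (w s) '' (Z s) ⊆ C'

/-- Finite generation of the three-cycles in a small set. -/
theorem exists_encoding (hp : Perf X) [Nonempty X] {G : Subgroup (X ≃ₜ X)} (hv : Vigorous G)
    (hs : IsSimpleGroup G) (hfg : G.FG) {C₀ : Set X} (hC₀ : IsClopen C₀) (hne : C₀.Nonempty) :
    ∃ C' : Set X, IsClopen C' ∧ C'.Nonempty ∧ C' ⊆ C₀ ∧ ∃ (M : ℕ) (D : CycData G C'),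
      ∀ H : Subgroup (X ≃ₜ X), (∀ s, s < M → ∀ τ, IsCyc τ (D.y s) (D.w s) (D.Z s) → τ ∈ H) →
        ∀ τ ∈ Tset G C', τ ∈ H := by
  -- the two halves
  obtain ⟨A0, A1, hA0, hA1, hA0n, hA1n, hA01, hAu⟩ := split hp (isClopen_univ (X := X))
    Set.univ_nonempty
  obtain ⟨B0, B1, hB0, hB1, hB0n, hB1n, hB01, hBu⟩ := split hp hC₀ hne
  -- we may assume that the halves B are proper
  have hpush : ∀ A A' B B' : Set X, IsClopen A → IsClopen B → A'.Nonempty → B.Nonempty →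
      B'.Nonempty → Disjoint A A' → Disjoint B B' → ∃ a ∈ G, a '' A ⊆ B := by
    intro A A' B B' hA hB hA' hBn hB' h1 h2
    have h3 := hv.push (A := univ) (B := A) (D := B) isClopen_univ hA hB
      (Set.subset_univ _) (Set.subset_univ _) hBn ?_ ?_
    · obtain ⟨a, ha, h3, _⟩ := h3
      exact ⟨a, ha, h3⟩
    · obtain ⟨z, hz⟩ := hA'
      exact ⟨z, mem_univ z, fun h => Set.disjoint_left.mp h1 h hz⟩
    · obtain ⟨z, hz⟩ := hB'
      exact ⟨z, mem_univ z, fun h => Set.disjoint_left.mp h2 h hz⟩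
  obtain ⟨e0, he0, he0'⟩ := hpush A0 A1 B0 B1 hA0 hB0 hA1n hB0n hB1n hA01 hB01
  obtain ⟨e1, he1, he1'⟩ := hpush A1 A0 B1 B0 hA1 hB1 hA0n hB1n hB0n hA01.symm hB01.symm
  let A : Bool → Set X := fun i => cond i A1 A0
  let e : Bool → (X ≃ₜ X) := fun i => cond i e1 e0
  have hA : ∀ i, IsClopen (A i) := by rintro (_ | _) <;> assumption
  have he : ∀ i, e i ∈ G := by rintro (_ | _) <;> assumption
  have hcov : ∀ x, ∃ i, x ∈ A i := by
    intro x
    have := Set.mem_univ x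
    rw [← hAu] at this
    rcases this with h | h
    · exact ⟨false, h⟩
    · exact ⟨true, h⟩
  have hAdis : ∀ i j x, x ∈ A i → x ∈ A j → i = j := by
    rintro (_ | _) (_ | _) x h1 h2
    · rfl
    · exact absurd h2 (Set.disjoint_left.mp hA01 h1)
    · exact absurd h1 (Set.disjoint_left.mp hA01 h2)
    · rfl
  have heinj : ∀ i j x y, x ∈ A i → y ∈ A j → e i x = e j y → i = j ∧ x = y := by
    rintro (_ | _) (_ | _) x y h1 h2 h3
    · exact ⟨rfl, ap_inj _ h3⟩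
    · have h4 : e0 x ∈ B0 := he0' ⟨x, h1, rfl⟩
      have h5 : e1 y ∈ B1 := he1' ⟨y, h2, rfl⟩
      have h6 : e0 x = e1 y := h3
      rw [h6] at h4
      exact absurd h5 (Set.disjoint_left.mp hB01 h4)
    · have h4 : e1 x ∈ B1 := he1' ⟨x, h1, rfl⟩
      have h5 : e0 y ∈ B0 := he0' ⟨y, h2, rfl⟩
      have h6 : e1 x = e0 y := h3
      rw [h6] at h4
      exact absurd h4 (Set.disjoint_left.mp hB01 h5)
    · exact ⟨rfl, ap_inj _ h3⟩
  -- the compressed copy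
  let C' : Set X := (e false) '' (A false) ∪ (e true) '' (A true)
  have hC' : IsClopen C' := (img_clopen _ (hA _)).union (img_clopen _ (hA _))
  have hC'mem : ∀ i, ∀ x ∈ A i, e i x ∈ C' := by
    rintro (_ | _) x hx
    · exact Or.inl ⟨x, hx, rfl⟩
    · exact Or.inr ⟨x, hx, rfl⟩
  have hC'mem' : ∀ z ∈ C', ∃ i, ∃ x ∈ A i, e i x = z := by
    rintro z (⟨x, hx, rfl⟩ | ⟨x, hx, rfl⟩)
    · exact ⟨false, x, hx, rfl⟩
    · exact ⟨true, x, hx, rfl⟩
  have hC'C : C' ⊆ C₀ := by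
    rw [← hBu]
    exact Set.union_subset_union he0' he1'
  refine ⟨C', hC', ?_, hC'C, ?_⟩
  · obtain ⟨z, hz⟩ := hA0n
    exact ⟨e0 z, Or.inl ⟨z, hz, rfl⟩⟩
  -- finite generating set of small cycles
  obtain ⟨F, hF1, hF2, hF3⟩ := fg_subset hfg (le_closure_Tsm hp hv hs hA hcov)
  have hdata : ∀ τ : F, ∃ (i j k : Bool) (U : Set X) (a b : X ≃ₜ X), IsClopen U ∧ a ∈ G ∧ b ∈ G ∧
    Dis3 a b U ∧ U ⊆ A i ∧ a '' U ⊆ A j ∧ b '' U ⊆ A k ∧ IsCyc τ a b U := fun τ => hF2 τ.2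
  choose ii jj kk UU aa bb d1 d2 d3 d4 d5 d6 d7 d8 using hdata
  have : Finite F := hF1
  obtain ⟨M, ⟨f⟩⟩ := Finite.exists_equiv_fin F
  -- pieces
  let ZF : F → Set X := fun τ => (e (ii τ)) '' (UU τ)
  let yF : F → (X ≃ₜ X) := fun τ => e (jj τ) * aa τ * (e (ii τ))⁻¹
  let wF : F → (X ≃ₜ X) := fun τ => e (kk τ) * bb τ * (e (ii τ))⁻¹
  have hyF : ∀ τ, (yF τ) '' (ZF τ) = (e (jj τ)) '' (aa τ '' UU τ) := by
    intro τ
    show (e (jj τ) * aa τ * (e (ii τ))⁻¹) '' ((e (ii τ)) '' (UU τ)) = _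
    rw [← img_mul, inv_mul_cancel_right, img_mul]
  have hwF : ∀ τ, (wF τ) '' (ZF τ) = (e (kk τ)) '' (bb τ '' UU τ) := by
    intro τ
    show (e (kk τ) * bb τ * (e (ii τ))⁻¹) '' ((e (ii τ)) '' (UU τ)) = _
    rw [← img_mul, inv_mul_cancel_right, img_mul]
  have hDF : ∀ τ, Dis3 (yF τ) (wF τ) (ZF τ) := by
    intro τ
    unfold Dis3
    rw [hyF, hwF]
    refine ⟨?_, ?_, ?_⟩
    · rw [Set.disjoint_left]
      rintro _ ⟨x, hx, rfl⟩ ⟨y, hy, hxy⟩
      have h1 := (heinj _ _ _ _ (d6 τ hy) (d5 τ hx) hxy).2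
      rw [h1] at hy
      exact Set.disjoint_left.mp (d4 τ).1 hx hy
    · rw [Set.disjoint_left]
      rintro _ ⟨x, hx, rfl⟩ ⟨y, hy, hxy⟩
      have h1 := (heinj _ _ _ _ (d7 τ hy) (d5 τ hx) hxy).2
      rw [h1] at hy
      exact Set.disjoint_left.mp (d4 τ).2.1 hx hy
    · rw [Set.disjoint_left]
      rintro _ ⟨x, hx, rfl⟩ ⟨y, hy, hxy⟩
      have h1 := (heinj _ _ _ _ (d7 τ hy) (d6 τ hx) hxy).2
      rw [h1] at hy
      exact Set.disjoint_left.mp (d4 τ).2.2 hx hy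
  let D : CycData G C' :=
    { Z := fun s => if h : s < M then ZF (f.symm ⟨s, h⟩) else ∅
      y := fun s => if h : s < M then yF (f.symm ⟨s, h⟩) else 1
      w := fun s => if h : s < M then wF (f.symm ⟨s, h⟩) else 1
      hZ := by
        intro s
        split_ifs with h
        · exact img_clopen _ (d1 _)
        · exact isClopen_empty
      hy := by
        intro s
        split_ifs with h
        · exact mul_mem (mul_mem (he _) (d2 _)) (inv_mem (he _))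
        · exact one_mem G
      hw := by
        intro s
        split_ifs with h
        · exact mul_mem (mul_mem (he _) (d3 _)) (inv_mem (he _))
        · exact one_mem G
      hd := by
        intro s
        split_ifs with h
        · exact hDF _
        · refine ⟨?_, ?_, ?_⟩ <;> simp
      hZC := by
        intro s
        split_ifs with h
        · rintro _ ⟨x, hx, rfl⟩
          exact hC'mem _ x (d5 _ hx)
        · exact Set.empty_subset _
      hyC := by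
        intro s
        split_ifs with h
        · rw [hyF]
          rintro _ ⟨x, hx, rfl⟩
          exact hC'mem _ x (d6 _ hx)
        · simp
      hwC := by
        intro s
        split_ifs with h
        · rw [hwF]
          rintro _ ⟨x, hx, rfl⟩
          exact hC'mem _ x (d7 _ hx)
        · simp }
  refine ⟨M, D, ?_⟩
  intro H hH
  have hHF : ∀ (τ : F) (ω : X ≃ₜ X), IsCyc ω (yF τ) (wF τ) (ZF τ) → ω ∈ H := by
    intro τ ω hω
    have h1 := hH (f τ) (f τ).2 ω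
    have hlt : ((f τ : Fin M) : ℕ) < M := (f τ).2
    have e1 : D.y (f τ) = yF τ := by
      show (if h : ((f τ : Fin M) : ℕ) < M then yF (f.symm ⟨(f τ : Fin M), h⟩) else 1) = _
      rw [dif_pos hlt]
      simp
    have e2 : D.w (f τ) = wF τ := by
      show (if h : ((f τ : Fin M) : ℕ) < M then wF (f.symm ⟨(f τ : Fin M), h⟩) else 1) = _
      rw [dif_pos hlt]
      simp
    have e3 : D.Z (f τ) = ZF τ := by
      show (if h : ((f τ : Fin M) : ℕ) < M then ZF (f.symm ⟨(f τ : Fin M), h⟩) else ∅) = _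
      rw [dif_pos hlt]
      simp
    rw [e1, e2, e3] at h1
    exact h1 hω
  -- compressed elements
  let Q : (X ≃ₜ X) → Prop := fun u => ∃ ω ∈ H, (∀ i j, ∀ x ∈ A i, u x ∈ A j → ω (e i x) = e j (u x)) ∧
    ∀ z, z ∉ C' → ω z = z
  have hQ : ∀ u ∈ G, Q u := by
    intro u hu
    have h1 := hF3 hu
    induction h1 using Subgroup.closure_induction with
    | mem τ hτ =>
      -- the compressed three-cycle
      have hd := hDF ⟨τ, hτ⟩
      obtain ⟨ω, _, hω⟩ := cyc_mem hp hv hs (a := yF ⟨τ, hτ⟩) (b := wF ⟨τ, hτ⟩)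
        (mul_mem (mul_mem (he _) (d2 _)) (inv_mem (he _)))
        (mul_mem (mul_mem (he _) (d3 _)) (inv_mem (he _)))
        (img_clopen (e (ii ⟨τ, hτ⟩)) (d1 ⟨τ, hτ⟩)) hd
      refine ⟨ω, hHF ⟨τ, hτ⟩ ω hω, ?_, ?_⟩
      · intro i j x hx hux
        have hcyc := d8 ⟨τ, hτ⟩
        by_cases c1 : x ∈ UU ⟨τ, hτ⟩
        · have hi : i = ii ⟨τ, hτ⟩ := hAdis _ _ x hx (d5 _ c1)
          rw [hi, hω.1 _ ⟨x, c1, rfl⟩]
          have hux' : τ x = aa ⟨τ, hτ⟩ x := hcyc.1 x c1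
          rw [hux'] at hux ⊢
          have hj : j = jj ⟨τ, hτ⟩ := hAdis _ _ _ hux (d6 _ ⟨x, c1, rfl⟩)
          rw [hj]
          show (e (jj ⟨τ, hτ⟩) * aa ⟨τ, hτ⟩ * (e (ii ⟨τ, hτ⟩))⁻¹) _ = _
          rw [mul_ap, mul_ap, inv_ap]
        · by_cases c2 : x ∈ aa ⟨τ, hτ⟩ '' UU ⟨τ, hτ⟩
          · obtain ⟨z, hz, rfl⟩ := c2
            have hi : i = jj ⟨τ, hτ⟩ := hAdis _ _ _ hx (d6 _ ⟨z, hz, rfl⟩)
            have hux' : τ (aa ⟨τ, hτ⟩ z) = bb ⟨τ, hτ⟩ z := hcyc.2.1 z hz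
            rw [hux'] at hux ⊢
            have hj : j = kk ⟨τ, hτ⟩ := hAdis _ _ _ hux (d7 _ ⟨z, hz, rfl⟩)
            have h5 := hω.2.1 _ ⟨z, hz, rfl⟩
            have h6 : (yF ⟨τ, hτ⟩) (e (ii ⟨τ, hτ⟩) z) = e (jj ⟨τ, hτ⟩) (aa ⟨τ, hτ⟩ z) := by
              show (e (jj ⟨τ, hτ⟩) * aa ⟨τ, hτ⟩ * (e (ii ⟨τ, hτ⟩))⁻¹) _ = _
              rw [mul_ap, mul_ap, inv_ap]
            have h7 : (wF ⟨τ, hτ⟩) (e (ii ⟨τ, hτ⟩) z) = e (kk ⟨τ, hτ⟩) (bb ⟨τ, hτ⟩ z) := by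
              show (e (kk ⟨τ, hτ⟩) * bb ⟨τ, hτ⟩ * (e (ii ⟨τ, hτ⟩))⁻¹) _ = _
              rw [mul_ap, mul_ap, inv_ap]
            rw [hi, hj, ← h6, h5, h7]
          · by_cases c3 : x ∈ bb ⟨τ, hτ⟩ '' UU ⟨τ, hτ⟩
            · obtain ⟨z, hz, rfl⟩ := c3
              have hi : i = kk ⟨τ, hτ⟩ := hAdis _ _ _ hx (d7 _ ⟨z, hz, rfl⟩)
              have hux' : τ (bb ⟨τ, hτ⟩ z) = z := hcyc.2.2.1 z hz
              rw [hux'] at hux ⊢
              have hj : j = ii ⟨τ, hτ⟩ := hAdis _ _ _ hux (d5 _ hz)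
              have h5 := hω.2.2.1 _ ⟨z, hz, rfl⟩
              have h7 : (wF ⟨τ, hτ⟩) (e (ii ⟨τ, hτ⟩) z) = e (kk ⟨τ, hτ⟩) (bb ⟨τ, hτ⟩ z) := by
                show (e (kk ⟨τ, hτ⟩) * bb ⟨τ, hτ⟩ * (e (ii ⟨τ, hτ⟩))⁻¹) _ = _
                rw [mul_ap, mul_ap, inv_ap]
              rw [hi, hj, ← h7, h5]
            · have hux' : τ x = x := hcyc.2.2.2 x c1 c2 c3
              rw [hux'] at hux ⊢
              have hij : i = j := hAdis _ _ _ hx hux
              rw [← hij]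
              apply hω.2.2.2
              · rintro ⟨z, hz, hz'⟩
                have h5 := (heinj _ _ _ _ (d5 _ hz) hx hz').2
                exact c1 (h5 ▸ hz)
              · rw [hyF]
                rintro ⟨z, hz, hz'⟩
                have h5 := (heinj _ _ _ _ (d6 _ hz) hx hz').2
                exact c2 (h5 ▸ hz)
              · rw [hwF]
                rintro ⟨z, hz, hz'⟩
                have h5 := (heinj _ _ _ _ (d7 _ hz) hx hz').2
                exact c3 (h5 ▸ hz)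
      · intro z hz
        apply hω.2.2.2
        · rintro ⟨x, hx, rfl⟩
          exact hz (hC'mem _ x (d5 _ hx))
        · rw [hyF]
          rintro ⟨x, hx, rfl⟩
          exact hz (hC'mem _ x (d6 _ hx))
        · rw [hwF]
          rintro ⟨x, hx, rfl⟩
          exact hz (hC'mem _ x (d7 _ hx))
    | one =>
      refine ⟨1, one_mem H, ?_, fun z _ => rfl⟩
      intro i j x hx hux
      rw [one_ap] at hux
      rw [one_ap, one_ap, hAdis _ _ _ hx hux]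
    | mul u v hu' hv' h1 h2 =>
      have hclG : Subgroup.closure F ≤ G := by
        rw [Subgroup.closure_le]
        intro τ hτ
        have h8 := d8 ⟨τ, hτ⟩
        obtain ⟨ω, hω, hω'⟩ := cyc_mem hp hv hs (d2 ⟨τ, hτ⟩) (d3 ⟨τ, hτ⟩) (d1 ⟨τ, hτ⟩) (d4 ⟨τ, hτ⟩)
        have h9 : τ = ω := h8.unique hω'
        rw [h9]
        exact hω
      obtain ⟨ω1, a1, a2, a3⟩ := h1 (hclG hu')
      obtain ⟨ω2, b1, b2, b3⟩ := h2 (hclG hv')
      refine ⟨ω1 * ω2, mul_mem a1 b1, ?_, ?_⟩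
      · intro i j x hx hux
        rw [mul_ap] at hux
        obtain ⟨k, hk⟩ := hcov (v x)
        rw [mul_ap, mul_ap, b2 i k x hx hk, a2 k j _ hk hux]
      · intro z hz
        rw [mul_ap, b3 z hz, a3 z hz]
    | inv u hu' h1 =>
      have hclG : Subgroup.closure F ≤ G := by
        rw [Subgroup.closure_le]
        intro τ hτ
        have h8 := d8 ⟨τ, hτ⟩
        obtain ⟨ω, hω, hω'⟩ := cyc_mem hp hv hs (d2 ⟨τ, hτ⟩) (d3 ⟨τ, hτ⟩) (d1 ⟨τ, hτ⟩) (d4 ⟨τ, hτ⟩)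
        have h9 : τ = ω := h8.unique hω'
        rw [h9]
        exact hω
      obtain ⟨ω1, a1, a2, a3⟩ := h1 (hclG hu')
      refine ⟨ω1⁻¹, inv_mem a1, ?_, ?_⟩
      · intro i j x hx hux
        apply inv_eq
        have h5 := a2 j i (u⁻¹ x) hux (by rw [ap_inv]; exact hx)
        rw [h5, ap_inv]
      · intro z hz
        exact inv_eq _ (a3 z hz)
  -- conclusion
  rintro τ ⟨U, a, b, hU, ha, hb, hd, hUC, haC, hbC, hc⟩
  have h1 := cyc_local (H := H) hU hd ?_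
  · obtain ⟨ω, hω, hω'⟩ := h1
    rw [hc.unique hω']
    exact hω
  · intro x hx
    obtain ⟨i, x', hx', hxe⟩ := hC'mem' x (hUC hx)
    obtain ⟨j, y', hy', hye⟩ := hC'mem' (a x) (haC ⟨x, hx, rfl⟩)
    obtain ⟨k, z', hz', hze⟩ := hC'mem' (b x) (hbC ⟨x, hx, rfl⟩)
    obtain ⟨V, hV1, hV2, hV3, hV4, hV5⟩ := nhd3 (a := a) (b := b)
      (img_clopen (e i) (hA i)).isOpen (img_clopen (e j) (hA j)).isOpen
      (img_clopen (e k) (hA k)).isOpen ⟨x', hx', hxe⟩ ⟨y', hy', hye⟩ ⟨z', hz', hze⟩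
    refine ⟨V, hV1, hV2, ?_⟩
    intro W hW hWV hWU
    -- pull back
    have hdW := hd.mono hWU
    have f1 : ∀ t ∈ W, (e i)⁻¹ t ∈ A i := fun t ht => (mem_img _ _ _).mp (hV3 (hWV ht))
    have f2 : ∀ t ∈ W, (e j)⁻¹ (a t) ∈ A j := fun t ht =>
      (mem_img _ _ _).mp (hV4 ⟨t, hWV ht, rfl⟩)
    have f3 : ∀ t ∈ W, (e k)⁻¹ (b t) ∈ A k := fun t ht =>
      (mem_img _ _ _).mp (hV5 ⟨t, hWV ht, rfl⟩)
    let U' : Set X := ((e i)⁻¹ : X ≃ₜ X) '' W
    let a' : X ≃ₜ X := (e j)⁻¹ * a * e i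
    let b' : X ≃ₜ X := (e k)⁻¹ * b * e i
    have ha'x : ∀ t, a' ((e i)⁻¹ t) = (e j)⁻¹ (a t) := by
      intro t
      show ((e j)⁻¹ * a * e i) ((e i)⁻¹ t) = _
      rw [mul_ap, mul_ap, ap_inv]
    have hb'x : ∀ t, b' ((e i)⁻¹ t) = (e k)⁻¹ (b t) := by
      intro t
      show ((e k)⁻¹ * b * e i) ((e i)⁻¹ t) = _
      rw [mul_ap, mul_ap, ap_inv]
    have g1 : ∀ x ∈ U', ∃ t ∈ W, x = (e i)⁻¹ t := by
      rintro _ ⟨t, ht, rfl⟩
      exact ⟨t, ht, rfl⟩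
    have g2 : ∀ x ∈ a' '' U', ∃ t ∈ W, x = (e j)⁻¹ (a t) := by
      rintro _ ⟨_, ⟨t, ht, rfl⟩, rfl⟩
      exact ⟨t, ht, ha'x t⟩
    have g3 : ∀ x ∈ b' '' U', ∃ t ∈ W, x = (e k)⁻¹ (b t) := by
      rintro _ ⟨_, ⟨t, ht, rfl⟩, rfl⟩
      exact ⟨t, ht, hb'x t⟩
    have hback : ∀ (l l' : Bool) (s t : X), (e l)⁻¹ s ∈ A l → (e l')⁻¹ t ∈ A l' →
        (e l)⁻¹ s = (e l')⁻¹ t → s = t := by
      intro l l' s t h1 h2 h3
      have h4 := hAdis _ _ _ h1 (h3 ▸ h2)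
      rw [h4] at h3
      exact ap_inj _ h3
    have hdU : Dis3 a' b' U' := by
      refine ⟨?_, ?_, ?_⟩
      · rw [Set.disjoint_left]
        intro x h1 h2
        obtain ⟨t, ht, rfl⟩ := g1 x h1
        obtain ⟨s, hs', h3⟩ := g2 _ h2
        have h4 := hback _ _ _ _ (f1 t ht) (f2 s hs') h3
        exact Set.disjoint_left.mp hdW.1 ht ⟨s, hs', h4.symm⟩
      · rw [Set.disjoint_left]
        intro x h1 h2
        obtain ⟨t, ht, rfl⟩ := g1 x h1
        obtain ⟨s, hs', h3⟩ := g3 _ h2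
        have h4 := hback _ _ _ _ (f1 t ht) (f3 s hs') h3
        exact Set.disjoint_left.mp hdW.2.1 ht ⟨s, hs', h4.symm⟩
      · rw [Set.disjoint_left]
        intro x h1 h2
        obtain ⟨t, ht, rfl⟩ := g2 x h1
        obtain ⟨s, hs', h3⟩ := g3 _ h2
        have h4 := hback _ _ _ _ (f2 t ht) (f3 s hs') h3
        exact Set.disjoint_left.mp hdW.2.2 ⟨t, ht, rfl⟩ ⟨s, hs', h4.symm⟩
    obtain ⟨ω', hω'G, hω'⟩ := cyc_mem hp hv hs (a := a') (b := b')
      (mul_mem (mul_mem (inv_mem (he _)) ha) (he _)) (mul_mem (mul_mem (inv_mem (he _)) hb) (he _))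
      (img_clopen _ hW) hdU
    obtain ⟨ω, hωH, q1, q2⟩ := hQ ω' hω'G
    refine ⟨ω, hωH, ?_, ?_, ?_, ?_⟩
    · intro t ht
      have h2 : ω' ((e i)⁻¹ t) = (e j)⁻¹ (a t) := by
        rw [hω'.1 _ ⟨t, ht, rfl⟩, ha'x]
      have h3 := q1 i j _ (f1 t ht) (by rw [h2]; exact f2 t ht)
      rw [ap_inv, h2, ap_inv] at h3
      exact h3
    · intro t ht
      have h2 : ω' ((e j)⁻¹ (a t)) = (e k)⁻¹ (b t) := by
        rw [← ha'x, hω'.2.1 _ ⟨t, ht, rfl⟩, hb'x]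
      have h3 := q1 j k _ (f2 t ht) (by rw [h2]; exact f3 t ht)
      rw [ap_inv, h2, ap_inv] at h3
      exact h3
    · intro t ht
      have h2 : ω' ((e k)⁻¹ (b t)) = (e i)⁻¹ t := by
        rw [← hb'x, hω'.2.2.1 _ ⟨t, ht, rfl⟩]
      have h3 := q1 k i _ (f3 t ht) (by rw [h2]; exact f1 t ht)
      rw [ap_inv, h2, ap_inv] at h3
      exact h3
    · intro z hz1 hz2 hz3
      by_cases hzC : z ∈ C'
      · obtain ⟨l, x0, hx0, rfl⟩ := hC'mem' z hzC
        have h2 : ω' x0 = x0 := by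
          apply hω'.2.2.2
          · intro h
            obtain ⟨t, ht, h3⟩ := g1 _ h
            have h4 := hAdis _ _ _ hx0 (h3 ▸ f1 t ht)
            rw [h4, h3, ap_inv] at hz1
            exact hz1 ht
          · intro h
            obtain ⟨t, ht, h3⟩ := g2 _ h
            have h4 := hAdis _ _ _ hx0 (h3 ▸ f2 t ht)
            rw [h4, h3, ap_inv] at hz2
            exact hz2 ⟨t, ht, rfl⟩
          · intro h
            obtain ⟨t, ht, h3⟩ := g3 _ h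
            have h4 := hAdis _ _ _ hx0 (h3 ▸ f3 t ht)
            rw [h4, h3, ap_inv] at hz3
            exact hz3 ⟨t, ht, rfl⟩
        have h3 := q1 l l x0 hx0 (by rw [h2]; exact hx0)
        rw [h3, h2]
      · exact q2 z hzC

end Pool.Agent.Lib.Pe4017d
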