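import Pool.Agent.Lib.Pe4017d.Beta

set_option autoImplicit false
set_option linter.unusedSectionVars false

/-!
Every aperiodic element of a finitely generated simple vigorous group witnesses strong infinite
uniform spread, and no other element does.
-/

namespace Pool.Agent.Lib.Pe4017d

open Set

variable {X : Type*} [TopologicalSpace X] [CompactSpace X] [T2Space X] [TotallyDisconnectedSpace X]

theorem BB_finite (k : ℕ) (α : ℕ → (X ≃ₜ X)) : {a | BB k α a}.Finite := by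
  have h1 : {a | BB k α a} ⊆ {1} ∪ (α '' Set.Iio k) ∪
      ((fun p : ℕ × ℕ => α p.1 * α p.2) '' (Set.Iio k ×ˢ Set.Iio k)) := by
    rintro a (rfl | ⟨i, hi, rfl⟩ | ⟨i, hi, j, hj, rfl⟩)
    · exact Or.inl (Or.inl rfl)
    · exact Or.inl (Or.inr ⟨i, hi, rfl⟩)
    · exact Or.inr ⟨(i, j), ⟨hi, hj⟩, rfl⟩
  exact (((Set.finite_singleton _).union ((Set.finite_Iio k).image _)).union
    (((Set.finite_Iio k).prod (Set.finite_Iio k)).image _)).subset h1

/-- Main theorem, positive part. -/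
theorem witness (hp : Perf X) [Nonempty X] {G : Subgroup (X ≃ₜ X)} (hv : Vigorous G)
    (hs : IsSimpleGroup G) (hfg : G.FG) {σ : X ≃ₜ X} (hσG : σ ∈ G) (hσ : Aper σ)
    {k : ℕ} (α : Fin k → (X ≃ₜ X)) (hα : ∀ i, α i ∈ G) (hne : ∀ i, α i ≠ 1) :
    ∃ g ∈ G, ∀ i, G ≤ Subgroup.closure {α i, g * σ * g⁻¹} := by
  classical
  rcases Nat.eq_zero_or_pos k with hk | hk
  · subst hk
    exact ⟨1, one_mem G, fun i => i.elim0⟩
  let α' : ℕ → (X ≃ₜ X) := fun n => if h : n < k then α ⟨n, h⟩ else 1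
  have hα'G : ∀ n, α' n ∈ G := by
    intro n
    show (if h : n < k then α ⟨n, h⟩ else 1) ∈ G
    split_ifs
    · exact hα _
    · exact one_mem G
  have hα'i : ∀ i : Fin k, α' i = α i := by
    intro i
    show (if h : (i : ℕ) < k then α ⟨i, h⟩ else 1) = α i
    rw [dif_pos i.2]
  -- moved sets
  have hΩ : ∀ n : ℕ, ∃ V : Set X, IsClopen V ∧ V.Nonempty ∧ (n < k → ∀ x ∈ V, α' n x ≠ x) := by
    intro n
    by_cases hn : n < k
    · have h1 : ∃ x, α' n x ≠ x := by
        by_contra h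
        push Not at h
        have h2 : α' n = 1 := ext_homeo h
        exact hne ⟨n, hn⟩ (by rw [← hα'i ⟨n, hn⟩]; exact h2)
      obtain ⟨x, hx⟩ := h1
      obtain ⟨W, hW1, hW2, hW3⟩ := exists_sep hx.symm
      obtain ⟨V, hV1, hV2, hV3⟩ := exists_nhd (hW1.isOpen.inter
        (hW1.compl.isOpen.preimage (α' n).continuous)) ⟨hW2, hW3⟩
      refine ⟨V, hV1, ⟨x, hV2⟩, fun _ y hy h => ?_⟩
      apply (hV3 hy).2
      rw [h]
      exact (hV3 hy).1
    · exact ⟨univ, isClopen_univ, Set.univ_nonempty, fun h => absurd h hn⟩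
  choose Ω hΩ1 hΩ2 hΩ3 using hΩ
  obtain ⟨z⟩ := ‹Nonempty X›
  have : Nonempty X := ⟨z⟩
  obtain ⟨Y, hY1, hY2, hY3, gen, cross, hz⟩ := exists_generic hp k (BB_finite k α') z Ω hΩ1 hΩ2
  have b1 : (1 : X ≃ₜ X) ∈ {a | BB k α' a} := Or.inl rfl
  have bα : ∀ i, i < k → α' i ∈ {a | BB k α' a} := fun i hi => Or.inr (Or.inl ⟨i, hi, rfl⟩)
  have key : ∀ a b, BB k α' a → BB k α' b → ∀ i < k, ∀ j < k, ∀ x ∈ Y i, ∀ y ∈ Y j, a x = b y →
      i = j ∧ x = y ∧ ∀ z ∈ Y i, a z = b z := by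
    intro a b ha hb i hi j hj x hx y hy hxy
    have hij : i = j := by
      by_contra hij
      exact Set.disjoint_left.mp (cross a ha b hb i hi j hj hij) ⟨x, hx, rfl⟩ ⟨y, hy, hxy.symm⟩
    subst hij
    rcases gen a ha b hb i hi with h | h
    · refine ⟨rfl, ?_, h⟩
      rw [h x hx] at hxy
      exact ap_inj _ hxy
    · exact absurd ⟨y, hy, hxy.symm⟩ (Set.disjoint_left.mp h ⟨x, hx, rfl⟩)
  -- room for the compressed copy
  let O : Set X := ⋃ i ∈ Set.Iio k, (Y i ∪ α' i '' Y i)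
  have hO : IsClopen O := Set.Finite.isClopen_biUnion (Set.finite_Iio k)
    (fun i _ => (hY1 i).union (img_clopen _ (hY1 i)))
  have hOz : z ∉ O := by
    intro h
    obtain ⟨i, hi, h⟩ := Set.mem_iUnion₂.mp h
    rcases h with h | h
    · exact hz 1 b1 i hi (by rw [img_one]; exact h)
    · exact hz _ (bα i hi) i hi h
  obtain ⟨C', hC', hC'n, hC'O, M, D, henc⟩ := exists_encoding hp hv hs hfg hO.compl ⟨z, hOz⟩
  let c : Ctx G :=
    { k := k
      hk := hk
      α := α'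
      hα := hα'G
      Y := Y
      hY := hY1
      hYn := hY2
      key := key
      move := fun i hi x hx => hΩ3 i hi x (hY3 i hx)
      C' := C'
      hC' := hC'
      hC'n := hC'n
      hC'Y := by
        intro i hi x hx
        refine ⟨fun h => hC'O h ?_, fun h => hC'O h ?_⟩
        · exact Set.mem_biUnion (show i ∈ Set.Iio k from hi) (Or.inl hx)
        · exact Set.mem_biUnion (show i ∈ Set.Iio k from hi) (Or.inr ⟨x, hx, rfl⟩)
      M := M
      D := D }
  obtain ⟨B, hB, hfree, hret⟩ := exists_tower hσ (2 * c.m + 1)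
  have hBn : B.Nonempty := by
    obtain ⟨s, _, hs'⟩ := hret z
    exact ⟨_, hs'⟩
  have hBc : (Bᶜ).Nonempty := by
    obtain ⟨b, hb⟩ := hBn
    refine ⟨σ b, ?_⟩
    intro h
    have h1 := hfree 1 le_rfl (by push_cast; omega)
    exact Set.disjoint_left.mp h1 h ⟨b, hb, by rw [zpow_one]⟩
  obtain ⟨P⟩ := exists_pos hp hv c hB hBn hBc
  obtain ⟨ψ, hψG, hψR, hψ0, hord, hpair⟩ := P.exists_psi hp hv hs hB hBn
    (2 * (2 * c.m + 1) + 3)
  obtain ⟨g, hg, g1, g2, g3⟩ := P.exists_beta hp hv hs hB hBn hσG hfree hret hψG hψR hψ0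
  refine ⟨g, hg, ?_⟩
  intro i
  have hβG : g * σ * g⁻¹ ∈ G := mul_mem (mul_mem hg hσG) (inv_mem hg)
  apply P.gen_i hp hv hs hB hBn henc hψR hord hpair hβG g1 g2 g3 (i := i) i.2
  · show α' i ∈ _
    rw [hα'i i]
    exact Subgroup.subset_closure (by simp)
  · exact Subgroup.subset_closure (by simp)

/-- An element with a finite orbit is no witness. -/
theorem no_witness (hp : Perf X) [Nonempty X] {G : Subgroup (X ≃ₜ X)} (hv : Vigorous G)
    {σ : X ≃ₜ X} {x : X} (hx : (Set.range fun n : ℤ => (σ ^ n) x).Finite) :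
    ∃ (k : ℕ) (α : Fin k → (X ≃ₜ X)), 0 < k ∧ (∀ i, α i ∈ G) ∧ (∀ i, α i ≠ 1) ∧
      ∀ g ∈ G, ∃ i, ¬ G ≤ Subgroup.closure {α i, g * σ * g⁻¹} := by
  classical
  set F : Set X := Set.range fun n : ℤ => (σ ^ n) x with hF
  obtain ⟨f, hf1, hf2, _, hf4⟩ := exists_seq hp (isClopen_univ (X := X)) Set.univ_nonempty
  have h1 : ∀ n : ℕ, ∃ a ∈ G, a ≠ 1 ∧ ∀ y, y ∉ f n → a y = y := by
    intro n
    obtain ⟨V, W, hV, hW, hVn, hWn, hVW, hu⟩ := split hp (hf1 n) (hf2 n)
    have hVf : V ⊆ f n := by rw [← hu]; exact Set.subset_union_left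
    have hWf : W ⊆ f n := by rw [← hu]; exact Set.subset_union_right
    obtain ⟨a, ha, ha1, ha2⟩ := hv.push (hf1 n) hV hW hVf hWf hWn
      (by obtain ⟨w, hw⟩ := hWn
          exact ⟨w, hWf hw, fun h => Set.disjoint_left.mp hVW h hw⟩)
      (by obtain ⟨w, hw⟩ := hVn
          exact ⟨w, hVf hw, fun h => Set.disjoint_left.mp hVW hw h⟩)
    refine ⟨a, ha, ?_, ha2⟩
    rintro rfl
    obtain ⟨w, hw⟩ := hVn
    exact Set.disjoint_left.mp hVW hw (ha1 ⟨w, hw, rfl⟩)
  choose a ha ha1 ha2 using h1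
  refine ⟨F.ncard + 1, fun i => a i, Nat.succ_pos _, fun i => ha i, fun i => ha1 i, ?_⟩
  intro g hg
  -- a set of the sequence missing `g F`
  have h2 : ∃ i : Fin (F.ncard + 1), Disjoint (f i) (g '' F) := by
    by_contra hcon
    push Not at hcon
    have h3 : ∀ i : Fin (F.ncard + 1), ∃ y ∈ F, g y ∈ f i := by
      intro i
      have h4 := hcon i
      rw [Set.not_disjoint_iff] at h4
      obtain ⟨z, hz, y, hy, rfl⟩ := h4
      exact ⟨y, hy, hz⟩
    choose y hy hy' using h3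
    have hinj : Function.Injective y := by
      intro i j hij
      by_contra hne
      have h5 := hf4 i j (fun h => hne (Fin.ext h))
      exact Set.disjoint_left.mp h5 (hy' i) (by rw [hij]; exact hy' j)
    have h6 : (Set.range y).ncard = F.ncard + 1 := by
      rw [← Set.image_univ, Set.ncard_image_of_injective _ hinj, Set.ncard_univ, Nat.card_fin]
    have h7 : (Set.range y).ncard ≤ F.ncard := by
      apply Set.ncard_le_ncard _ hx
      rintro _ ⟨i, rfl⟩
      exact hy i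
    omega
  obtain ⟨i, hi⟩ := h2
  refine ⟨i, ?_⟩
  intro hle
  -- the closure preserves `g F`
  have hσF : ∀ y, y ∈ F → σ y ∈ F := by
    rintro _ ⟨n, rfl⟩
    refine ⟨1 + n, ?_⟩
    show (σ ^ (1 + n)) x = σ ((σ ^ n) x)
    rw [zpow_add_ap, zpow_one]
  have hσF' : ∀ y, y ∈ F → σ⁻¹ y ∈ F := by
    rintro _ ⟨n, rfl⟩
    refine ⟨-1 + n, ?_⟩
    show (σ ^ (-1 + n)) x = σ⁻¹ ((σ ^ n) x)
    rw [zpow_add_ap, zpow_neg_one]
  have hpres : ∀ h ∈ Subgroup.closure {a i, g * σ * g⁻¹}, ∀ y ∈ g '' F, h y ∈ g '' F ∧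
      h⁻¹ y ∈ g '' F := by
    intro h hh
    induction hh using Subgroup.closure_induction with
    | mem h hh =>
      intro y hy
      rcases hh with rfl | hh
      · have h3 : a i y = y := ha2 i y (fun h => Set.disjoint_left.mp hi h hy)
        rw [h3, inv_eq _ h3]
        exact ⟨hy, hy⟩
      · rw [Set.mem_singleton_iff] at hh
        subst hh
        obtain ⟨u, hu, rfl⟩ := hy
        refine ⟨?_, ?_⟩
        · rw [mul_ap, mul_ap, inv_ap]
          exact ⟨_, hσF u hu, rfl⟩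
        · have h3 : (g * σ * g⁻¹)⁻¹ (g u) = g (σ⁻¹ u) := by
            apply inv_eq
            rw [mul_ap, mul_ap, inv_ap, ap_inv]
          rw [h3]
          exact ⟨_, hσF' u hu, rfl⟩
    | one =>
      intro y hy
      refine ⟨hy, ?_⟩
      rw [inv_one]
      exact hy
    | mul h h' _ _ ih ih' =>
      intro y hy
      refine ⟨(ih _ (ih' y hy).1).1, ?_⟩
      rw [mul_inv_rev, mul_ap]
      exact (ih' _ (ih y hy).2).2
    | inv h _ ih =>
      intro y hy
      rw [inv_inv]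
      exact ⟨(ih y hy).2, (ih y hy).1⟩
  -- but `G` does not
  have hgF : (g '' F).Finite := hx.image _
  have hp0 : g x ∈ g '' F := ⟨x, ⟨0, by simp⟩, rfl⟩
  obtain ⟨W, hW1, hW2, _, hW4⟩ := exists_avoid hp isOpen_univ Set.univ_nonempty (g '' F) hgF
  obtain ⟨W1, W2, hW1c, hW2c, hW1n, hW2n, hW12, hWu⟩ := split hp hW1 hW2
  have hW1W : W1 ⊆ W := by rw [← hWu]; exact Set.subset_union_left
  have hW2W : W2 ⊆ W := by rw [← hWu]; exact Set.subset_union_right
  obtain ⟨γ, hγ, hγ1, _⟩ := hv.push (A := univ) (B := Wᶜ) (D := W1) isClopen_univ hW1.compl hW1c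
    (Set.subset_univ _) (Set.subset_univ _) hW1n
    (by obtain ⟨w, hw⟩ := hW2
        exact ⟨w, mem_univ w, fun h => h hw⟩)
    (by obtain ⟨w, hw⟩ := hW2n
        exact ⟨w, mem_univ w, fun h => Set.disjoint_left.mp hW12 h hw⟩)
  have h8 : γ (g x) ∈ W1 := hγ1 ⟨g x, fun h => Set.disjoint_left.mp hW4 h hp0, rfl⟩
  exact Set.disjoint_left.mp hW4 (hW1W h8) (hpres γ (hle hγ) _ hp0).1

/-- The Cantor space has no isolated points. -/
theorem perf_cantor : Perf (ℕ → Bool) := by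
  intro U hU ⟨x, hx⟩
  have h1 : Filter.Tendsto (fun n : ℕ => Function.update x n (!x n)) Filter.atTop (nhds x) := by
    rw [tendsto_pi_nhds]
    intro i
    apply tendsto_const_nhds.congr'
    filter_upwards [Filter.eventually_gt_atTop i] with n hn
    rw [Function.update_of_ne (by omega)]
  obtain ⟨n, hn⟩ := (h1.eventually (hU.mem_nhds hx)).exists
  refine ⟨x, hx, _, hn, ?_⟩
  intro h
  have h2 := congrFun h n
  rw [Function.update_self] at h2
  revert h2
  cases x n <;> simp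

end Pool.Agent.Lib.Pe4017d
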