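import Mathlib

set_option autoImplicit false

/-!
Arithmetic of the levels.
-/

namespace Pool.Agent.Lib.Pe4017d

/-- First level of the `j`-th exceptional pair. -/
def vl (A j : ℕ) : ℤ := (A : ℤ) * (2 * j + 2) - 1

/-- Second level of the `j`-th exceptional pair. -/
def wl (A j : ℕ) : ℤ := (A : ℤ) * (2 * j + 3) - 1

/-- Zone of a level. -/
def zone (A : ℕ) (t : ℤ) : ℕ := (t.natAbs - A) / (2 * A)

/-- Label of a level. -/
def lab (k : ℕ) (t : ℤ) : ℕ :=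
  if t.natAbs < 2 ^ k then Nat.log 2 t.natAbs else zone (2 ^ k) t % k

/-- Ordinary levels. -/
def Ordi (A : ℕ) (t : ℤ) : Prop := ∀ j : ℕ, t ≠ vl A j ∧ t ≠ wl A j

variable {A : ℕ}

theorem zone_mid (hA : 2 ≤ A) {j : ℕ} {t : ℤ} (h1 : A * (2 * j + 1) ≤ t.natAbs)
    (h2 : t.natAbs < A * (2 * j + 3)) : zone A t = j := by
  unfold zone
  have e1 : A * (2 * j + 1) = j * (2 * A) + A := by ring
  have e2 : A * (2 * j + 3) = j * (2 * A) + 3 * A := by ring
  rw [e1] at h1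
  rw [e2] at h2
  apply Nat.div_eq_of_lt_le
  · omega
  · rw [add_mul, one_mul]
    omega

theorem zone_vl (hA : 2 ≤ A) (j : ℕ) : zone A (vl A j) = j := by
  have e0 : vl A j = ((A * (2 * j + 2) - 1 : ℕ) : ℤ) := by
    unfold vl
    have : 1 ≤ A * (2 * j + 2) := Nat.mul_pos (by omega) (by omega)
    push_cast [Nat.cast_sub this]
    ring
  have e1 : A * (2 * j + 1) + A = A * (2 * j + 2) := by ring
  have e2 : A * (2 * j + 2) + A = A * (2 * j + 3) := by ring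
  apply zone_mid hA
  · rw [e0, Int.natAbs_natCast]; omega
  · rw [e0, Int.natAbs_natCast]; omega

theorem zone_wl (hA : 2 ≤ A) (j : ℕ) : zone A (wl A j) = j := by
  have e0 : wl A j = ((A * (2 * j + 3) - 1 : ℕ) : ℤ) := by
    unfold wl
    have : 1 ≤ A * (2 * j + 3) := Nat.mul_pos (by omega) (by omega)
    push_cast [Nat.cast_sub this]
    ring
  have e1 : A * (2 * j + 1) + 2 * A = A * (2 * j + 3) := by ring
  apply zone_mid hA
  · rw [e0, Int.natAbs_natCast]; omega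
  · rw [e0, Int.natAbs_natCast]; omega

theorem vl_inj (hA : 2 ≤ A) {i j : ℕ} (h : vl A i = vl A j) : i = j := by
  rw [← zone_vl hA i, h, zone_vl hA]

theorem wl_inj (hA : 2 ≤ A) {i j : ℕ} (h : wl A i = wl A j) : i = j := by
  rw [← zone_wl hA i, h, zone_wl hA]

theorem vl_ne_wl (hA : 2 ≤ A) (i j : ℕ) : vl A i ≠ wl A j := by
  intro h
  have h1 : i = j := by rw [← zone_vl hA i, h, zone_wl hA]
  rw [h1] at h
  unfold vl wl at h
  have : (A : ℤ) * (2 * j + 3) = A * (2 * j + 2) + A := by ring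
  rw [this] at h
  omega

theorem vl_pos (hA : 2 ≤ A) (j : ℕ) : (A : ℤ) < vl A j := by
  unfold vl
  have h1 : (0 : ℤ) ≤ A * j := by positivity
  have h2 : (A : ℤ) * (2 * j + 2) = 2 * (A * j) + 2 * A := by ring
  rw [h2]
  omega

theorem vl_lt_wl (j : ℕ) : vl A j + A = wl A j := by
  unfold vl wl
  ring

theorem wl_pos (hA : 2 ≤ A) (j : ℕ) : (A : ℤ) < wl A j := by
  have h1 := vl_pos hA j
  have h2 := vl_lt_wl (A := A) j
  omega

theorem ordi_small (hA : 2 ≤ A) {t : ℤ} (h : t ≤ A) : Ordi A t := by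
  intro j
  have h1 := vl_pos hA j
  have h2 := wl_pos hA j
  constructor <;> omega

/-- Levels shortly before an exceptional level are ordinary. -/
theorem not_cong {x y a : ℤ} (hA : (2 : ℤ) ≤ A) (h1 : 0 < a) (h2 : a < A)
    (h : (A : ℤ) * x - 1 - a = A * y - 1) : False := by
  have h3 : (A : ℤ) * (x - y) = a := by linarith
  rcases le_or_gt (x - y) 0 with h4 | h4
  · have : (A : ℤ) * (x - y) ≤ 0 := mul_nonpos_of_nonneg_of_nonpos (by omega) h4
    omega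
  · have : (A : ℤ) * 1 ≤ A * (x - y) := mul_le_mul_of_nonneg_left (by omega) (by omega)
    omega

theorem ordi_vl_sub (hA : 2 ≤ A) {a : ℤ} (h1 : 0 < a) (h2 : a < A) (j : ℕ) :
    Ordi A (vl A j - a) := by
  intro i
  refine ⟨?_, ?_⟩
  · intro h
    exact not_cong (A := A) (x := 2 * j + 2) (y := 2 * i + 2) (by exact_mod_cast hA) h1 h2 h
  · intro h
    exact not_cong (A := A) (x := 2 * j + 2) (y := 2 * i + 3) (by exact_mod_cast hA) h1 h2 h

theorem ordi_wl_sub (hA : 2 ≤ A) {a : ℤ} (h1 : 0 < a) (h2 : a < A) (j : ℕ) :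
    Ordi A (wl A j - a) := by
  intro i
  refine ⟨?_, ?_⟩
  · intro h
    exact not_cong (A := A) (x := 2 * j + 3) (y := 2 * i + 2) (by exact_mod_cast hA) h1 h2 h
  · intro h
    exact not_cong (A := A) (x := 2 * j + 3) (y := 2 * i + 3) (by exact_mod_cast hA) h1 h2 h

variable {k : ℕ}

theorem two_le_pow (hk : 0 < k) : 2 ≤ 2 ^ k := by
  calc 2 = 2 ^ 1 := rfl
    _ ≤ 2 ^ k := Nat.pow_le_pow_right (by norm_num) hk

theorem lab_lt (hk : 0 < k) (t : ℤ) : lab k t < k := by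
  unfold lab
  split_ifs with h
  · by_cases h0 : t.natAbs = 0
    · rw [h0]
      simpa using hk
    · exact Nat.log_lt_of_lt_pow h0 h
  · exact Nat.mod_lt _ hk

theorem lab_block {i : ℕ} (hi : i < k) {t : ℤ} (h1 : 2 ^ i ≤ t.natAbs) (h2 : t.natAbs < 2 ^ (i + 1)) :
    lab k t = i := by
  unfold lab
  rw [if_pos (h2.trans_le (Nat.pow_le_pow_right (by norm_num) hi))]
  exact Nat.log_eq_of_pow_le_of_lt_pow h1 h2

theorem lab_zone (hk : 0 < k) {j : ℕ} {t : ℤ} (h1 : 2 ^ k * (2 * j + 1) ≤ t.natAbs)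
    (h2 : t.natAbs < 2 ^ k * (2 * j + 3)) : lab k t = j % k := by
  unfold lab
  have h3 : 2 ^ k * 1 ≤ 2 ^ k * (2 * j + 1) := Nat.mul_le_mul_left _ (by omega)
  rw [if_neg (by omega), zone_mid (two_le_pow hk) h1 h2]

/-- Levels `v_j - a` with `0 ≤ a < A`, are in the zone `j`. -/
theorem lab_vl_sub (hk : 0 < k) (j : ℕ) {a : ℤ} (h1 : 0 ≤ a) (h2 : a < 2 ^ k) :
    lab k (vl (2 ^ k) j - a) = j % k := by
  have hA := two_le_pow hk
  have hcast : ((2 ^ k : ℕ) : ℤ) = 2 ^ k := by push_cast; rfl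
  set A : ℕ := 2 ^ k with hAdef
  rw [← hcast] at h2
  have e0 : vl A j - a = 2 * ((A : ℤ) * j) + 2 * A - 1 - a := by unfold vl; ring
  have e3 : (0 : ℤ) ≤ (A : ℤ) * j := by positivity
  have e4 : A * (2 * j + 1) = 2 * (A * j) + A := by ring
  have e5 : A * (2 * j + 3) = 2 * (A * j) + 3 * A := by ring
  have e6 : ((A * j : ℕ) : ℤ) = (A : ℤ) * j := by push_cast; ring
  apply lab_zone hk
  · rw [← hAdef, e4, e0]
    omega
  · rw [← hAdef, e5, e0]
    omega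

theorem lab_wl_sub (hk : 0 < k) (j : ℕ) {a : ℤ} (h1 : 0 ≤ a) (h2 : a < 2 ^ k) :
    lab k (wl (2 ^ k) j - a) = j % k := by
  have hA := two_le_pow hk
  have hcast : ((2 ^ k : ℕ) : ℤ) = 2 ^ k := by push_cast; rfl
  set A : ℕ := 2 ^ k with hAdef
  rw [← hcast] at h2
  have e0 : wl A j - a = 2 * ((A : ℤ) * j) + 3 * A - 1 - a := by unfold wl; ring
  have e3 : (0 : ℤ) ≤ (A : ℤ) * j := by positivity
  have e4 : A * (2 * j + 1) = 2 * (A * j) + A := by ring
  have e5 : A * (2 * j + 3) = 2 * (A * j) + 3 * A := by ring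
  have e6 : ((A * j : ℕ) : ℤ) = (A : ℤ) * j := by push_cast; ring
  apply lab_zone hk
  · rw [← hAdef, e4, e0]
    omega
  · rw [← hAdef, e5, e0]
    omega

theorem lab_neg (t : ℤ) : lab k (-t) = lab k t := by
  unfold lab zone
  rw [Int.natAbs_neg]

/-- The bound for the levels. -/
def mm (k K : ℕ) : ℕ := 2 ^ k * (2 * K + 1) - 1

theorem wl_le (hk : 0 < k) {j K : ℕ} (h : j < K) : wl (2 ^ k) j ≤ mm k K := by
  have hA := two_le_pow hk
  unfold mm wl
  have h1 : 1 ≤ 2 ^ k * (2 * K + 1) := Nat.mul_pos (by omega) (by omega)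
  have h2 : 2 ^ k * (2 * j + 3) ≤ 2 ^ k * (2 * K + 1) := Nat.mul_le_mul_left _ (by omega)
  have h3 : ((2 ^ k * (2 * j + 3) : ℕ) : ℤ) = ((2 ^ k : ℕ) : ℤ) * (2 * j + 3) := by push_cast; ring
  rw [← h3]
  omega

theorem vl_le (hk : 0 < k) {j K : ℕ} (h : j < K) : vl (2 ^ k) j ≤ mm k K := by
  have h1 := wl_le hk h
  have h2 := vl_lt_wl (A := 2 ^ k) j
  have h3 := two_le_pow hk
  have h4 : (0 : ℤ) < ((2 ^ k : ℕ) : ℤ) := by exact_mod_cast (by omega : 0 < 2 ^ k)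
  omega

theorem lt_of_wl_le (hk : 0 < k) {j K : ℕ} (h : wl (2 ^ k) j ≤ mm k K) : j < K := by
  have hA := two_le_pow hk
  unfold mm wl at h
  have h1 : 1 ≤ 2 ^ k * (2 * K + 1) := Nat.mul_pos (by omega) (by omega)
  have h3 : ((2 ^ k * (2 * j + 3) : ℕ) : ℤ) = ((2 ^ k : ℕ) : ℤ) * (2 * j + 3) := by push_cast; ring
  rw [← h3] at h
  have h4 : 2 ^ k * (2 * j + 3) ≤ 2 ^ k * (2 * K + 1) := by omega
  have h5 : 2 * j + 3 ≤ 2 * K + 1 := Nat.le_of_mul_le_mul_left h4 (by omega)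
  omega

theorem pow_le_mm (K : ℕ) (hK : 0 < K) : 2 ^ k ≤ mm k K := by
  unfold mm
  have h1 : 2 ^ k * 3 ≤ 2 ^ k * (2 * K + 1) := Nat.mul_le_mul_left _ (by omega)
  have h2 : 0 < 2 ^ k := Nat.pos_of_ne_zero (by positivity)
  omega

end Pool.Agent.Lib.Pe4017d
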