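import Pool.Agent.Lib.Pe4017d.Dyn
import Pool.Agent.Lib.Pe4017d.Num

set_option autoImplicit false
set_option linter.unusedSectionVars false

/-!
Positions of the levels.
-/

namespace Pool.Agent.Lib.Pe4017d

open Set

variable {X : Type*} [TopologicalSpace X] [CompactSpace X] [T2Space X] [TotallyDisconnectedSpace X]

/-- The homeomorphisms `1`, `α i`, `α i * α j`. -/
def BB (k : ℕ) (α : ℕ → (X ≃ₜ X)) (a : X ≃ₜ X) : Prop :=
  a = 1 ∨ (∃ i < k, a = α i) ∨ ∃ i < k, ∃ j < k, a = α i * α j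

/-- The data which are fixed before the levels are chosen. -/
structure Ctx (G : Subgroup (X ≃ₜ X)) where
  /-- number of elements -/
  k : ℕ
  hk : 0 < k
  /-- the elements -/
  α : ℕ → (X ≃ₜ X)
  hα : ∀ i, α i ∈ G
  /-- small sets -/
  Y : ℕ → Set X
  hY : ∀ i, IsClopen (Y i)
  hYn : ∀ i, (Y i).Nonempty
  key : ∀ a b, BB k α a → BB k α b → ∀ i < k, ∀ j < k, ∀ x ∈ Y i, ∀ y ∈ Y j, a x = b y →
    i = j ∧ x = y ∧ ∀ z ∈ Y i, a z = b z
  move : ∀ i < k, ∀ x ∈ Y i, α i x ≠ x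
  /-- the compressed copy -/
  C' : Set X
  hC' : IsClopen C'
  hC'n : C'.Nonempty
  hC'Y : ∀ i < k, ∀ x ∈ Y i, x ∉ C' ∧ α i x ∉ C'
  /-- number of three-cycles -/
  M : ℕ
  /-- the three-cycles -/
  D : CycData G C'

namespace Ctx

variable {G : Subgroup (X ≃ₜ X)} (c : Ctx G)

/-- number of pairs -/
def K : ℕ := c.k * (2 * c.M + 2)

/-- bound of the levels -/
def m : ℕ := mm c.k c.K

/-- spacing -/
def A : ℕ := 2 ^ c.k

/-- source set of a pair -/
def Zd (j : ℕ) : Set X := c.D.Z ((j / c.k - 2) / 2)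

/-- map of a pair -/
def yd (j : ℕ) : X ≃ₜ X :=
  if (j / c.k - 2) % 2 = 0 then c.D.y ((j / c.k - 2) / 2) else c.D.w ((j / c.k - 2) / 2)

theorem yd_mem (j : ℕ) : c.yd j ∈ G := by
  unfold yd
  split_ifs
  · exact c.D.hy _
  · exact c.D.hw _

theorem Zd_clopen (j : ℕ) : IsClopen (c.Zd j) := c.D.hZ _

theorem Zd_sub (j : ℕ) : c.Zd j ⊆ c.C' := c.D.hZC _

theorem yd_sub (j : ℕ) : c.yd j '' c.Zd j ⊆ c.C' := by
  unfold yd Zd
  split_ifs
  · exact c.D.hyC _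
  · exact c.D.hwC _

theorem yd_disj (j : ℕ) : Disjoint (c.Zd j) (c.yd j '' c.Zd j) := by
  unfold yd Zd
  split_ifs
  · exact (c.D.hd _).1
  · exact (c.D.hd _).2.1

theorem hA : 2 ≤ c.A := two_le_pow c.hk

theorem K_pos : 0 < c.K := Nat.mul_pos c.hk (by omega)

theorem BB_one : BB c.k c.α 1 := Or.inl rfl

theorem BB_α {i : ℕ} (hi : i < c.k) : BB c.k c.α (c.α i) := Or.inr (Or.inl ⟨i, hi, rfl⟩)

theorem BB_αα {i j : ℕ} (hi : i < c.k) (hj : j < c.k) : BB c.k c.α (c.α i * c.α j) :=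
  Or.inr (Or.inr ⟨i, hi, j, hj, rfl⟩)

/-- `α i z` is in no `Y j` for `z ∈ Y i`. -/
theorem not_Y {i j : ℕ} (hi : i < c.k) (hj : j < c.k) {z : X} (hz : z ∈ c.Y i) : c.α i z ∉ c.Y j := by
  intro h
  obtain ⟨h1, h2, _⟩ := c.key (c.α i) 1 (c.BB_α hi) c.BB_one i hi j hj z hz _ h rfl
  exact c.move i hi z hz h2.symm

end Ctx

/-- Covering lemma. -/
theorem cover_lemma (hp : Perf X) {G : Subgroup (X ≃ₜ X)} (hv : Vigorous G) {B O Y' : Set X}
    (hB : IsClopen B) (hBn : B.Nonempty) (hBc : (Bᶜ).Nonempty) (hO : IsClopen O)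
    (hY' : IsClopen Y') (hY'n : Y'.Nonempty) (hd : Disjoint O Y') :
    ∃ e ∈ G, O ⊆ e '' B ∧ e '' B ⊆ O ∪ Y' ∧ (e '' B \ O).Nonempty := by
  obtain ⟨B1, B2, hB1, hB2, hB1n, hB2n, hB12, hBu⟩ := split hp hB hBn
  obtain ⟨Y1, Y2, hY1, hY2, hY1n, hY2n, hY12, hYu⟩ := split hp hY' hY'n
  have hB1B : B1 ⊆ B := by rw [← hBu]; exact Set.subset_union_left
  have hB2B : B2 ⊆ B := by rw [← hBu]; exact Set.subset_union_right
  have hY1Y : Y1 ⊆ Y' := by rw [← hYu]; exact Set.subset_union_left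
  have hY2Y : Y2 ⊆ Y' := by rw [← hYu]; exact Set.subset_union_right
  have hH := hv.push (A := univ) (B := O) (D := B1) isClopen_univ hO hB1 (Set.subset_univ _)
    (Set.subset_univ _) hB1n ?_ ?_
  · obtain ⟨g, hg, hg1, _⟩ := hH
    have hcov : O ⊆ (g⁻¹ : X ≃ₜ X) '' B1 := by
      intro x hx
      exact ⟨g x, hg1 ⟨x, hx, rfl⟩, inv_ap g x⟩
    have hcl : IsClopen ((g⁻¹ : X ≃ₜ X) '' B \ O) := (img_clopen _ hB).diff hO
    have hne : ((g⁻¹ : X ≃ₜ X) '' B \ O).Nonempty := by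
      obtain ⟨z, hz⟩ := hB2n
      refine ⟨g⁻¹ z, ⟨z, hB2B hz, rfl⟩, ?_⟩
      intro h
      obtain ⟨u, hu, hu'⟩ := hcov h
      have h5 := ap_inj _ hu'
      rw [h5] at hu
      exact Set.disjoint_left.mp hB12 hu hz
    have hH2 := hv.push (A := Oᶜ) (B := (g⁻¹ : X ≃ₜ X) '' B \ O) (D := Y1) hO.compl hcl hY1
      (fun x hx => hx.2) (fun x hx h => Set.disjoint_left.mp hd h (hY1Y hx)) hY1n ?_ ?_
    · obtain ⟨e2, he2, h1, h2⟩ := hH2
      have hfix : ∀ x ∈ O, e2 x = x := fun x hx => h2 x (fun h => h hx)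
      refine ⟨e2 * g⁻¹, mul_mem he2 (inv_mem hg), ?_, ?_, ?_⟩
      · intro x hx
        rw [img_mul]
        refine ⟨x, ?_, hfix x hx⟩
        exact Set.image_mono hB1B (hcov hx)
      · rw [img_mul]
        rintro _ ⟨x, hx, rfl⟩
        by_cases hxO : x ∈ O
        · left
          rw [hfix x hxO]
          exact hxO
        · right
          exact hY1Y (h1 ⟨x, ⟨hx, hxO⟩, rfl⟩)
      · rw [img_mul]
        obtain ⟨x, hx⟩ := hne
        refine ⟨e2 x, ⟨x, hx.1, rfl⟩, ?_⟩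
        intro h
        exact Set.disjoint_left.mp hd h (hY1Y (h1 ⟨x, hx, rfl⟩))
    · obtain ⟨z, hz⟩ := hBc
      refine ⟨g⁻¹ z, ?_, ?_⟩
      · intro h
        obtain ⟨u, hu, hu'⟩ := hcov h
        have h5 := ap_inj _ hu'
        rw [h5] at hu
        exact hz (hB1B hu)
      · rintro ⟨⟨u, hu, hu'⟩, _⟩
        have h5 := ap_inj _ hu'
        rw [h5] at hu
        exact hz hu
    · obtain ⟨z, hz⟩ := hY2n
      exact ⟨z, fun h => Set.disjoint_left.mp hd h (hY2Y hz),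
        fun h => Set.disjoint_left.mp hY12 h hz⟩
  · obtain ⟨z, hz⟩ := hY'n
    exact ⟨z, mem_univ z, fun h => Set.disjoint_left.mp hd h hz⟩
  · obtain ⟨z, hz⟩ := hB2n
    exact ⟨z, mem_univ z, fun h => Set.disjoint_left.mp hB12 h hz⟩

/-- The positions of the levels. -/
structure Pos {G : Subgroup (X ≃ₜ X)} (c : Ctx G) (B : Set X) where
  /-- cells -/
  cell : ℤ → Set X
  cell_sub : ∀ t, cell t ⊆ c.Y (lab c.k t)
  cell_disj : ∀ s t, s ≠ t → Disjoint (cell s) (cell t)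
  /-- identifications of `B` with the levels -/
  e : ℤ → (X ≃ₜ X)
  he : ∀ t, e t ∈ G
  /-- source of the exceptional part -/
  V : ℕ → Set X
  /-- identification of the exceptional part -/
  ζ : ℕ → (X ≃ₜ X)
  hζ : ∀ j, ζ j ∈ G
  hV : ∀ j, IsClopen (V j)
  pos1 : ∀ t : ℤ, t ≠ 0 → (∀ j, t ≠ wl c.A j) → e t '' B ⊆ cell t
  pos2 : ∀ j, V j ⊆ e (vl c.A j) '' B ∧ c.α (j % c.k) '' V j ⊆ e (wl c.A j) '' B ∧
    e (wl c.A j) '' B ⊆ c.α (j % c.k) '' V j ∪ cell (wl c.A j)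
  pos3 : ∀ j, j / c.k = 0 → V j = e (vl c.A j) '' B ∧ e (wl c.A j) = c.α (j % c.k) * e (vl c.A j)
  pos4 : ∀ j, j / c.k = 1 → V j = e (vl c.A j) '' B ∧
    (e (wl c.A j) '' B \ c.α (j % c.k) '' V j).Nonempty
  pos5 : ∀ j, 2 ≤ j / c.k → V j = ζ j '' (c.Zd j ∪ c.yd j '' c.Zd j) ∧
    (e (vl c.A j) '' B \ V j).Nonempty ∧ (e (wl c.A j) '' B \ c.α (j % c.k) '' V j).Nonempty
  pos6 : ∀ x, x ∉ e 0 '' B → (∃ t : ℤ, t ≠ 0 ∧ |t| ≤ c.m ∧ x ∈ e t '' B) ∨ x ∈ cell 0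
  pos7 : ∀ t : ℤ, t ≠ 0 → |t| ≤ c.m → Disjoint (e t '' B) (e 0 '' B)
  pos8 : ∃ x, ∀ t : ℤ, |t| ≤ c.m → x ∉ e t '' B

theorem exists_pos (hp : Perf X) {G : Subgroup (X ≃ₜ X)} (hv : Vigorous G) (c : Ctx G) {B : Set X}
    (hB : IsClopen B) (hBn : B.Nonempty) (hBc : (Bᶜ).Nonempty) : Nonempty (Pos c B) := by
  have hA := c.hA
  have hk := c.hk
  -- cells
  have h1 : ∀ i, ∃ f : ℕ → Set X, (∀ n, IsClopen (f n)) ∧ (∀ n, (f n).Nonempty) ∧
      (∀ n, f n ⊆ c.Y i) ∧ ∀ m n, m ≠ n → Disjoint (f m) (f n) :=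
    fun i => exists_seq hp (c.hY i) (c.hYn i)
  choose f hf1 hf2 hf3 hf4 using h1
  let cell : ℤ → Set X := fun t => f (lab c.k t) (Equiv.intEquivNat t)
  have cell_cl : ∀ t, IsClopen (cell t) := fun t => hf1 _ _
  have cell_ne : ∀ t, (cell t).Nonempty := fun t => hf2 _ _
  have cell_sub : ∀ t, cell t ⊆ c.Y (lab c.k t) := fun t => hf3 _ _
  have cell_pt : ∀ s t x, x ∈ cell s → x ∈ cell t → s = t := by
    intro s t x hs ht
    obtain ⟨h1, _, _⟩ := c.key 1 1 c.BB_one c.BB_one _ (lab_lt hk s) _ (lab_lt hk t) x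
      (cell_sub s hs) x (cell_sub t ht) rfl
    by_contra hst
    have h2 : Disjoint (f (lab c.k s) (Equiv.intEquivNat s)) (f (lab c.k s) (Equiv.intEquivNat t)) :=
      hf4 _ _ _ (fun h => hst (Equiv.intEquivNat.injective h))
    have ht' : x ∈ f (lab c.k s) (Equiv.intEquivNat t) := by
      rw [h1]; exact ht
    exact Set.disjoint_left.mp h2 hs ht'
  have cell_disj : ∀ s t, s ≠ t → Disjoint (cell s) (cell t) := fun s t hst =>
    Set.disjoint_left.mpr fun x hs ht => hst (cell_pt s t x hs ht)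
  -- ordinary levels
  have h2 : ∀ t : ℤ, ∃ e ∈ G, e '' B ⊆ cell t := by
    intro t
    have h3 := hv.push (A := univ) (B := B) (D := cell t) isClopen_univ hB (cell_cl t)
      (Set.subset_univ _) (Set.subset_univ _) (cell_ne t) ?_ ?_
    · obtain ⟨e, he, h4, _⟩ := h3
      exact ⟨e, he, h4⟩
    · obtain ⟨z, hz⟩ := hBc
      exact ⟨z, mem_univ z, hz⟩
    · obtain ⟨z, hz⟩ := cell_ne (t + 1)
      exact ⟨z, mem_univ z, fun h => by have := cell_pt _ _ z hz h; omega⟩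
  choose eo heo heo' using h2
  -- exceptional pairs
  have h3 : ∀ j : ℕ, ∃ (V : Set X) (ζ ew : X ≃ₜ X), IsClopen V ∧ ζ ∈ G ∧ ew ∈ G ∧
      V ⊆ eo (vl c.A j) '' B ∧ c.α (j % c.k) '' V ⊆ ew '' B ∧
      ew '' B ⊆ c.α (j % c.k) '' V ∪ cell (wl c.A j) ∧
      (j / c.k = 0 → V = eo (vl c.A j) '' B ∧ ew = c.α (j % c.k) * eo (vl c.A j)) ∧
      (j / c.k = 1 → V = eo (vl c.A j) '' B ∧ (ew '' B \ c.α (j % c.k) '' V).Nonempty) ∧
      (2 ≤ j / c.k → V = ζ '' (c.Zd j ∪ c.yd j '' c.Zd j) ∧ (eo (vl c.A j) '' B \ V).Nonempty ∧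
        (ew '' B \ c.α (j % c.k) '' V).Nonempty) := by
    intro j
    have hjk : j % c.k < c.k := Nat.mod_lt _ hk
    have hlab : lab c.k (vl c.A j) = j % c.k := by
      have := lab_vl_sub (k := c.k) hk j (a := 0) le_rfl (by positivity)
      rwa [sub_zero] at this
    have hvY : eo (vl c.A j) '' B ⊆ c.Y (j % c.k) := by
      have := (heo' (vl c.A j)).trans (cell_sub _)
      rwa [hlab] at this
    have hdisO : ∀ V : Set X, V ⊆ eo (vl c.A j) '' B →
        Disjoint (c.α (j % c.k) '' V) (cell (wl c.A j)) := by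
      intro V hV
      rw [Set.disjoint_left]
      rintro _ ⟨z, hz, rfl⟩ h
      exact c.not_Y hjk (lab_lt hk _) (hvY (hV hz)) (cell_sub _ h)
    rcases Nat.lt_or_ge (j / c.k) 2 with ht | ht
    · interval_cases hj : j / c.k
      · refine ⟨eo (vl c.A j) '' B, 1, c.α (j % c.k) * eo (vl c.A j), img_clopen _ hB, one_mem G,
          mul_mem (c.hα _) (heo _), le_rfl, ?_, ?_, fun _ => ⟨rfl, rfl⟩,
          fun h => by omega, fun h => by omega⟩
        · rw [img_mul]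
        · rw [img_mul]; exact Set.subset_union_left
      · obtain ⟨ew, hew, h4, h5, h6⟩ := cover_lemma hp hv hB hBn hBc
          (img_clopen (c.α (j % c.k)) (img_clopen (eo (vl c.A j)) hB)) (cell_cl (wl c.A j))
          (cell_ne _) (hdisO _ le_rfl)
        exact ⟨eo (vl c.A j) '' B, 1, ew, img_clopen _ hB, one_mem G, hew, le_rfl, h4, h5,
          fun h => by omega, fun _ => ⟨rfl, h6⟩, fun h => by omega⟩
    · obtain ⟨D1, D2, hD1, hD2, hD1n, hD2n, hD12, hDu⟩ := split hp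
        (img_clopen (eo (vl c.A j)) hB) (hBn.image _)
      have hD1' : D1 ⊆ eo (vl c.A j) '' B := by rw [← hDu]; exact Set.subset_union_left
      have hD2' : D2 ⊆ eo (vl c.A j) '' B := by rw [← hDu]; exact Set.subset_union_right
      have hZcl : IsClopen (c.Zd j ∪ c.yd j '' c.Zd j) :=
        (c.Zd_clopen j).union (img_clopen _ (c.Zd_clopen j))
      have h7 := hv.push (A := univ) (B := c.Zd j ∪ c.yd j '' c.Zd j) (D := D1) isClopen_univ
        hZcl hD1 (Set.subset_univ _) (Set.subset_univ _) hD1n ?_ ?_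
      · obtain ⟨ζ, hζ, h8, _⟩ := h7
        obtain ⟨ew, hew, h4, h5, h6⟩ := cover_lemma hp hv hB hBn hBc
          (img_clopen (c.α (j % c.k)) (img_clopen ζ hZcl)) (cell_cl (wl c.A j))
          (cell_ne _) (hdisO _ (h8.trans hD1'))
        refine ⟨ζ '' (c.Zd j ∪ c.yd j '' c.Zd j), ζ, ew, img_clopen _ hZcl, hζ, hew,
          h8.trans hD1', h4, h5, fun h => by omega, fun h => by omega, fun _ => ⟨rfl, ?_, h6⟩⟩
        obtain ⟨z, hz⟩ := hD2n
        exact ⟨z, hD2' hz, fun h => Set.disjoint_left.mp hD12 (h8 h) hz⟩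
      · obtain ⟨z, hz⟩ := c.hYn 0
        refine ⟨z, mem_univ z, ?_⟩
        rintro (h | h)
        · exact (c.hC'Y 0 hk z hz).1 (c.Zd_sub j h)
        · exact (c.hC'Y 0 hk z hz).1 (c.yd_sub j h)
      · obtain ⟨z, hz⟩ := hD2n
        exact ⟨z, mem_univ z, fun h => Set.disjoint_left.mp hD12 h hz⟩
  choose V ζ ew hVcl hζ hew q1 q2 q3 q4 q5 q6 using h3
  -- the preliminary identification
  let e' : ℤ → (X ≃ₜ X) := fun t => if t = wl c.A (zone c.A t) then ew (zone c.A t) else eo t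
  have he' : ∀ t, e' t ∈ G := by
    intro t
    show (if t = wl c.A (zone c.A t) then ew (zone c.A t) else eo t) ∈ G
    split_ifs
    · exact hew _
    · exact heo _
  have e'w : ∀ j, e' (wl c.A j) = ew j := by
    intro j
    show (if wl c.A j = wl c.A (zone c.A (wl c.A j)) then ew (zone c.A (wl c.A j))
      else eo (wl c.A j)) = _
    rw [zone_wl hA, if_pos rfl]
  have e'o : ∀ t, (∀ j, t ≠ wl c.A j) → e' t = eo t := by
    intro t ht
    show (if t = wl c.A (zone c.A t) then ew (zone c.A t) else eo t) = _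
    rw [if_neg (ht _)]
  have e'v : ∀ j, e' (vl c.A j) = eo (vl c.A j) := fun j => e'o _ (fun i => vl_ne_wl hA j i)
  -- classification
  have cls : ∀ t x, x ∈ e' t '' B → x ∈ cell t ∨ ∃ j, t = wl c.A j ∧ ∃ z ∈ V j,
      x = c.α (j % c.k) z := by
    intro t x hx
    by_cases ht : ∀ j, t ≠ wl c.A j
    · left
      rw [e'o t ht] at hx
      exact heo' t hx
    · push Not at ht
      obtain ⟨j, rfl⟩ := ht
      rw [e'w] at hx
      rcases q3 j hx with ⟨z, hz, rfl⟩ | h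
      · exact Or.inr ⟨j, rfl, z, hz, rfl⟩
      · exact Or.inl h
  have hVY : ∀ j, ∀ z ∈ V j, z ∈ cell (vl c.A j) ∧ z ∈ c.Y (j % c.k) := by
    intro j z hz
    have h4 := heo' _ (q1 j hz)
    refine ⟨h4, ?_⟩
    have hlab : lab c.k (vl c.A j) = j % c.k := by
      have := lab_vl_sub (k := c.k) hk j (a := 0) le_rfl (by positivity)
      rwa [sub_zero] at this
    rw [← hlab]
    exact cell_sub _ h4
  -- the union of the small levels
  let T : Set X := ⋃ t ∈ {t : ℤ | t ≠ 0 ∧ |t| ≤ (c.m : ℤ)}, e' t '' B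
  have hTfin : {t : ℤ | t ≠ 0 ∧ |t| ≤ (c.m : ℤ)}.Finite := by
    apply (Set.finite_Icc (-(c.m : ℤ)) c.m).subset
    rintro t ⟨_, ht⟩
    rw [abs_le] at ht
    exact ht
  have hT : IsClopen T := Set.Finite.isClopen_biUnion hTfin (fun t _ => img_clopen _ hB)
  have hTmem : ∀ x, x ∈ T ↔ ∃ t : ℤ, t ≠ 0 ∧ |t| ≤ (c.m : ℤ) ∧ x ∈ e' t '' B := by
    intro x
    show x ∈ (⋃ t ∈ {t : ℤ | t ≠ 0 ∧ |t| ≤ (c.m : ℤ)}, e' t '' B) ↔ _
    rw [Set.mem_iUnion₂]
    constructor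
    · rintro ⟨t, ⟨h1, h2⟩, h3⟩
      exact ⟨t, h1, h2, h3⟩
    · rintro ⟨t, h1, h2, h3⟩
      exact ⟨t, ⟨h1, h2⟩, h3⟩
  have hT0 : Disjoint T (cell 0) := by
    rw [Set.disjoint_left]
    intro x hx hx0
    rw [hTmem] at hx
    obtain ⟨t, ht, _, hxt⟩ := hx
    rcases cls t x hxt with h | ⟨j, _, z, hz, rfl⟩
    · exact ht (cell_pt _ _ x h hx0)
    · exact c.not_Y (Nat.mod_lt _ hk) (lab_lt hk _) (hVY j z hz).2 (cell_sub 0 hx0)
  obtain ⟨e0, he0, r1, r2, r3⟩ := cover_lemma hp hv hB.compl hBc (by rwa [compl_compl])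
    hT (cell_cl 0) (cell_ne 0) hT0
  rw [Homeomorph.image_compl] at r1 r2 r3
  have hwne : ∀ j, wl c.A j ≠ 0 := fun j => by
    have := wl_pos hA j
    omega
  have hvne : ∀ j, vl c.A j ≠ 0 := fun j => by
    have := vl_pos hA j
    omega
  refine ⟨⟨cell, cell_sub, cell_disj, Function.update e' 0 e0, ?_, V, ζ, hζ, hVcl, ?_, ?_, ?_, ?_,
    ?_, ?_, ?_, ?_⟩⟩
  · intro t
    by_cases ht : t = 0
    · rw [ht, Function.update_self]; exact he0
    · rw [Function.update_of_ne ht]; exact he' t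
  · intro t ht htj
    rw [Function.update_of_ne ht, e'o t htj]
    exact heo' t
  · intro j
    rw [Function.update_of_ne (hvne j), Function.update_of_ne (hwne j), e'v, e'w]
    exact ⟨q1 j, q2 j, q3 j⟩
  · intro j
    rw [Function.update_of_ne (hvne j), Function.update_of_ne (hwne j), e'v, e'w]
    exact q4 j
  · intro j
    rw [Function.update_of_ne (hvne j), Function.update_of_ne (hwne j), e'v, e'w]
    exact q5 j
  · intro j
    rw [Function.update_of_ne (hvne j), Function.update_of_ne (hwne j), e'v, e'w]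
    exact q6 j
  · intro x hx
    rw [Function.update_self] at hx
    rcases r2 hx with h | h
    · left
      rw [hTmem] at h
      obtain ⟨t, h1, h2, h3⟩ := h
      exact ⟨t, h1, h2, by rw [Function.update_of_ne h1]; exact h3⟩
    · exact Or.inr h
  · intro t ht htm
    rw [Function.update_self, Function.update_of_ne ht]
    rw [Set.disjoint_left]
    intro x hx hx0
    exact r1 ((hTmem x).mpr ⟨t, ht, htm, hx⟩) hx0
  · obtain ⟨x, hx1, hx2⟩ := r3
    refine ⟨x, ?_⟩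
    intro t ht hxt
    by_cases ht0 : t = 0
    · rw [ht0, Function.update_self] at hxt
      exact hx1 hxt
    · rw [Function.update_of_ne ht0] at hxt
      exact hx2 ((hTmem x).mpr ⟨t, ht0, ht, hxt⟩)

end Pool.Agent.Lib.Pe4017d
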