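import Pool.Agent.Lib.Pe4017d.Claims

set_option autoImplicit false
set_option linter.unusedSectionVars false

/-!
The identifications of `R` with the levels.
-/

namespace Pool.Agent.Lib.Pe4017d

open Set

variable {X : Type*} [TopologicalSpace X] [CompactSpace X] [T2Space X] [TotallyDisconnectedSpace X]

/-- Extension of a map with two pieces. -/
theorem ext_two (hp : Perf X) [Nonempty X] {G : Subgroup (X ≃ₜ X)} (hv : Vigorous G)
    (hs : IsSimpleGroup G) {A U1 U2 : Set X} (hA : IsClopen A) (hU1 : IsClopen U1)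
    (hU2 : IsClopen U2) {g1 g2 : X ≃ₜ X} (hg1 : g1 ∈ G) (hg2 : g2 ∈ G) (hd : Disjoint U1 U2)
    (hd' : Disjoint (g1 '' U1) (g2 '' U2)) (h1 : U1 ⊆ A) (h2 : U2 ⊆ A) (h3 : g1 '' U1 ⊆ A)
    (h4 : g2 '' U2 ⊆ A) (h5 : (A \ (U1 ∪ U2)).Nonempty)
    (h6 : (A \ (g1 '' U1 ∪ g2 '' U2)).Nonempty) :
    ∃ h ∈ G, (∀ x ∈ U1, h x = g1 x) ∧ (∀ x ∈ U2, h x = g2 x) ∧ ∀ x, x ∉ A → h x = x := by
  classical
  let m : X → X := fun x => if x ∈ U1 then g1 x else g2 x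
  have m1 : ∀ x ∈ U1, m x = g1 x := fun x hx => if_pos hx
  have m2 : ∀ x ∈ U2, m x = g2 x := fun x hx => if_neg (fun h => Set.disjoint_left.mp hd h hx)
  have hm : m '' (U1 ∪ U2) = g1 '' U1 ∪ g2 '' U2 := by
    rw [Set.image_union, img_congr m1, img_congr m2]
  obtain ⟨h, hh, e1, e2⟩ := ext_main hp hv hs (K := Aᶜ) (U := U1 ∪ U2) (m := m) hA.compl
    (hU1.union hU2)
    (Set.disjoint_left.mpr fun x hx h => h (Set.union_subset h1 h2 hx))
    (by rw [hm]; exact Set.disjoint_left.mpr fun x hx h => h (Set.union_subset h3 h4 hx))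
    (by
      rintro x hx y hy hxy
      rcases hx with hx | hx <;> rcases hy with hy | hy
      · rw [m1 x hx, m1 y hy] at hxy; exact ap_inj _ hxy
      · rw [m1 x hx, m2 y hy] at hxy
        exact absurd ⟨y, hy, hxy.symm⟩ (Set.disjoint_left.mp hd' ⟨x, hx, rfl⟩)
      · rw [m2 x hx, m1 y hy] at hxy
        exact absurd ⟨x, hx, hxy⟩ (Set.disjoint_left.mp hd' ⟨y, hy, rfl⟩)
      · rw [m2 x hx, m2 y hy] at hxy; exact ap_inj _ hxy)
    (by
      rintro x (hx | hx)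
      · exact ⟨g1, hg1, U1, hU1, hx, fun y hy => m1 y hy.1⟩
      · exact ⟨g2, hg2, U2, hU2, hx, fun y hy => m2 y hy.1⟩)
    (by
      obtain ⟨x, hx, hx'⟩ := h5
      exact ⟨x, fun h => h.elim (fun h => hx' h) (fun h => h hx)⟩)
    (by
      obtain ⟨x, hx, hx'⟩ := h6
      exact ⟨x, fun h => h.elim (fun h => hx' (by rwa [hm] at h)) (fun h => h hx)⟩)
  refine ⟨h, hh, ?_, ?_, fun x hx => e2 x hx⟩
  · intro x hx
    rw [e1 x (Or.inl hx), m1 x hx]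
  · intro x hx
    rw [e1 x (Or.inr hx), m2 x hx]

/-- A homeomorphism which is the identity off `A` preserves `A`. -/
theorem img_supp {h : X ≃ₜ X} {A : Set X} (hh : ∀ x, x ∉ A → h x = x) : h '' A = A := by
  ext x
  rw [mem_img]
  constructor
  · intro hx
    by_contra hxA
    rw [inv_eq h (hh x hxA)] at hx
    exact hxA hx
  · intro hx
    by_contra hxA
    have h1 := hh _ hxA
    rw [ap_inv] at h1
    rw [← h1] at hxA
    exact hxA hx

namespace Pos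

variable {G : Subgroup (X ≃ₜ X)} {c : Ctx G} {B : Set X} (P : Pos c B)

/-- The big level. -/
def R : Set X := P.e 0 '' B

/-- Standard identifications. -/
def ps0 (t : ℤ) : X ≃ₜ X := P.e t * (P.e 0)⁻¹

theorem ps0_mem (t : ℤ) : P.ps0 t ∈ G := mul_mem (P.he _) (inv_mem (P.he _))

theorem ps0_img (t : ℤ) : P.ps0 t '' P.R = P.e t '' B := by
  unfold ps0 R
  rw [← img_mul, inv_mul_cancel_right]

theorem ps0_img' (t : ℤ) {x : X} (hx : x ∈ P.R) : P.ps0 t x ∈ P.e t '' B := by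
  rw [← P.ps0_img]
  exact ⟨x, hx, rfl⟩

/-- contraction model -/
def c0 (L i : ℕ) : X ≃ₜ X := c.α i * (P.ps0 (-((2 ^ i : ℕ) : ℤ)) * c.α i) ^ L

/-- model of the element trivial on `R` -/
def f0 (i : ℕ) : X ≃ₜ X := P.ps0 (-(wl c.A i)) * c.α i * P.ps0 (vl c.A i - ((2 ^ i : ℕ) : ℤ)) *
  (P.ps0 (-((2 ^ i : ℕ) : ℤ)))⁻¹

/-- model of the local element -/
def kap (L i : ℕ) : X ≃ₜ X := P.c0 L i * P.f0 i * (P.c0 L i)⁻¹

/-- set on which the local element is known -/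
def EE (L i : ℕ) : Set X := P.c0 L i '' (P.ps0 (-((2 ^ i : ℕ) : ℤ)) '' P.R)

theorem c0_mem (L i : ℕ) : P.c0 L i ∈ G :=
  mul_mem (c.hα i) (pow_mem (mul_mem (P.ps0_mem _) (c.hα i)) L)

theorem f0_mem (i : ℕ) : P.f0 i ∈ G :=
  mul_mem (mul_mem (mul_mem (P.ps0_mem _) (c.hα i)) (P.ps0_mem _)) (inv_mem (P.ps0_mem _))

theorem kap_mem (L i : ℕ) : P.kap L i ∈ G :=
  mul_mem (mul_mem (P.c0_mem L i) (P.f0_mem i)) (inv_mem (P.c0_mem L i))

theorem two_pow_lt {i : ℕ} (hi : i < c.k) : 2 * 2 ^ i ≤ c.A := by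
  show 2 * 2 ^ i ≤ 2 ^ c.k
  calc 2 * 2 ^ i = 2 ^ (i + 1) := by ring
    _ ≤ 2 ^ c.k := Nat.pow_le_pow_right (by norm_num) hi

theorem two_pow_pos (i : ℕ) : 0 < 2 ^ i := by positivity

theorem A_le_m : c.A ≤ c.m := pow_le_mm c.K c.K_pos

/-- Ordinary levels of label `i`. -/
theorem J {i : ℕ} (hi : i < c.k) {t : ℤ} (ht0 : t ≠ 0) (hto : Ordi c.A t) (hl : lab c.k t = i)
    {x : X} (hx : x ∈ P.e t '' B) : c.α i x ∈ P.R :=
  P.S2 hi ht0 hto (by rw [hl]; exact c.move i hi) x hx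

/-- The four special kinds of ordinary levels. -/
theorem J_neg {i : ℕ} (hi : i < c.k) {x : X} (hx : x ∈ P.e (-((2 ^ i : ℕ) : ℤ)) '' B) :
    c.α i x ∈ P.R := by
  have h1 := two_pow_pos i
  refine P.J hi (by omega) (ordi_small c.hA (by omega)) ?_ hx
  rw [lab_neg]
  apply lab_block hi
  · rw [Int.natAbs_natCast]
  · rw [Int.natAbs_natCast, pow_succ]; omega

theorem J_block {i : ℕ} (hi : i < c.k) {t : ℤ} (h1 : ((2 ^ i : ℕ) : ℤ) ≤ t)
    (h2 : t < 2 * ((2 ^ i : ℕ) : ℤ)) {x : X} (hx : x ∈ P.e t '' B) : c.α i x ∈ P.R := by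
  have h3 := two_pow_pos i
  have h4 := two_pow_lt hi
  refine P.J hi (by omega) (ordi_small c.hA (by omega)) ?_ hx
  apply lab_block hi
  · omega
  · rw [pow_succ]; omega

theorem i_mod {i : ℕ} (hi : i < c.k) : i % c.k = i := Nat.mod_eq_of_lt hi

theorem J_p {i : ℕ} (hi : i < c.k) {x : X}
    (hx : x ∈ P.e (vl c.A i - ((2 ^ i : ℕ) : ℤ)) '' B) : c.α i x ∈ P.R := by
  have h3 := two_pow_pos i
  have h4 := two_pow_lt hi
  have h5 := vl_pos c.hA i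
  refine P.J hi (by omega) (ord_v (by omega) (by omega)) ?_ hx
  rw [lab_v_sub i (by omega) (by omega), i_mod hi]

theorem J_q {i : ℕ} (hi : i < c.k) {x : X}
    (hx : x ∈ P.e (-(wl c.A i)) '' B) : c.α i x ∈ P.R := by
  have h5 := wl_pos c.hA i
  refine P.J hi (by omega) (ordi_small c.hA (by omega)) ?_ hx
  rw [lab_neg, lab_w, i_mod hi]

theorem wl_i_le {i : ℕ} (hi : i < c.k) : wl c.A i ≤ c.m := by
  apply wl_le c.hk
  calc i < c.k := hi
    _ = c.k * 1 := (mul_one _).symm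
    _ ≤ c.k * (2 * c.M + 2) := Nat.mul_le_mul_left _ (by omega)

/-- The power in the contraction model. -/
theorem pow_lvl (L : ℕ) {i : ℕ} (hi : i < c.k) {x : X}
    (hx : x ∈ P.e (-((2 ^ i : ℕ) : ℤ)) '' B) :
    ((P.ps0 (-((2 ^ i : ℕ) : ℤ)) * c.α i) ^ L) x ∈ P.e (-((2 ^ i : ℕ) : ℤ)) '' B := by
  induction L with
  | zero => exact hx
  | succ L ih =>
    rw [pow_succ', mul_ap, mul_ap]
    exact P.ps0_img' _ (P.J_neg hi ih)

theorem c0_lvl (L : ℕ) {i : ℕ} (hi : i < c.k) {x : X}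
    (hx : x ∈ P.e (-((2 ^ i : ℕ) : ℤ)) '' B) : P.c0 L i x ∈ P.R := by
  unfold c0
  rw [mul_ap]
  exact P.J_neg hi (P.pow_lvl L hi hx)

theorem c0_q (L : ℕ) {i : ℕ} (hi : i < c.k) {x : X}
    (hx : x ∈ P.e (-(wl c.A i)) '' B) : P.c0 L i x ∈ P.R := by
  unfold c0
  rw [mul_ap]
  cases L with
  | zero => exact P.J_q hi hx
  | succ L =>
    rw [pow_succ, mul_ap, mul_ap]
    exact P.J_neg hi (P.pow_lvl L hi (P.ps0_img' _ (P.J_q hi hx)))

theorem f0_lvl {i : ℕ} (hi : i < c.k) {x : X}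
    (hx : x ∈ P.ps0 (-((2 ^ i : ℕ) : ℤ)) '' P.R) : P.f0 i x ∈ P.e (-(wl c.A i)) '' B := by
  obtain ⟨r, hr, rfl⟩ := hx
  unfold f0
  rw [mul_ap, mul_ap, mul_ap, inv_ap]
  exact P.ps0_img' _ (P.J_p hi (P.ps0_img' _ hr))

theorem EE_sub (L : ℕ) {i : ℕ} (hi : i < c.k) {x : X} (hx : x ∈ P.EE L i) : x ∈ P.R := by
  obtain ⟨y, hy, rfl⟩ := hx
  rw [P.ps0_img] at hy
  exact P.c0_lvl L hi hy

theorem kap_sub (L : ℕ) {i : ℕ} (hi : i < c.k) {x : X} (hx : x ∈ P.EE L i) :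
    P.kap L i x ∈ P.R ∧ P.kap L i x ∉ P.EE L i := by
  obtain ⟨y, hy, rfl⟩ := hx
  unfold kap
  rw [mul_ap, mul_ap, inv_ap]
  have h1 := P.f0_lvl hi hy
  refine ⟨P.c0_q L hi h1, ?_⟩
  rintro ⟨z, hz, hz'⟩
  have h2 := ap_inj _ hz'
  rw [P.ps0_img, h2] at hz
  have h3 := two_pow_pos i
  have h4 := two_pow_lt hi
  have h5 := wl_pos c.hA i
  have h6 := wl_i_le hi
  have h7 : c.A ≤ c.m := A_le_m
  exact Set.disjoint_left.mp (P.dis (s := -(wl c.A i)) (t := -((2 ^ i : ℕ) : ℤ)) (by omega)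
    (by rw [abs_neg, abs_of_pos (by omega)]; omega)
    (by rw [abs_neg, Nat.abs_cast]; omega)) h1 hz

theorem C'_sub {x : X} (hx : x ∈ c.C') : x ∈ P.R := by
  by_contra hcon
  have hcell : ∀ t, x ∉ P.cell t := fun t ht =>
    (c.hC'Y _ (lab_lt c.hk t) x (P.cell_sub _ ht)).1 hx
  rcases P.pos6 x hcon with ⟨t, ht0, htm, ht⟩ | h
  · rcases P.cls ht0 ht with h | ⟨j, hj, z, hz, rfl⟩
    · exact hcell t h
    · exact (c.hC'Y _ (jk j) z (P.V_Y hz)).2 hx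
  · exact hcell 0 h

/-- `R` is not contained in `C'`. -/
theorem R_not_C' (hBn : B.Nonempty) : ∃ x ∈ P.R, x ∉ c.C' := by
  obtain ⟨b, hb⟩ := hBn
  have h1 : P.e (-((2 ^ 0 : ℕ) : ℤ)) b ∈ P.e (-((2 ^ 0 : ℕ) : ℤ)) '' B := ⟨b, hb, rfl⟩
  refine ⟨c.α 0 (P.e (-((2 ^ 0 : ℕ) : ℤ)) b), P.J_neg c.hk h1, ?_⟩
  have h2 : P.e (-((2 ^ 0 : ℕ) : ℤ)) b ∈ c.Y (lab c.k (-((2 ^ 0 : ℕ) : ℤ))) := by
    apply P.cell_sub
    apply P.pos1 _ (by norm_num) _ h1
    intro j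
    have := wl_pos c.hA j
    push_cast
    omega
  have h3 : lab c.k (-((2 ^ 0 : ℕ) : ℤ)) = 0 := by
    rw [lab_neg]
    apply lab_block c.hk
    · norm_num
    · norm_num
  rw [h3] at h2
  exact (c.hC'Y 0 c.hk _ h2).2

/-- The requirements for the identifications of the two levels of a pair. -/
def PairOK (L : ℕ) (j : ℕ) (pv pw : X ≃ₜ X) : Prop :=
  pv ∈ G ∧ pw ∈ G ∧ pv '' P.R = P.e (vl c.A j) '' B ∧ pw '' P.R = P.e (wl c.A j) '' B ∧
  (j / c.k = 0 → ∀ x ∈ P.R, c.α (j % c.k) (pv x) = pw x) ∧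
  (j / c.k = 1 → ∀ x ∈ P.R, ∃ z ∈ c.C', c.α (j % c.k) (pv x) = pw z) ∧
  (2 ≤ j / c.k → (∀ x ∈ c.Zd j, ∃ u ∈ P.EE L (j % c.k), pv u = P.ζ j x ∧
    pv (P.kap L (j % c.k) u) = P.ζ j (c.yd j x)) ∧
    ∀ x, x ∈ c.Zd j ∪ c.yd j '' c.Zd j → pw x = c.α (j % c.k) (P.ζ j x))

theorem exists_pair (hp : Perf X) [Nonempty X] (hv : Vigorous G) (hs : IsSimpleGroup G)
    (hB : IsClopen B) (hBn : B.Nonempty) (L j : ℕ) : ∃ pv pw : X ≃ₜ X, P.PairOK L j pv pw := by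
  have hjk := jk (c := c) j
  have hRcl : IsClopen P.R := img_clopen _ hB
  rcases Nat.lt_or_ge (j / c.k) 2 with ht | ht
  · have h01 : ∀ d : ℕ, d < 2 → d = 0 ∨ d = 1 := by intro d hd; omega
    rcases h01 _ ht with h0 | h1
    · refine ⟨P.ps0 (vl c.A j), P.ps0 (wl c.A j), P.ps0_mem _, P.ps0_mem _, P.ps0_img _,
        P.ps0_img _, ?_, fun h => by omega, fun h => by omega⟩
      intro _ x _
      unfold ps0
      rw [(P.pos3 j h0).2]
      rfl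
    · obtain ⟨hV, hne⟩ := P.pos4 j h1
      obtain ⟨r, hr, hr'⟩ := P.R_not_C' hBn
      have hCR : P.ps0 (wl c.A j) '' c.C' ⊆ P.e (wl c.A j) '' B := by
        rintro _ ⟨x, hx, rfl⟩
        exact P.ps0_img' _ (P.C'_sub hx)
      obtain ⟨g, hg, g1, g2⟩ := hv.push (A := P.e (wl c.A j) '' B)
        (B := c.α (j % c.k) '' P.V j) (D := P.ps0 (wl c.A j) '' c.C') (img_clopen _ hB)
        (img_clopen _ (P.hV j)) (img_clopen _ c.hC') (P.pos2 j).2.1 hCR (c.hC'n.image _) hne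
        ⟨P.ps0 (wl c.A j) r, P.ps0_img' _ hr, by
          rintro ⟨x, hx, hx'⟩
          rw [ap_inj _ hx'] at hx
          exact hr' hx⟩
      have g3 := img_supp g2
      refine ⟨P.ps0 (vl c.A j), g⁻¹ * P.ps0 (wl c.A j), P.ps0_mem _,
        mul_mem (inv_mem hg) (P.ps0_mem _), P.ps0_img _, ?_, fun h => by omega, ?_,
        fun h => by omega⟩
      · rw [img_mul, P.ps0_img]
        conv_lhs => rw [← g3]
        rw [← img_mul, inv_mul_cancel, img_one]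
      · intro _ x hx
        have h2 : P.ps0 (vl c.A j) x ∈ P.V j := by
          rw [hV]
          exact P.ps0_img' _ hx
        obtain ⟨z, hz, hz'⟩ := g1 ⟨_, ⟨_, h2, rfl⟩, rfl⟩
        refine ⟨z, hz, ?_⟩
        rw [mul_ap]
        exact (inv_eq g hz'.symm).symm
  · obtain ⟨hV, hne1, hne2⟩ := P.pos5 j ht
    have hZ := c.Zd_clopen j
    have hyZ : IsClopen (c.yd j '' c.Zd j) := img_clopen _ hZ
    have hEcl : IsClopen (P.EE L (j % c.k)) := img_clopen _ (img_clopen _ hRcl)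
    have hEn : (P.EE L (j % c.k)).Nonempty := ((hBn.image _).image _).image _
    obtain ⟨E1, E2, hE1, hE2, hE1n, hE2n, hE12, hEu⟩ := split hp hEcl hEn
    have hE1E : E1 ⊆ P.EE L (j % c.k) := by rw [← hEu]; exact Set.subset_union_left
    have hE2E : E2 ⊆ P.EE L (j % c.k) := by rw [← hEu]; exact Set.subset_union_right
    obtain ⟨r, hr, hr'⟩ := P.R_not_C' hBn
    obtain ⟨ξ, hξ, ξ1, _⟩ := hv.push (A := univ) (B := c.Zd j) (D := E1) isClopen_univ hZ hE1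
      (Set.subset_univ _) (Set.subset_univ _) hE1n ⟨r, mem_univ r, fun h => hr' (c.Zd_sub j h)⟩
      (by obtain ⟨z, hz⟩ := hE2n
          exact ⟨z, mem_univ z, fun h => Set.disjoint_left.mp hE12 h hz⟩)
    have hξE : ∀ x ∈ c.Zd j, ξ x ∈ P.EE L (j % c.k) := fun x hx => hE1E (ξ1 ⟨x, hx, rfl⟩)
    set κ := P.kap L (j % c.k) with hκ
    have hκG : κ ∈ G := P.kap_mem _ _
    -- the first level
    have hfirst := ext_two hp hv hs (A := P.e (vl c.A j) '' B)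
      (U1 := P.ps0 (vl c.A j) '' (ξ '' c.Zd j)) (U2 := P.ps0 (vl c.A j) '' (κ '' (ξ '' c.Zd j)))
      (g1 := P.ζ j * ξ⁻¹ * (P.ps0 (vl c.A j))⁻¹)
      (g2 := P.ζ j * c.yd j * ξ⁻¹ * κ⁻¹ * (P.ps0 (vl c.A j))⁻¹)
      (img_clopen _ hB) (img_clopen _ (img_clopen _ hZ))
      (img_clopen _ (img_clopen _ (img_clopen _ hZ)))
      (mul_mem (mul_mem (P.hζ j) (inv_mem hξ)) (inv_mem (P.ps0_mem _)))
      (mul_mem (mul_mem (mul_mem (mul_mem (P.hζ j) (c.yd_mem j)) (inv_mem hξ)) (inv_mem hκG))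
        (inv_mem (P.ps0_mem _))) ?_ ?_ ?_ ?_ ?_ ?_ ?_ ?_
    · obtain ⟨h, hh, a1, a2, a3⟩ := hfirst
      -- the second level
      have hsecond := ext_two hp hv hs (A := P.e (wl c.A j) '' B)
        (U1 := P.ps0 (wl c.A j) '' (c.Zd j ∪ c.yd j '' c.Zd j)) (U2 := ∅)
        (g1 := c.α (j % c.k) * P.ζ j * (P.ps0 (wl c.A j))⁻¹) (g2 := 1)
        (img_clopen _ hB) (img_clopen _ (hZ.union hyZ)) isClopen_empty
        (mul_mem (mul_mem (c.hα _) (P.hζ j)) (inv_mem (P.ps0_mem _))) (one_mem G)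
        (Set.disjoint_empty _) (by rw [Set.image_empty]; exact Set.disjoint_empty _) ?_
        (Set.empty_subset _) ?_ (by rw [Set.image_empty]; exact Set.empty_subset _) ?_ ?_
      · obtain ⟨h', hh', b1, _, b3⟩ := hsecond
        refine ⟨h * P.ps0 (vl c.A j), h' * P.ps0 (wl c.A j), mul_mem hh (P.ps0_mem _),
          mul_mem hh' (P.ps0_mem _), ?_, ?_, fun h => by omega, fun h => by omega, fun _ => ⟨?_, ?_⟩⟩
        · rw [img_mul, P.ps0_img, img_supp a3]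
        · rw [img_mul, P.ps0_img, img_supp b3]
        · intro x hx
          refine ⟨ξ x, hξE x hx, ?_, ?_⟩
          · rw [mul_ap, a1 _ ⟨_, ⟨x, hx, rfl⟩, rfl⟩, mul_ap, mul_ap, inv_ap, inv_ap]
          · rw [mul_ap, a2 _ ⟨_, ⟨_, ⟨x, hx, rfl⟩, rfl⟩, rfl⟩, mul_ap, mul_ap, mul_ap, mul_ap,
              inv_ap, inv_ap, inv_ap]
        · intro x hx
          rw [mul_ap, b1 _ ⟨x, hx, rfl⟩, mul_ap, mul_ap, inv_ap]
      · rintro _ ⟨x, hx, rfl⟩
        apply P.ps0_img' _ (P.C'_sub _)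
        rcases hx with hx | hx
        · exact c.Zd_sub j hx
        · exact c.yd_sub j hx
      · rw [← img_mul, inv_mul_cancel_right, img_mul, ← hV]
        exact (P.pos2 j).2.1
      · refine ⟨P.ps0 (wl c.A j) r, P.ps0_img' _ hr, ?_⟩
        rintro (⟨x, hx, hx'⟩ | h)
        · rw [ap_inj _ hx'] at hx
          rcases hx with hx | hx
          · exact hr' (c.Zd_sub j hx)
          · exact hr' (c.yd_sub j hx)
        · exact h
      · rw [← img_mul, inv_mul_cancel_right, img_mul, ← hV, Set.image_empty, Set.union_empty]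
        exact hne2
    · apply img_disj
      rw [Set.disjoint_left]
      rintro _ ⟨x, hx, rfl⟩ ⟨_, ⟨y, hy, rfl⟩, hxy⟩
      exact (P.kap_sub L hjk (hξE y hy)).2 (hxy ▸ hξE x hx)
    · have e1 : (P.ζ j * ξ⁻¹ * (P.ps0 (vl c.A j))⁻¹) '' (P.ps0 (vl c.A j) '' (ξ '' c.Zd j)) =
          P.ζ j '' c.Zd j := by
        rw [← img_mul, ← img_mul]
        congr 1
        simp [mul_assoc]
      have e2 : (P.ζ j * c.yd j * ξ⁻¹ * κ⁻¹ * (P.ps0 (vl c.A j))⁻¹) ''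
          (P.ps0 (vl c.A j) '' (κ '' (ξ '' c.Zd j))) = P.ζ j '' (c.yd j '' c.Zd j) := by
        rw [← img_mul, ← img_mul, ← img_mul, ← img_mul]
        congr 1
        simp [mul_assoc]
      rw [e1, e2]
      exact img_disj _ (c.yd_disj j)
    · rintro _ ⟨_, ⟨x, hx, rfl⟩, rfl⟩
      exact P.ps0_img' _ (P.EE_sub L hjk (hξE x hx))
    · rintro _ ⟨_, ⟨_, ⟨x, hx, rfl⟩, rfl⟩, rfl⟩
      exact P.ps0_img' _ (P.kap_sub L hjk (hξE x hx)).1
    · rw [← img_mul, ← img_mul]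
      have e1 : P.ζ j * ξ⁻¹ * (P.ps0 (vl c.A j))⁻¹ * P.ps0 (vl c.A j) * ξ = P.ζ j := by group
      rw [e1]
      refine Set.Subset.trans ?_ (P.pos2 j).1
      rw [hV]
      exact Set.image_mono Set.subset_union_left
    · rw [← img_mul, ← img_mul, ← img_mul]
      have e1 : P.ζ j * c.yd j * ξ⁻¹ * κ⁻¹ * (P.ps0 (vl c.A j))⁻¹ * P.ps0 (vl c.A j) * κ * ξ =
        P.ζ j * c.yd j := by group
      rw [e1, img_mul]
      refine Set.Subset.trans ?_ (P.pos2 j).1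
      rw [hV]
      exact Set.image_mono Set.subset_union_right
    · obtain ⟨z, hz⟩ := hE2n
      refine ⟨P.ps0 (vl c.A j) z, P.ps0_img' _ (P.EE_sub L hjk (hE2E hz)), ?_⟩
      rintro (⟨_, ⟨x, hx, rfl⟩, hx'⟩ | ⟨_, ⟨_, ⟨x, hx, rfl⟩, rfl⟩, hx'⟩)
      · have h5 := ap_inj _ hx'
        rw [← h5] at hz
        exact Set.disjoint_left.mp hE12 (ξ1 ⟨x, hx, rfl⟩) hz
      · have h5 := ap_inj _ hx'
        rw [← h5] at hz
        exact (P.kap_sub L hjk (hξE x hx)).2 (hE2E hz)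
    · have e1 : (P.ζ j * ξ⁻¹ * (P.ps0 (vl c.A j))⁻¹) '' (P.ps0 (vl c.A j) '' (ξ '' c.Zd j)) =
          P.ζ j '' c.Zd j := by
        rw [← img_mul, ← img_mul]
        congr 1
        simp [mul_assoc]
      have e2 : (P.ζ j * c.yd j * ξ⁻¹ * κ⁻¹ * (P.ps0 (vl c.A j))⁻¹) ''
          (P.ps0 (vl c.A j) '' (κ '' (ξ '' c.Zd j))) = P.ζ j '' (c.yd j '' c.Zd j) := by
        rw [← img_mul, ← img_mul, ← img_mul, ← img_mul]
        congr 1
        simp [mul_assoc]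
      rw [e1, e2, ← Set.image_union, ← hV]
      exact hne1

/-- The family of identifications. -/
theorem exists_psi (hp : Perf X) [Nonempty X] (hv : Vigorous G) (hs : IsSimpleGroup G)
    (hB : IsClopen B) (hBn : B.Nonempty) (L : ℕ) : ∃ ψ : ℤ → (X ≃ₜ X), (∀ t, ψ t ∈ G) ∧
      (∀ t, ψ t '' P.R = P.e t '' B) ∧ ψ 0 = 1 ∧ (∀ t, Ordi c.A t → t ≠ 0 → ψ t = P.ps0 t) ∧
      ∀ j, P.PairOK L j (ψ (vl c.A j)) (ψ (wl c.A j)) := by
  have hA := c.hA
  choose pv pw h using fun j => P.exists_pair hp hv hs hB hBn L j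
  refine ⟨fun t => if t = 0 then 1 else if t = vl c.A (zone c.A t) then pv (zone c.A t) else
    if t = wl c.A (zone c.A t) then pw (zone c.A t) else P.ps0 t, ?_, ?_, ?_, ?_, ?_⟩
  · intro t
    dsimp only
    split_ifs
    · exact one_mem G
    · exact (h _).1
    · exact (h _).2.1
    · exact P.ps0_mem t
  · intro t
    dsimp only
    split_ifs with h1 h2 h3
    · rw [h1, img_one]; rfl
    · rw [(h _).2.2.1, ← h2]
    · rw [(h _).2.2.2.1, ← h3]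
    · exact P.ps0_img t
  · exact if_pos rfl
  · intro t ht ht0
    dsimp only
    rw [if_neg ht0, if_neg (ht _).1, if_neg (ht _).2]
  · intro j
    have e1 : (if vl c.A j = 0 then (1 : X ≃ₜ X) else if vl c.A j = vl c.A (zone c.A (vl c.A j)) then
        pv (zone c.A (vl c.A j)) else if vl c.A j = wl c.A (zone c.A (vl c.A j)) then
        pw (zone c.A (vl c.A j)) else P.ps0 (vl c.A j)) = pv j := by
      rw [if_neg (v_ne j), zone_vl hA, if_pos rfl]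
    have e2 : (if wl c.A j = 0 then (1 : X ≃ₜ X) else if wl c.A j = vl c.A (zone c.A (wl c.A j)) then
        pv (zone c.A (wl c.A j)) else if wl c.A j = wl c.A (zone c.A (wl c.A j)) then
        pw (zone c.A (wl c.A j)) else P.ps0 (wl c.A j)) = pw j := by
      rw [if_neg (w_ne j), zone_wl hA, if_neg (fun h => vl_ne_wl hA j j h.symm), if_pos rfl]
    dsimp only
    rw [e1, e2]
    exact h j

end Pos

end Pool.Agent.Lib.Pe4017d
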